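import Mathlib
import Pool.Agent.Lib.MP_44a246_nt.Instances
import Pool.Agent.Lib.MP_44a246_nt.RamPoint

/-!
Function fields of one variable: places and heights without auxiliary algebra structures.
-/

namespace Pool.Agent.Lib.MP_44a246_ntL

open Pool.Agent.Lib.MP_e52354_nt
open Pool.Agent.Lib.MP_44a246_nt
open WithZero

/-- `L` is a function field of one variable over `κ` -/
def IsFF (κ L : Type*) [Field κ] [Field L] [Algebra κ L] : Prop :=
  ∃ t : L, Transcendental κ t ∧ FiniteDimensional (IntermediateField.adjoin κ {t}) L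

section One

variable {κ L : Type*} [Field κ] [Field L] [Algebra κ L]

theorem IsFF.ind (h : IsFF κ L) {P : Prop}
    (hP : ∀ (_ : Algebra (Polynomial κ) L) (_ : IsScalarTower κ (Polynomial κ) L)
      (_ : Algebra (RatFunc κ) L) (_ : IsScalarTower (Polynomial κ) (RatFunc κ) L)
      (_ : Algebra (Rinf κ) L) (_ : IsScalarTower (Rinf κ) (RatFunc κ) L)
      (_ : FiniteDimensional (RatFunc κ) L)
      (_ : Transcendental κ (algebraMap (Polynomial κ) L Polynomial.X))
      (_ : Algebra.IsAlgebraic
        (IntermediateField.adjoin κ {algebraMap (Polynomial κ) L Polynomial.X}) L), P) : P := by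
  obtain ⟨t, ht, hfin⟩ := h
  exact with_instances ht hP

theorem IsFF.of_finite {K : Type*} [Field K] [Algebra κ K] [Algebra K L] [IsScalarTower κ K L]
    [FiniteDimensional K L] (h : IsFF κ K) : IsFF κ L := by
  obtain ⟨t, ht, hfin⟩ := h
  refine ⟨algebraMap K L t, ?_, ?_⟩
  · intro hcon
    exact ht ((isAlgebraic_algebraMap_iff (algebraMap K L).injective).mp hcon)
  · let F := IntermediateField.adjoin κ {t}
    let F' := IntermediateField.adjoin κ {algebraMap K L t}
    have h1 : FiniteDimensional F L := FiniteDimensional.trans F K L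
    have h2 : ∀ x : F, algebraMap K L x ∈ F' := by
      intro x
      have h3 : F.map (IsScalarTower.toAlgHom κ K L) = F' := by
        rw [IntermediateField.adjoin_map, Set.image_singleton]
        rfl
      rw [← h3]
      exact ⟨x, x.2, rfl⟩
    let f : F →+* F' :=
      { toFun := fun x => ⟨algebraMap K L x, h2 x⟩
        map_one' := by apply Subtype.ext; simp
        map_zero' := by apply Subtype.ext; simp
        map_add' := fun x y => by apply Subtype.ext; simp
        map_mul' := fun x y => by apply Subtype.ext; simp }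
    let iF : Algebra F F' := f.toAlgebra
    have : IsScalarTower F F' L := IsScalarTower.of_algebraMap_eq fun x => rfl
    exact FiniteDimensional.right F F' L

variable [IsAlgClosed κ] [CharZero κ]

theorem IsFF.product_formula (h : IsFF κ L) {x : L} (hx : x ≠ 0) :
    ∑ᶠ v : Place κ L, log (v.1 x) = 0 := by
  refine h.ind ?_
  intro _ _ _ _ _ _ _ _ _
  exact Pool.Agent.Lib.MP_44a246_nt.product_formula hx

theorem IsFF.place_finite (h : IsFF κ L) {x : L} (hx : x ≠ 0) :
    {v : Place κ L | v.1 x ≠ 1}.Finite := by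
  refine h.ind ?_
  intro _ _ _ _ _ _ _ _ _
  exact Pool.Agent.Lib.MP_44a246_nt.place_finite hx

theorem IsFF.vmax_finite (h : IsFF κ L) {σ : Type*} [Fintype σ] {x : σ → L} (hx : x ≠ 0) :
    {v : Place κ L | vmax v.1 x ≠ 1}.Finite := by
  refine h.ind ?_
  intro _ _ _ _ _ _ _ _ _
  exact Pool.Agent.Lib.MP_44a246_nt.vmax_finite hx

theorem IsFF.height_nonneg (h : IsFF κ L) {σ : Type*} [Fintype σ] {x : σ → L} (hx : x ≠ 0) :
    0 ≤ height κ x := by
  refine h.ind ?_
  intro _ _ _ _ _ _ _ _ _
  exact Pool.Agent.Lib.MP_44a246_nt.height_nonneg hx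

theorem IsFF.place_residue (h : IsFF κ L) (v : Place κ L) {y : L} (hy : v.1 y ≤ 1) :
    ∃ c : κ, v.1 (y - algebraMap κ L c) < 1 := by
  refine h.ind ?_
  intro _ _ _ _ _ _ _ _ _
  exact Pool.Agent.Lib.MP_44a246_nt.place_residue v hy

end One

theorem vmax_eq_zero_iff {L : Type*} [Field L] (v : Valuation L ℤᵐ⁰) {σ : Type*} [Fintype σ]
    {x : σ → L} : vmax v x = 0 ↔ x = 0 := by
  constructor
  · intro h
    funext i
    have h1 : v (x i) ≤ vmax v x := Finset.le_sup (f := fun j => v (x j)) (Finset.mem_univ i)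
    rw [h] at h1
    exact (v.zero_iff).mp (le_antisymm h1 zero_le)
  · rintro rfl
    unfold vmax
    simp

theorem le_vmax {L : Type*} [Field L] (v : Valuation L ℤᵐ⁰) {σ : Type*} [Fintype σ]
    (x : σ → L) (i : σ) : v (x i) ≤ vmax v x :=
  Finset.le_sup (f := fun j => v (x j)) (Finset.mem_univ i)

theorem vmax_le {L : Type*} [Field L] (v : Valuation L ℤᵐ⁰) {σ : Type*} [Fintype σ]
    {x : σ → L} {a : ℤᵐ⁰} (h : ∀ i, v (x i) ≤ a) : vmax v x ≤ a :=
  Finset.sup_le fun i _ => h i

/-- the sum over the places of an integer valued function with finite support is monotone -/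
theorem finsum_mono {κ L : Type*} [Field κ] [Field L] [Algebra κ L] {f g : Place κ L → ℤ}
    (hf : (Function.support f).Finite) (hg : (Function.support g).Finite) (h : ∀ v, f v ≤ g v) :
    ∑ᶠ v, f v ≤ ∑ᶠ v, g v := by
  classical
  have h1 : Function.support f ⊆ ↑(hf.toFinset ∪ hg.toFinset) := by
    intro v hv
    rw [Finset.coe_union, Set.Finite.coe_toFinset]
    exact Or.inl hv
  have h2 : Function.support g ⊆ ↑(hf.toFinset ∪ hg.toFinset) := by
    intro v hv
    rw [Finset.coe_union, Set.Finite.coe_toFinset, Set.Finite.coe_toFinset]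
    exact Or.inr hv
  rw [finsum_eq_sum_of_support_subset _ h1, finsum_eq_sum_of_support_subset _ h2]
  exact Finset.sum_le_sum fun v _ => h v

theorem IsFF.vmax_support {κ L : Type*} [Field κ] [Field L] [Algebra κ L] [IsAlgClosed κ]
    [CharZero κ] (h : IsFF κ L) {σ : Type*} [Fintype σ] {x : σ → L} (hx : x ≠ 0) :
    (Function.support fun v : Place κ L => log (vmax v.1 x)).Finite := by
  refine (h.vmax_finite hx).subset fun v hv h1 => hv ?_
  simp only
  rw [h1, log_one]

theorem IsFF.place_support {κ L : Type*} [Field κ] [Field L] [Algebra κ L] [IsAlgClosed κ]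
    [CharZero κ] (h : IsFF κ L) {x : L} (hx : x ≠ 0) :
    (Function.support fun v : Place κ L => log (v.1 x)).Finite := by
  refine (h.place_finite hx).subset fun v hv h1 => hv ?_
  simp only
  rw [h1, log_one]

/-- the height does not change under scaling -/
theorem IsFF.height_smul {κ L : Type*} [Field κ] [Field L] [Algebra κ L] [IsAlgClosed κ]
    [CharZero κ] (h : IsFF κ L) {σ : Type*} [Fintype σ] {x : σ → L} {c : L} (hc : c ≠ 0) :
    height κ (fun i => c * x i) = height κ x := by
  by_cases hx : x = 0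
  · subst hx
    congr 1
    funext i
    simp
  have h1 : ∀ v : Place κ L, log (vmax v.1 fun i => c * x i) = log (v.1 c) + log (vmax v.1 x) := by
    intro v
    have h2 : (vmax v.1 fun i => c * x i) = v.1 c * vmax v.1 x := by
      apply le_antisymm
      · refine vmax_le _ fun i => ?_
        rw [map_mul]
        gcongr
        exact le_vmax _ _ _
      · obtain ⟨l, -, hl, -⟩ := exists_vmax v.1 hx
        rw [hl, ← map_mul]
        exact le_vmax v.1 (fun i => c * x i) l
    rw [h2, log_mul ((v.1.ne_zero_iff).mpr hc) (by rw [Ne, vmax_eq_zero_iff]; exact hx)]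
  unfold height
  rw [finsum_congr h1, finsum_add_distrib (h.place_support hc) (h.vmax_support hx),
    h.product_formula hc, zero_add]

section Two

variable {κ K L : Type*} [Field κ] [IsAlgClosed κ] [CharZero κ] [Field K] [Algebra κ K]
  [Field L] [Algebra κ L] [Algebra K L] [IsScalarTower κ K L] [FiniteDimensional K L]

theorem IsFF.height_ext (h : IsFF κ L) {σ : Type*} [Fintype σ] {x : σ → K} (hx : x ≠ 0) :
    height κ (fun i => algebraMap K L (x i)) = Module.finrank K L * height κ x := by
  refine h.ind ?_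
  intro _ _ _ _ _ _ _ _ _
  exact Pool.Agent.Lib.MP_44a246_nt.height_ext hx

theorem IsFF.ramIdx_finite (h : IsFF κ L) : {v : Place κ L | ramIdx K v.1 ≠ 1}.Finite := by
  refine h.ind ?_
  intro _ _ _ _ _ _ _ _ _
  exact Pool.Agent.Lib.MP_44a246_nt.ramIdx_finite

/-- the finite set of the places of `L` above a place of `K`, with the fundamental identity -/
theorem IsFF.exists_over (h : IsFF κ L) (v : Place κ K) :
    ∃ T : Finset (Place κ L), T.Nonempty ∧ (∀ w, w ∈ T ↔ below K w = v) ∧
      ∑ w ∈ T, (ramIdx K w.1 : ℤ) = Module.finrank K L := by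
  refine h.ind ?_
  intro _ _ _ _ _ _ _ _ _
  exact ⟨overFin L v, overFin_nonempty v, fun w => mem_overFin, sum_ramIdx v⟩

/-- bound for the ramification of the field generated by a point -/
theorem IsFF.ram_point (h : IsFF κ K) {n : ℕ} (x : Fin (n + 1) → L) (hx : x ≠ 0)
    (hgen : pointField K x = ⊤) :
    (ramDeg κ L K : ℤ) ≤ 2 * ((Module.finrank K L : ℤ) - 1) * height κ x := by
  refine h.ind ?_
  intro _ _ _ _ _ _ _ _ _
  exact (Pool.Agent.Lib.MP_44a246_nt.ram_point x hx hgen).1

end Two

end Pool.Agent.Lib.MP_44a246_ntL
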