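import Mathlib
import Pool.Agent.Lib.MP_44a246_ntL.LFF
import Pool.Agent.Lib.MP_44a246_nt.DerivGen
import Pool.Agent.Lib.MP_44a246_nt.Data
import Pool.Agent.Lib.MP_44a246_nt.Chart
import Pool.Agent.Lib.MP_44a246_nt.Over

/-!
Poles of derivations of a function field of one variable and of their extensions.
-/

namespace Pool.Agent.Lib.MP_44a246_ntL

open Pool.Agent.Lib.MP_e52354_nt
open Pool.Agent.Lib.MP_44a246_nt
open WithZero

/-- the poles of the derivation are bounded by `B` -/
def PoleBound (κ : Type*) {K : Type*} [Field κ] [Field K] [Algebra κ K] (D : Derivation ℤ K K)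
    (B : Place κ K → ℕ) : Prop :=
  ∀ v : Place κ K, ∀ y, v.1 y ≤ 1 → v.1 (D y) ≤ exp (B v : ℤ)

theorem lpol_div {K : Type*} [Field K] (v : Valuation K ℤᵐ⁰) {δ x : K} (hδ : δ ≠ 0)
    (h : v (δ * x) ≤ 1) : v x ≤ exp (((- log (v δ)).toNat : ℕ) : ℤ) := by
  by_cases h0 : v x = 0
  · rw [h0]; exact zero_le
  have hδ0 : v δ ≠ 0 := (Valuation.ne_zero_iff v).mpr hδ
  have h2 : log (v δ) + log (v x) ≤ 0 := by
    rw [← log_mul hδ0 h0, ← log_one, ← map_mul]
    refine (log_le_log ?_ one_ne_zero).mpr h
    rw [map_mul]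
    exact mul_ne_zero hδ0 h0
  rw [← exp_log h0, exp_le_exp]
  have h4 : - log (v δ) ≤ ((- log (v δ)).toNat : ℤ) := Int.self_le_toNat _
  linarith

/-- `with_instances` with the information which element is the variable -/
theorem with_instances' {κ K : Type*} [Field κ] [Field K] [Algebra κ K]
    {t : K} (ht : Transcendental κ t) [FiniteDimensional (IntermediateField.adjoin κ {t}) K]
    {P : Prop}
    (h : ∀ (_ : Algebra (Polynomial κ) K) (_ : IsScalarTower κ (Polynomial κ) K)
      (_ : Algebra (RatFunc κ) K) (_ : IsScalarTower (Polynomial κ) (RatFunc κ) K)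
      (_ : Algebra (Rinf κ) K) (_ : IsScalarTower (Rinf κ) (RatFunc κ) K)
      (_ : FiniteDimensional (RatFunc κ) K)
      (_ : algebraMap (Polynomial κ) K Polynomial.X = t), P) : P := by
  let F₁ := IntermediateField.adjoin κ {t}
  let E := (RatFunc.algEquivOfTranscendental t ht).toRingEquiv
  have hE : ∀ f : Polynomial κ, ((E (algebraMap _ _ f) : F₁) : K) = Polynomial.aeval t f := by
    intro f
    show ((RatFunc.algEquivOfTranscendental t ht (algebraMap _ _ f)) : K) = _
    rw [RatFunc.algEquivOfTranscendental_algebraMap]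
    exact (Polynomial.aeval_algebraMap_apply K (IntermediateField.AdjoinSimple.gen _ t) f).symm
  let iK : Algebra (RatFunc κ) K := ((algebraMap F₁ K).comp (E : RatFunc κ →+* F₁)).toAlgebra
  let iX : Algebra (Polynomial κ) K :=
    (((algebraMap F₁ K).comp (E : RatFunc κ →+* F₁)).comp
      (algebraMap (Polynomial κ) (RatFunc κ))).toAlgebra
  let iR : Algebra (Rinf κ) K :=
    (((algebraMap F₁ K).comp (E : RatFunc κ →+* F₁)).comp
      (algebraMap (Rinf κ) (RatFunc κ))).toAlgebra
  have t1 : IsScalarTower (Polynomial κ) (RatFunc κ) K := IsScalarTower.of_algebraMap_eq' rfl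
  have t2 : IsScalarTower (Rinf κ) (RatFunc κ) K := IsScalarTower.of_algebraMap_eq' rfl
  have t3 : IsScalarTower κ (Polynomial κ) K := IsScalarTower.of_algebraMap_eq fun u => by
    have := hE (Polynomial.C u)
    rw [Polynomial.aeval_C] at this
    exact this.symm
  have hfin : FiniteDimensional (RatFunc κ) K :=
    Module.Finite.of_equiv_equiv (A₁ := F₁) (B₁ := K) E.symm (RingEquiv.refl K) (by
      ext x
      show algebraMap F₁ K (E (E.symm x)) = algebraMap F₁ K x
      rw [RingEquiv.apply_symm_apply])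
  have hX : algebraMap (Polynomial κ) K Polynomial.X = t := by
    have := hE Polynomial.X
    rw [Polynomial.aeval_X] at this
    exact this
  exact h iX t3 iK t1 iR t2 hfin hX

section Base

variable {κ K : Type*} [Field κ] [IsAlgClosed κ] [CharZero κ] [Field K] [Algebra κ K]

/-- a derivation preserving the constants and mapping a separating element to a constant has
finitely many poles -/
theorem exists_poleBound {t : K} (ht : Transcendental κ t)
    (hfin : FiniteDimensional (IntermediateField.adjoin κ {t}) K) (D : Derivation ℤ K K)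
    (hκ : ∀ c : κ, ∃ c' : κ, D (algebraMap κ K c) = algebraMap κ K c')
    (hD : ∃ c' : κ, D t = algebraMap κ K c') :
    ∃ B : Place κ K → ℕ, (Function.support B).Finite ∧ PoleBound κ D B := by
  classical
  have hff : IsFF κ K := ⟨t, ht, hfin⟩
  have hcK : CharZero K := charZero_of_injective_algebraMap (algebraMap κ K).injective
  refine with_instances' ht ?_
  intro iX t3 iK t1 iR t2 hfin' hX
  have hc0 : CharZero (RatFunc κ) := charZero_RatFunc κ K
  have hD' : ∃ c' : κ, D (algebraMap (Polynomial κ) K Polynomial.X) = algebraMap κ K c' := by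
    rw [hX]; exact hD
  obtain ⟨δf, hδf0, hf, -⟩ := exists_delta (R := Polynomial κ) (RatFunc κ) (M := K)
    ({()} : Finset Unit) (fun _ => D) (fun _ => 0) (fun _ _ ρ => by
      obtain ⟨g, hg, -⟩ := poly_stable D hκ hD' ρ
      exact ⟨g, hg⟩)
  obtain ⟨δi, hδi0, hi, -⟩ := exists_delta (R := Rinf κ) (RatFunc κ) (M := K)
    ({()} : Finset Unit) (fun _ => D) (fun _ => 0) (fun _ _ ρ => rinf_stable D hκ hD' ρ)
  have hf0 : algebraMap (Polynomial κ) K δf ≠ 0 := by
    rw [IsScalarTower.algebraMap_apply (Polynomial κ) (RatFunc κ) K]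
    refine (_root_.map_ne_zero _).mpr ?_
    rwa [ne_eq, FaithfulSMul.algebraMap_eq_zero_iff]
  have hi0 : algebraMap (Rinf κ) K δi ≠ 0 := by
    rw [IsScalarTower.algebraMap_apply (Rinf κ) (RatFunc κ) K]
    refine (_root_.map_ne_zero _).mpr ?_
    rwa [ne_eq, FaithfulSMul.algebraMap_eq_zero_iff]
  refine ⟨fun v => if v.1 (algebraMap (Polynomial κ) K Polynomial.X) ≤ 1 then
      (- log (v.1 (algebraMap (Polynomial κ) K δf))).toNat else
      (- log (v.1 (algebraMap (Rinf κ) K δi))).toNat, ?_, ?_⟩
  · refine ((hff.place_finite hf0).union (hff.place_finite hi0)).subset fun v hv => ?_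
    by_contra hcon
    rw [Set.mem_union, not_or] at hcon
    obtain ⟨h1, h2⟩ := hcon
    simp only [Set.mem_ofPred_eq, not_not] at h1 h2
    apply hv
    simp only [h1, h2, log_one, neg_zero, Int.toNat_zero, ite_self]
  · intro v y hy
    simp only
    split_ifs with hXv
    · exact lpol_div v.1 hf0 (der_bound (K₀ := RatFunc κ) v.1 (place_poly v hXv) D δf
        (hf () (Finset.mem_singleton_self _)) hy)
    · exact lpol_div v.1 hi0 (der_bound (K₀ := RatFunc κ) v.1 (place_rinf v hXv) D δi
        (hi () (Finset.mem_singleton_self _)) hy)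

omit [IsAlgClosed κ] [CharZero κ] in
/-- a common bound for a finite family -/
theorem poleBound_family_aux {N : Type*} [Fintype N] (E : N → Derivation ℤ K K)
    (B : N → Place κ K → ℕ) (hB : ∀ j, (Function.support (B j)).Finite)
    (h : ∀ j, PoleBound κ (E j) (B j)) :
    (Function.support fun v => ∑ j, B j v).Finite ∧
      ∀ j, PoleBound κ (E j) (fun v => ∑ j, B j v) := by
  constructor
  · refine (Set.finite_iUnion hB).subset fun v hv => ?_
    rw [Set.mem_iUnion]
    by_contra hcon
    push Not at hcon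
    apply hv
    exact Finset.sum_eq_zero fun j _ => by
      have := hcon j
      rwa [Function.mem_support, not_not] at this
  · intro j v y hy
    refine (h j v y hy).trans (exp_le_exp.mpr ?_)
    exact_mod_cast Finset.single_le_sum (f := fun j => B j v) (fun _ _ => Nat.zero_le _)
      (Finset.mem_univ j)

theorem poleBound_sum (hK : IsFF κ K) {N : Type*} [Fintype N] (E : N → Derivation ℤ K K)
    (f : N → K)
    (h : ∀ j, ∃ B : Place κ K → ℕ, (Function.support B).Finite ∧ PoleBound κ (E j) B) :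
    ∃ B : Place κ K → ℕ, (Function.support B).Finite ∧ PoleBound κ (∑ j, f j • E j) B := by
  classical
  choose B hB1 hB2 using h
  refine ⟨fun v => ∑ j, (B j v + (log (v.1 (f j))).toNat), ?_, ?_⟩
  · have hfj : ∀ j, {v : Place κ K | log (v.1 (f j)) ≠ 0}.Finite := by
      intro j
      by_cases h0 : f j = 0
      · refine Set.finite_empty.subset fun v hv => ?_
        apply hv
        rw [h0, map_zero, log_zero]
      · refine (hK.place_finite h0).subset fun v hv h1 => hv ?_
        rw [h1, log_one]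
    refine ((Set.finite_iUnion hB1).union (Set.finite_iUnion hfj)).subset fun v hv => ?_
    by_contra hcon
    rw [Set.mem_union, not_or, Set.mem_iUnion, Set.mem_iUnion] at hcon
    obtain ⟨h1, h2⟩ := hcon
    push Not at h1 h2
    apply hv
    refine Finset.sum_eq_zero fun j _ => ?_
    have e1 := h1 j
    have e2 := h2 j
    rw [Function.mem_support, not_not] at e1
    simp only [Set.mem_ofPred_eq, not_not] at e2
    rw [e1, e2, Int.toNat_zero, add_zero]
  · intro v y hy
    have hsum : (∑ j, f j • E j) y = ∑ j, f j * E j y := by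
      show (Derivation.coeFnAddMonoidHom (∑ j, f j • E j)) y = _
      rw [map_sum, Finset.sum_apply]
      rfl
    rw [hsum]
    refine v.1.map_sum_le fun j _ => ?_
    rw [map_mul]
    by_cases h0 : v.1 (f j) = 0
    · rw [h0, zero_mul]; exact zero_le
    calc v.1 (f j) * v.1 (E j y) ≤ exp (log (v.1 (f j))) * exp (B j v : ℤ) := by
          rw [exp_log h0]
          exact mul_le_mul' le_rfl (hB2 j v y hy)
      _ = exp (log (v.1 (f j)) + (B j v : ℤ)) := (exp_add _ _).symm
      _ ≤ exp ((∑ j, (B j v + (log (v.1 (f j))).toNat) : ℕ) : ℤ) := by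
          rw [exp_le_exp]
          have h1 : B j v + (log (v.1 (f j))).toNat ≤ ∑ j, (B j v + (log (v.1 (f j))).toNat) :=
            Finset.single_le_sum (f := fun j => B j v + (log (v.1 (f j))).toNat)
              (fun _ _ => Nat.zero_le _) (Finset.mem_univ j)
          have h2 : ((B j v + (log (v.1 (f j))).toNat : ℕ) : ℤ) ≤
              ((∑ j, (B j v + (log (v.1 (f j))).toNat) : ℕ) : ℤ) := by exact_mod_cast h1
          have h3 : log (v.1 (f j)) ≤ ((log (v.1 (f j))).toNat : ℤ) := Int.self_le_toNat _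
          push_cast at h2 ⊢
          linarith

omit [IsAlgClosed κ] [CharZero κ] in
/-- a common bound for a finite family -/
theorem poleBound_family {N : Type*} [Finite N] (E : N → Derivation ℤ K K)
    (h : ∀ j, ∃ B : Place κ K → ℕ, (Function.support B).Finite ∧ PoleBound κ (E j) B) :
    ∃ B : Place κ K → ℕ, (Function.support B).Finite ∧ ∀ j, PoleBound κ (E j) B := by
  have := Fintype.ofFinite N
  choose B hB1 hB2 using h
  obtain ⟨h1, h2⟩ := poleBound_family_aux E B hB1 hB2
  exact ⟨_, h1, h2⟩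

end Base

section Over

variable {κ K L : Type*} [Field κ] [IsAlgClosed κ] [CharZero κ] [Field K] [Algebra κ K]
  [Field L] [Algebra κ L] [Algebra K L] [IsScalarTower κ K L] [FiniteDimensional K L]

/-- the poles of the extension of a derivation -/
theorem polar_over (hL : IsFF κ L) {B : Place κ K → ℕ} {D : Derivation ℤ K K}
    {D' : Derivation ℤ L L} (hext : ∀ y, D' (algebraMap K L y) = algebraMap K L (D y))
    (hB : PoleBound κ D B) (w : Place κ L) {y : L} (hy : w.1 y ≤ 1) :
    w.1 (D' y) ≤ exp (((ramIdx K w.1 * B (below K w) + (ramIdx K w.1 - 1) : ℕ)) : ℤ) := by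
  classical
  have hcK : CharZero K := charZero_of_injective_algebraMap (algebraMap κ K).injective
  have hcL : CharZero L := charZero_of_injective_algebraMap (algebraMap κ L).injective
  set v : Place κ K := below K w with hv
  let A := v.1.valuationSubring
  have : IsPrincipalIdealRing A := isPrincipalIdealRing_valuationSubring v.1
  obtain ⟨δ₀, hδ₀⟩ := v.2.1 (exp (-(B v : ℤ)))
  have hδ₀1 : v.1 δ₀ ≤ 1 := by
    rw [hδ₀, ← exp_zero, exp_le_exp]
    omega
  let δ : A := ⟨δ₀, hδ₀1⟩
  have hδ00 : δ₀ ≠ 0 := by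
    rintro rfl
    rw [map_zero] at hδ₀
    exact exp_ne_zero hδ₀.symm
  have he := one_le_ramIdx (K := K) w.1 w.2.1
  obtain ⟨s, hs⟩ := exists_ramIdx (K := K) w.1 w.2.1
  obtain ⟨π, hπ⟩ := w.2.1 (exp (-1 : ℤ))
  have hAv : ∀ a : A, v.1 (algebraMap A K a) ≤ 1 := fun a => a.2
  have hint : ∀ b : K, IsIntegral A b → v.1 b ≤ 1 := fun b hb => integral_le_one v.1 hAv hb
  have hint' : ∀ b : K, v.1 b ≤ 1 → IsIntegral A b := fun b hb => by
    have : b = algebraMap A K ⟨b, hb⟩ := rfl
    rw [this]
    exact isIntegral_algebraMap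
  have hw : ∀ ρ : A, w.1 (algebraMap A L ρ) ≤ 1 := by
    intro ρ
    rw [IsScalarTower.algebraMap_apply A K L, below_pow]
    exact pow_le_one' (hAv ρ) _
  have hκv : ∀ c : κ, v.1 (algebraMap κ K c) ≤ 1 := place_const_le v
  obtain ⟨hpol, hord⟩ := chart_polar (R := A) (K₀ := K) (K := K) (L := L) w.1 hw
    (fun _ : Unit => D) (fun _ : Unit => D') (fun _ y => hext y) δ
    (fun _ b hb => by
      refine hint' _ ?_
      have h1 : v.1 (D b) ≤ exp (B v : ℤ) := hB v b (hint b hb)
      have h2 : algebraMap A K δ = δ₀ := rfl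
      rw [h2, map_mul, hδ₀]
      calc exp (-(B v : ℤ)) * v.1 (D b) ≤ exp (-(B v : ℤ)) * exp (B v : ℤ) :=
            mul_le_mul' le_rfl h1
        _ = 1 := by rw [← exp_add]; simp)
    (Set.range (algebraMap κ L))
    (by
      rintro c ⟨c', rfl⟩
      exact ⟨algebraMap κ K c', hint' _ (hκv c'), IsScalarTower.algebraMap_apply κ K L c'⟩)
    (fun y hy => by
      obtain ⟨c, hc⟩ := hL.place_residue w hy
      exact ⟨_, ⟨c, rfl⟩, hc⟩)
    (fun k hk => by
      have h1 : (k : L) = algebraMap κ L (k : κ) := by rw [map_natCast]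
      rw [h1]
      exact w.2.2 _ (by exact_mod_cast hk))
    hπ he hs
  obtain ⟨g, hg, hgy⟩ := hpol y hy
  have h1 : w.1 (algebraMap A L δ * D' y - g * (algebraMap A L δ * D' π)) ≤ 1 := hgy ()
  have h2 : w.1 (algebraMap A L δ * D' π) ≤ exp ((ramIdx K w.1 : ℤ) - 1) := hord ()
  have h3 : w.1 (algebraMap A L δ * D' y) ≤ exp ((ramIdx K w.1 : ℤ) - 1) := by
    have h4 : algebraMap A L δ * D' y = (algebraMap A L δ * D' y -
        g * (algebraMap A L δ * D' π)) + g * (algebraMap A L δ * D' π) := by ring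
    rw [h4]
    refine (w.1.map_add _ _).trans (max_le ?_ ?_)
    · have h9 : (1 : ℤᵐ⁰) ≤ exp ((ramIdx K w.1 : ℤ) - 1) := by
        have h10 : exp (0 : ℤ) ≤ exp ((ramIdx K w.1 : ℤ) - 1) := exp_le_exp.mpr (by omega)
        exact h10
      exact h1.trans h9
    · rw [map_mul]
      calc w.1 g * w.1 (algebraMap A L δ * D' π) ≤ 1 * exp ((ramIdx K w.1 : ℤ) - 1) :=
            mul_le_mul' hg h2
        _ = _ := one_mul _
  have h5 : w.1 (algebraMap A L δ) = exp (-((ramIdx K w.1 : ℤ) * (B v : ℤ))) := by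
    have h6 : algebraMap A L δ = algebraMap K L δ₀ := rfl
    rw [h6, below_pow, ← hv, hδ₀, ← exp_nsmul]
    congr 1
    rw [nsmul_eq_mul]
    ring
  rw [map_mul, h5] at h3
  calc w.1 (D' y) = exp ((ramIdx K w.1 : ℤ) * (B v : ℤ)) *
        (exp (-((ramIdx K w.1 : ℤ) * (B v : ℤ))) * w.1 (D' y)) := by
        rw [← mul_assoc, ← exp_add]; simp
    _ ≤ exp ((ramIdx K w.1 : ℤ) * (B v : ℤ)) * exp ((ramIdx K w.1 : ℤ) - 1) :=
        mul_le_mul' le_rfl h3
    _ = exp (((ramIdx K w.1 * B v + (ramIdx K w.1 - 1) : ℕ)) : ℤ) := by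
        rw [← exp_add]
        congr 1
        push_cast [Nat.cast_sub he]
        ring

end Over

end Pool.Agent.Lib.MP_44a246_ntL
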