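import Mathlib
import Pool.Agent.Lib.MP_44a246_ntL.LFF

/-!
Sums over the places of an extension; logarithmic derivatives.
-/

namespace Pool.Agent.Lib.MP_44a246_ntL

open Pool.Agent.Lib.MP_e52354_nt
open Pool.Agent.Lib.MP_44a246_nt
open WithZero

section LogDer

variable {κ L : Type*} [Field κ] [Field L] [Algebra κ L]

theorem exists_pi (w : Place κ L) : ∃ π : L, π ≠ 0 ∧ w.1 π = exp (-1 : ℤ) := by
  obtain ⟨π, hπ⟩ := w.2.1 (exp (-1 : ℤ))
  refine ⟨π, ?_, hπ⟩
  rintro rfl
  rw [map_zero] at hπ
  exact exp_ne_zero hπ.symm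

theorem int_le_one (w : Place κ L) (k : ℤ) : w.1 (k : L) ≤ 1 := by
  have h1 : ∀ n : ℕ, w.1 (n : L) ≤ 1 := by
    intro n
    induction n with
    | zero => rw [Nat.cast_zero, map_zero]; exact zero_le
    | succ n ih =>
      rw [Nat.cast_succ]
      exact (w.1.map_add _ _).trans (max_le ih (by rw [map_one]))
  rcases Int.eq_nat_or_neg k with ⟨n, rfl | rfl⟩
  · rw [Int.cast_natCast]; exact h1 n
  · rw [Int.cast_neg, Int.cast_natCast, Valuation.map_neg]; exact h1 n

/-- logarithmic derivatives have at most one additional pole -/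
theorem log_der_bound (w : Place κ L) (D : Derivation ℤ L L) {N : ℕ}
    (hD : ∀ y, w.1 y ≤ 1 → w.1 (D y) ≤ exp (N : ℤ)) {z : L} (hz : z ≠ 0) :
    w.1 (D z / z) ≤ exp ((N : ℤ) + 1) ∧ (w.1 z = 1 → w.1 (D z / z) ≤ exp (N : ℤ)) := by
  have hunit : ∀ u, w.1 u = 1 → w.1 (D u / u) ≤ exp (N : ℤ) := by
    intro u hu
    rw [map_div₀, hu, div_one]
    exact hD u hu.le
  refine ⟨?_, hunit z⟩
  obtain ⟨π, hπ0, hπ⟩ := exists_pi w
  obtain ⟨k, hk⟩ : ∃ k : ℤ, w.1 z = exp k := ⟨log (w.1 z), (exp_log ((w.1.ne_zero_iff).mpr hz)).symm⟩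
  set u := z * π ^ k with hu
  have hu1 : w.1 u = 1 := by
    rw [hu, map_mul, map_zpow₀, hk, hπ, ← exp_zsmul, ← exp_add]
    simp
  have hu0 : u ≠ 0 := mul_ne_zero hz (zpow_ne_zero _ hπ0)
  have h1 : D z / z = D u / u - (k : L) * (D π / π) := by
    have h2 : D u = π ^ k * D z + z * ((k : L) * π ^ (k - 1) * D π) := by
      rw [hu, Derivation.leibniz, Derivation.leibniz_zpow]
      simp only [smul_eq_mul, zsmul_eq_mul]
      ring
    rw [h2, hu]
    have h3 : π ^ k ≠ 0 := zpow_ne_zero _ hπ0
    have h4 : π ^ (k - 1) = π ^ k / π := by rw [zpow_sub_one₀ hπ0, div_eq_mul_inv]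
    rw [h4]
    field_simp
    ring
  rw [h1]
  refine (w.1.map_sub _ _).trans (max_le ?_ ?_)
  · refine (hunit u hu1).trans ?_
    rw [exp_le_exp]; omega
  · rw [map_mul, map_div₀, hπ]
    have h5 : w.1 (D π) ≤ exp (N : ℤ) := hD π (by
      rw [hπ, ← exp_zero, exp_le_exp]; omega)
    calc w.1 (k : L) * (w.1 (D π) / exp (-1 : ℤ)) ≤ 1 * (exp (N : ℤ) / exp (-1 : ℤ)) :=
          mul_le_mul' (int_le_one w k) (div_le_div_of_nonneg_right h5 zero_le)
      _ = exp ((N : ℤ) + 1) := by
          rw [one_mul, ← exp_sub]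
          congr 1

end LogDer

section Sum

variable {κ K L : Type*} [Field κ] [IsAlgClosed κ] [CharZero κ] [Field K] [Algebra κ K]
  [Field L] [Algebra κ L] [Algebra K L] [IsScalarTower κ K L] [FiniteDimensional K L]

theorem below_finite (h : IsFF κ L) {T : Set (Place κ K)} (hT : T.Finite) :
    {w : Place κ L | below K w ∈ T}.Finite := by
  have h1 : {w : Place κ L | below K w ∈ T} = ⋃ v ∈ T, {w : Place κ L | below K w = v} := by
    ext w
    simp
  rw [h1]
  refine hT.biUnion fun v _ => ?_
  obtain ⟨A, -, hA, -⟩ := h.exists_over (K := K) v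
  refine A.finite_toSet.subset fun w hw => ?_
  exact (hA w).mpr hw

theorem support_below (h : IsFF κ L) {f : Place κ K → ℤ} (hf : (Function.support f).Finite) :
    (Function.support fun w : Place κ L => (ramIdx K w.1 : ℤ) * f (below K w)).Finite := by
  refine (below_finite h hf).subset fun w hw => ?_
  intro h0
  apply hw
  simp only
  rw [h0, mul_zero]

/-- the sum over the places of an extension -/
theorem finsum_ramIdx_mul (h : IsFF κ L) {f : Place κ K → ℤ}
    (hf : (Function.support f).Finite) :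
    ∑ᶠ w : Place κ L, (ramIdx K w.1 : ℤ) * f (below K w) =
      Module.finrank K L * ∑ᶠ v, f v := by
  classical
  choose T _ hT hsum using fun v : Place κ K => h.exists_over (K := K) v
  set A := hf.toFinset with hA
  have hAsub : Function.support f ⊆ A := by rw [hA, Set.Finite.coe_toFinset]
  have hsub : (Function.support fun w : Place κ L => (ramIdx K w.1 : ℤ) * f (below K w)) ⊆
      (A.biUnion T : Finset (Place κ L)) := by
    intro w hw
    rw [Finset.mem_coe, Finset.mem_biUnion]
    refine ⟨below K w, ?_, (hT _ w).mpr rfl⟩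
    have : f (below K w) ≠ 0 := by
      intro h0
      apply hw
      simp only
      rw [h0, mul_zero]
    exact hAsub this
  rw [finsum_eq_sum_of_support_subset _ hsub, finsum_eq_sum_of_support_subset _ hAsub,
    Finset.sum_biUnion, Finset.mul_sum]
  · refine Finset.sum_congr rfl fun v _ => ?_
    rw [← hsum v, Finset.sum_mul]
    refine Finset.sum_congr rfl fun w hw => ?_
    rw [(hT v w).mp hw]
  · intro v _ v' _ hne
    rw [Function.onFun, Finset.disjoint_left]
    intro w hw hw'
    exact hne (((hT v w).mp hw).symm.trans ((hT v' w).mp hw'))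

theorem ram_support (h : IsFF κ L) :
    (Function.support fun w : Place κ L => ((ramIdx K w.1 - 1 : ℕ) : ℤ)).Finite := by
  refine (h.ramIdx_finite (K := K)).subset fun w hw h1 => hw ?_
  simp only
  rw [h1]
  simp

theorem ramDeg_eq (h : IsFF κ L) :
    (ramDeg κ L K : ℤ) = ∑ᶠ w : Place κ L, ((ramIdx K w.1 - 1 : ℕ) : ℤ) := by
  have hfin : (Function.support fun w : Place κ L => ramIdx K w.1 - 1).Finite := by
    refine (h.ramIdx_finite (K := K)).subset fun w hw h1 => hw ?_
    simp only
    rw [h1, Nat.sub_self]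
  unfold ramDeg
  exact (Nat.castAddMonoidHom ℤ).map_finsum hfin

/-- the sum of the values of an indicator function is the number of elements -/
theorem finsum_indicator {T : Set (Place κ L)} (hT : T.Finite) :
    ∑ᶠ w : Place κ L, (open Classical in if w ∈ T then (1 : ℤ) else 0) = (T.ncard : ℤ) := by
  classical
  have hsub : (Function.support fun w : Place κ L => if w ∈ T then (1 : ℤ) else 0) ⊆
      hT.toFinset := by
    intro w hw
    rw [Set.Finite.coe_toFinset]
    by_contra hcon
    apply hw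
    simp only
    rw [if_neg hcon]
  rw [finsum_eq_sum_of_support_subset _ hsub, Set.ncard_eq_toFinset_card _ hT, Finset.card_eq_sum_ones]
  push_cast
  refine Finset.sum_congr rfl fun w hw => ?_
  rw [if_pos (hT.mem_toFinset.mp hw)]

theorem indicator_support {T : Set (Place κ L)} (hT : T.Finite) :
    (Function.support fun w : Place κ L =>
      (open Classical in if w ∈ T then (1 : ℤ) else 0)).Finite := by
  classical
  refine hT.subset fun w hw => ?_
  by_contra hcon
  apply hw
  simp only
  rw [if_neg hcon]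

/-- The basic global inequality: local bounds for the size of a vector give a bound for its
height. -/
theorem height_le_of_local (h : IsFF κ L) {σ : Type*} [Fintype σ] {y : σ → L} (hy : y ≠ 0)
    (c : ℕ) {B : Place κ K → ℕ} (hB : (Function.support B).Finite) {T : Set (Place κ L)}
    (hT : T.Finite)
    (hloc : ∀ w : Place κ L, log (vmax w.1 y) ≤ (c : ℤ) * (((ramIdx K w.1 * B (below K w) +
      (ramIdx K w.1 - 1) : ℕ) : ℤ) + (open Classical in if w ∈ T then (1 : ℤ) else 0))) :
    height κ y ≤ (c : ℤ) * ((∑ᶠ v, (B v : ℤ)) * Module.finrank K L + (ramDeg κ L K : ℤ) +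
      (T.ncard : ℤ)) := by
  classical
  have hB' : (Function.support fun v : Place κ K => (B v : ℤ)).Finite := by
    refine hB.subset fun v hv h0 => hv ?_
    simp only
    rw [h0]
    rfl
  have h1 : ∀ w : Place κ L, (c : ℤ) * (((ramIdx K w.1 * B (below K w) +
      (ramIdx K w.1 - 1) : ℕ) : ℤ) + (if w ∈ T then (1 : ℤ) else 0)) =
      (c : ℤ) * (((ramIdx K w.1 : ℤ) * (B (below K w) : ℤ) + ((ramIdx K w.1 - 1 : ℕ) : ℤ)) +
        (if w ∈ T then (1 : ℤ) else 0)) := by
    intro w
    push_cast
    ring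
  have s1 := support_below h (K := K) (f := fun v => (B v : ℤ)) hB'
  have s2 := ram_support (K := K) h
  have s3 := indicator_support hT
  have s12 : (Function.support fun w : Place κ L => (ramIdx K w.1 : ℤ) * (B (below K w) : ℤ) +
      ((ramIdx K w.1 - 1 : ℕ) : ℤ)).Finite :=
    (s1.union s2).subset (Function.support_add _ _)
  have s123 : (Function.support fun w : Place κ L => ((ramIdx K w.1 : ℤ) * (B (below K w) : ℤ) +
      ((ramIdx K w.1 - 1 : ℕ) : ℤ)) + (if w ∈ T then (1 : ℤ) else 0)).Finite :=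
    (s12.union s3).subset (Function.support_add _ _)
  have s4 : (Function.support fun w : Place κ L => (c : ℤ) * (((ramIdx K w.1 : ℤ) *
      (B (below K w) : ℤ) + ((ramIdx K w.1 - 1 : ℕ) : ℤ)) +
        (if w ∈ T then (1 : ℤ) else 0))).Finite := by
    refine s123.subset fun w hw h0 => hw ?_
    simp only at h0 ⊢
    rw [h0, mul_zero]
  have h2 := finsum_mono (h.vmax_support hy) s4 (fun w => by
    rw [← h1 w]; exact hloc w)
  rw [← mul_finsum, finsum_add_distrib s12 s3, finsum_add_distrib s1 s2,
    finsum_ramIdx_mul h hB', finsum_indicator hT, ← ramDeg_eq h] at h2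
  refine h2.trans (le_of_eq ?_)
  ring

end Sum

end Pool.Agent.Lib.MP_44a246_ntL
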