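import Mathlib
import Pool.Agent.Lib.MP_44a246_ntL.LFF
import Pool.Agent.Lib.MP_e52354_ntG.MTrick

/-!
Heights of roots, heights of points on lines.
-/

namespace Pool.Agent.Lib.MP_44a246_ntL

open Pool.Agent.Lib.MP_e52354_nt
open Pool.Agent.Lib.MP_e52354_ntG
open Pool.Agent.Lib.MP_44a246_nt
open WithZero

universe w

/-- the Plücker coordinates of the line through two points -/
def pluV {L : Type*} [Field L] {s : ℕ} (p p' : Fin s → L) : Fin s × Fin s → L :=
  fun ij => plu p p' ij.1 ij.2

theorem vmax_pair {L : Type*} [Field L] (v : Valuation L ℤᵐ⁰) (z : L) :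
    vmax v ![1, z] = max 1 (v z) := by
  apply le_antisymm
  · refine vmax_le _ fun i => ?_
    fin_cases i
    · simp
    · simp
  · refine max_le ?_ ?_
    · have := le_vmax v ![1, z] 0
      simpa using this
    · have := le_vmax v ![1, z] 1
      simpa using this

theorem vmax_ne_zero {L : Type*} [Field L] (v : Valuation L ℤᵐ⁰) {σ : Type*} [Fintype σ]
    {x : σ → L} (hx : x ≠ 0) : vmax v x ≠ 0 := by
  rw [Ne, vmax_eq_zero_iff]; exact hx

theorem pair_ne_zero {L : Type*} [Field L] (z : L) : (![1, z] : Fin 2 → L) ≠ 0 := by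
  intro h
  have := congrFun h 0
  simp at this

section One

variable {κ L : Type*} [Field κ] [IsAlgClosed κ] [CharZero κ] [Field L] [Algebra κ L]

/-- the height of a root is at most the height of the coefficients -/
theorem root_height (h : IsFF κ L) {m : ℕ} {c : Fin (m + 1) → L} (hc : c ≠ 0) {z : L}
    (hz : ∑ i, c i * z ^ (i : ℕ) = 0) : height κ ![1, z] ≤ height κ c := by
  classical
  obtain ⟨i₀, hi₀⟩ : ∃ i, c i ≠ 0 := by
    by_contra hcon
    push Not at hcon
    exact hc (funext hcon)
  obtain ⟨e, he, hmax⟩ := (Finset.univ.filter fun i => c i ≠ 0).exists_max_image id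
    ⟨i₀, by simp [hi₀]⟩
  simp only [Finset.mem_filter, Finset.mem_univ, true_and, id] at he hmax
  have hsum : c e * z ^ (e : ℕ) = - ∑ i ∈ Finset.univ.erase e, c i * z ^ (i : ℕ) := by
    rw [← Finset.add_sum_erase _ _ (Finset.mem_univ e)] at hz
    linear_combination hz
  have key : ∀ v : Place κ L, v.1 (c e) * vmax v.1 ![1, z] ≤ vmax v.1 c := by
    intro v
    rw [vmax_pair]
    rcases le_or_gt (v.1 z) 1 with h1 | h1
    · rw [max_eq_left h1, mul_one]
      exact le_vmax _ _ _
    · rw [max_eq_right h1.le]
      have hz0 : v.1 z ≠ 0 := by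
        intro h2; rw [h2] at h1; exact absurd h1 (by simp)
      have he0 : (e : ℕ) ≠ 0 := by
        intro h2
        have h3 : ∀ i ∈ Finset.univ.erase e, c i * z ^ (i : ℕ) = 0 := by
          intro i hi
          have hne : i ≠ e := (Finset.mem_erase.mp hi).1
          have : c i = 0 := by
            by_contra hci
            have := hmax i hci
            have h4 : (i : ℕ) ≤ (e : ℕ) := this
            exact hne (Fin.ext (by omega))
          rw [this, zero_mul]
        rw [Finset.sum_eq_zero h3, h2, pow_zero, mul_one, neg_zero] at hsum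
        exact he hsum
      obtain ⟨k, hk⟩ := Nat.exists_eq_succ_of_ne_zero he0
      have h2 : v.1 (c e * z ^ (e : ℕ)) ≤ vmax v.1 c * v.1 z ^ k := by
        rw [hsum, Valuation.map_neg]
        refine Valuation.map_sum_le _ fun i hi => ?_
        have hne : i ≠ e := (Finset.mem_erase.mp hi).1
        by_cases hci : c i = 0
        · rw [hci, zero_mul, map_zero]
          exact zero_le
        have h3 : (i : ℕ) ≤ (e : ℕ) := hmax i hci
        have h4 : (i : ℕ) ≤ k := by
          have : (i : ℕ) ≠ (e : ℕ) := fun h5 => hne (Fin.ext h5)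
          omega
        rw [map_mul, map_pow]
        exact mul_le_mul' (le_vmax _ _ _) (pow_le_pow_right₀ h1.le h4)
      rw [map_mul, map_pow, hk, Nat.succ_eq_add_one, pow_succ', ← mul_assoc] at h2
      exact le_of_mul_le_mul_right h2 (pow_pos (zero_lt_iff.mpr hz0) k)
  have hlog : ∀ v : Place κ L, log (v.1 (c e)) + log (vmax v.1 ![1, z]) ≤ log (vmax v.1 c) := by
    intro v
    have h1 : v.1 (c e) ≠ 0 := (v.1.ne_zero_iff).mpr he
    have h2 : vmax v.1 ![1, z] ≠ 0 := vmax_ne_zero v.1 (pair_ne_zero z)
    rw [← log_mul h1 h2]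
    exact (log_le_log (mul_ne_zero h1 h2) (vmax_ne_zero v.1 hc)).mpr (key v)
  have h1 : ∑ᶠ v : Place κ L, (log (v.1 (c e)) + log (vmax v.1 ![1, z])) ≤
      ∑ᶠ v : Place κ L, log (vmax v.1 c) := by
    refine finsum_mono ?_ (h.vmax_support hc) hlog
    refine ((h.place_support he).union (h.vmax_support (pair_ne_zero z))).subset ?_
    exact Function.support_add _ _
  rw [finsum_add_distrib (h.place_support he) (h.vmax_support (pair_ne_zero z)),
    h.product_formula he, zero_add] at h1
  exact h1

/-- the height of a point of a line -/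
theorem coord_height (h : IsFF κ L) {s : ℕ} {x p' : Fin s → L} {a b : Fin s}
    (hab : plu x p' a b ≠ 0) (ha : x a ≠ 0) :
    height κ x ≤ height κ ![1, x b / x a] + height κ (pluV x p') := by
  have hx : x ≠ 0 := fun h0 => ha (congrFun h0 a)
  have hπ : pluV x p' ≠ 0 := fun h0 => hab (congrFun h0 (a, b))
  have key : ∀ v : Place κ L, v.1 (plu x p' a b) * vmax v.1 x ≤
      v.1 (x a) * vmax v.1 ![1, x b / x a] * vmax v.1 (pluV x p') := by
    intro v
    obtain ⟨l, -, hl, -⟩ := exists_vmax v.1 hx
    rw [hl, ← map_mul]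
    have h1 : plu x p' a b * x l = x b * pluV x p' (a, l) - x a * pluV x p' (b, l) := by
      unfold pluV plu
      ring
    have h2 : v.1 (x a) * vmax v.1 ![1, x b / x a] = max (v.1 (x a)) (v.1 (x b)) := by
      have h3 : v.1 (x a) ≠ 0 := (v.1.ne_zero_iff).mpr ha
      rw [vmax_pair, map_div₀, mul_max, mul_one, mul_div_cancel₀ _ h3]
    rw [h1, h2]
    refine (Valuation.map_sub _ _ _).trans (max_le ?_ ?_)
    · rw [map_mul]
      exact mul_le_mul' (le_max_right _ _) (le_vmax _ _ _)
    · rw [map_mul]
      exact mul_le_mul' (le_max_left _ _) (le_vmax _ _ _)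
  have hlog : ∀ v : Place κ L, log (v.1 (plu x p' a b)) + log (vmax v.1 x) ≤
      (log (v.1 (x a)) + log (vmax v.1 ![1, x b / x a])) + log (vmax v.1 (pluV x p')) := by
    intro v
    have h1 : v.1 (plu x p' a b) ≠ 0 := (v.1.ne_zero_iff).mpr hab
    have h2 : vmax v.1 x ≠ 0 := vmax_ne_zero v.1 hx
    have h3 : v.1 (x a) ≠ 0 := (v.1.ne_zero_iff).mpr ha
    have h4 : vmax v.1 ![1, x b / x a] ≠ 0 := vmax_ne_zero v.1 (pair_ne_zero _)
    have h5 : vmax v.1 (pluV x p') ≠ 0 := vmax_ne_zero v.1 hπ
    rw [← log_mul h1 h2, ← log_mul h3 h4, ← log_mul (mul_ne_zero h3 h4) h5]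
    exact (log_le_log (mul_ne_zero h1 h2) (mul_ne_zero (mul_ne_zero h3 h4) h5)).mpr (key v)
  have s1 := h.place_support hab
  have s2 := h.vmax_support hx
  have s3 := h.place_support ha
  have s4 := h.vmax_support (pair_ne_zero (x b / x a))
  have s5 := h.vmax_support hπ
  have s34 : (Function.support fun v : Place κ L =>
      log (v.1 (x a)) + log (vmax v.1 ![1, x b / x a])).Finite :=
    (s3.union s4).subset (Function.support_add _ _)
  have h1 : ∑ᶠ v : Place κ L, (log (v.1 (plu x p' a b)) + log (vmax v.1 x)) ≤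
      ∑ᶠ v : Place κ L, ((log (v.1 (x a)) + log (vmax v.1 ![1, x b / x a])) +
        log (vmax v.1 (pluV x p'))) :=
    finsum_mono ((s1.union s2).subset (Function.support_add _ _))
      ((s34.union s5).subset (Function.support_add _ _)) hlog
  rw [finsum_add_distrib s1 s2, finsum_add_distrib s34 s5, finsum_add_distrib s3 s4,
    h.product_formula hab, h.product_formula ha, zero_add, zero_add] at h1
  exact h1

end One

section Coeff

open Polynomial

variable {L : Type*} [Field L]

/-- products of polynomials with bounded coefficients -/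
theorem coeff_mul_le (v : Valuation L ℤᵐ⁰) {P Q : L[X]} {r t : ℤᵐ⁰}
    (hP : ∀ i, v (P.coeff i) ≤ r) (hQ : ∀ i, v (Q.coeff i) ≤ t) (i : ℕ) :
    v ((P * Q).coeff i) ≤ r * t := by
  rw [coeff_mul]
  refine Valuation.map_sum_le _ fun ij _ => ?_
  rw [map_mul]
  exact mul_le_mul' (hP _) (hQ _)

theorem coeff_pow_le (v : Valuation L ℤᵐ⁰) {P : L[X]} {r : ℤᵐ⁰}
    (hP : ∀ i, v (P.coeff i) ≤ r) (n : ℕ) : ∀ i, v ((P ^ n).coeff i) ≤ r ^ n := by
  induction n with
  | zero =>
    intro i
    rw [pow_zero, pow_zero, coeff_one]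
    split_ifs <;> simp
  | succ n ih =>
    intro i
    rw [pow_succ, pow_succ]
    exact coeff_mul_le v ih hP i

theorem coeff_lmon_le {s : ℕ} (v : Valuation L ℤᵐ⁰) {y z : Fin s → L} {r : ℤᵐ⁰}
    (hy : ∀ j, v (y j) ≤ r) (hz : ∀ j, v (z j) ≤ r) (I : Fin s →₀ ℕ) (i : ℕ) :
    v ((lmon y z I).coeff i) ≤ r ^ I.degree := by
  classical
  have hlin : ∀ j i, v ((C (y j) + C (z j) * X : L[X]).coeff i) ≤ r := by
    intro j i
    rw [coeff_add, coeff_C, coeff_C_mul, coeff_X]
    refine (Valuation.map_add _ _ _).trans (max_le ?_ ?_)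
    · split_ifs
      · exact hy j
      · rw [map_zero]; exact zero_le
    · split_ifs
      · rw [mul_one]; exact hz j
      · rw [mul_zero, map_zero]; exact zero_le
  have main : ∀ (S : Finset (Fin s)) (i : ℕ),
      v ((∏ j ∈ S, (C (y j) + C (z j) * X : L[X]) ^ I j).coeff i) ≤ r ^ (∑ j ∈ S, I j) := by
    intro S
    induction S using Finset.induction_on with
    | empty =>
      intro i
      rw [Finset.prod_empty, Finset.sum_empty, pow_zero, coeff_one]
      split_ifs <;> simp
    | insert j S hj ih =>
      intro i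
      rw [Finset.prod_insert hj, Finset.sum_insert hj, pow_add]
      exact coeff_mul_le v (coeff_pow_le v (hlin j) _) ih i
  unfold lmon
  rw [Finsupp.degree_eq_sum]
  exact main _ i

end Coeff

theorem natDegree_lineP {M : Type*} [Field M] {s : ℕ} (d : ℕ) (a : (Fin s →₀ ℕ) → M)
    (y z : Fin s → M) : (lineP d a y z).natDegree ≤ d := by
  unfold lineP
  refine Polynomial.natDegree_sum_le_of_forall_le _ _ fun I hI => ?_
  refine (Polynomial.natDegree_C_mul_le _ _).trans ?_
  rw [← mem_expo.mp hI]
  exact natDegree_lmon y z I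

/-- A zero of a form on a line on which the form does not vanish identically: its height is bounded
by the height of the line. -/
theorem line_root_height {κ K : Type*} [Field κ] [IsAlgClosed κ] [CharZero κ] [Field K]
    [Algebra κ K] (hK : IsFF κ K) {s : ℕ} (d : ℕ) (a : (Fin s →₀ ℕ) → K) :
    ∃ C : ℕ, ∀ (L : Type w) [Field L] [Algebra κ L] [Algebra K L] [IsScalarTower κ K L]
      [FiniteDimensional K L] (x p' : Fin s → L), (∃ i j, plu x p' i j ≠ 0) →
      Fval d (fun I => algebraMap K L (a I)) x = 0 →
      (∃ u v : L, Fval d (fun I => algebraMap K L (a I)) (fun k => x k * u + p' k * v) ≠ 0) →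
      height κ x ≤ ((d : ℤ) + 1) * height κ (pluV x p') + (C : ℤ) * Module.finrank K L := by
  classical
  let aV : (expo (Fin s) d) → K := fun I => a I
  refine ⟨(height κ aV).toNat, ?_⟩
  intro L _ _ _ _ _ x p' hplu hF hne
  have hL : IsFF κ L := hK.of_finite
  obtain ⟨t, ht, -⟩ := hL
  have hL : IsFF κ L := hK.of_finite
  have : CharZero L := charZero_of_injective_algebraMap (algebraMap κ L).injective
  -- the coefficient vector is not zero
  have haV : aV ≠ 0 := by
    intro h0
    obtain ⟨u, v, huv⟩ := hne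
    apply huv
    unfold Fval
    refine Finset.sum_eq_zero fun I hI => ?_
    have : a I = 0 := congrFun h0 ⟨I, hI⟩
    show algebraMap K L (a I) * _ = 0
    rw [this, map_zero, zero_mul]
  have hC : height κ aV ≤ ((height κ aV).toNat : ℤ) := Int.self_le_toNat _
  -- choice of the coordinates
  obtain ⟨i, j, hij, hi⟩ : ∃ i j, plu x p' i j ≠ 0 ∧ x i ≠ 0 := by
    obtain ⟨i, j, hij⟩ := hplu
    by_cases hi : x i = 0
    · refine ⟨j, i, ?_, ?_⟩
      · intro h0
        apply hij
        unfold plu at h0 ⊢
        linear_combination -h0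
      · intro hj
        apply hij
        unfold plu
        rw [hi, hj]
        ring
    · exact ⟨i, j, hij, hi⟩
  set π := pluV x p' with hπdef
  have hπ : π ≠ 0 := fun h0 => hij (congrFun h0 (i, j))
  let y : Fin s → L := fun k => - π (j, k)
  let z : Fin s → L := fun k => π (i, k)
  let aL : (Fin s →₀ ℕ) → L := fun I => algebraMap K L (a I)
  let P := lineP d aL y z
  have hP0 : P ≠ 0 := by
    intro h0
    obtain ⟨u, v, huv⟩ := hne
    apply huv
    have h1 := Fval_comb d aL h0 inferInstance ((x i * u + p' i * v) / plu x p' i j)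
      ((x j * u + p' j * v) / plu x p' i j)
    rw [← h1]
    congr 1
    funext k
    show x k * u + p' k * v = - (x j * p' k - x k * p' j) * ((x i * u + p' i * v) / plu x p' i j) +
      (x i * p' k - x k * p' i) * ((x j * u + p' j * v) / plu x p' i j)
    have h2 : plu x p' i j = x i * p' j - x j * p' i := rfl
    field_simp
    rw [h2]
    ring
  have hPz : P.eval (x j / x i) = 0 := by
    show (lineP d aL y z).eval (x j / x i) = 0
    rw [eval_lineP]
    have h1 : (fun k => y k + z k * (x j / x i)) = fun k => (plu x p' i j / x i) * x k := by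
      funext k
      show - (x j * p' k - x k * p' j) + (x i * p' k - x k * p' i) * (x j / x i) =
        (x i * p' j - x j * p' i) / x i * x k
      field_simp
      ring
    rw [h1, Fval_smul]
    show _ * Fval d (fun I => algebraMap K L (a I)) x = 0
    rw [hF, mul_zero]
  have hdeg : P.natDegree ≤ d := natDegree_lineP d aL y z
  let c : Fin (d + 1) → L := fun k => P.coeff k
  have hc : c ≠ 0 := by
    intro h0
    apply hP0
    ext k
    rw [Polynomial.coeff_zero]
    rcases Nat.lt_or_ge d k with h1 | h1
    · exact Polynomial.coeff_eq_zero_of_natDegree_lt (hdeg.trans_lt h1)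
    · exact congrFun h0 ⟨k, by omega⟩
  have hcz : ∑ k, c k * (x j / x i) ^ (k : ℕ) = 0 := by
    rw [← hPz, Polynomial.eval_eq_sum_range' (n := d + 1) (by omega), Finset.sum_range]
  have h1 := root_height hL hc hcz
  have h2 := coord_height hL hij hi
  -- height of the coefficients of `P`
  have h3 : height κ c ≤ height κ (fun I => algebraMap K L (aV I)) + d * height κ π := by
    have haL : (fun I => algebraMap K L (aV I)) ≠ 0 := by
      intro h0
      apply haV
      funext I
      have := congrFun h0 I
      simpa using this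
    have hlog : ∀ v : Place κ L, log (vmax v.1 c) ≤
        log (vmax v.1 fun I => algebraMap K L (aV I)) + d * log (vmax v.1 π) := by
      intro v
      have e1 : vmax v.1 c ≤ (vmax v.1 fun I => algebraMap K L (aV I)) * vmax v.1 π ^ d := by
        refine vmax_le _ fun k => ?_
        show v.1 ((lineP d aL y z).coeff k) ≤ _
        unfold lineP
        rw [Polynomial.finsetSum_coeff]
        refine Valuation.map_sum_le _ fun I hI => ?_
        rw [Polynomial.coeff_C_mul, map_mul]
        refine mul_le_mul' (le_vmax v.1 (fun I => algebraMap K L (aV I)) ⟨I, hI⟩) ?_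
        have := coeff_lmon_le v.1 (y := y) (z := z) (r := vmax v.1 π) (fun k => ?_) (fun k => ?_) I k
        · rwa [mem_expo.mp hI] at this
        · show v.1 (- π (j, k)) ≤ _
          rw [Valuation.map_neg]
          exact le_vmax _ _ _
        · exact le_vmax v.1 π (i, k)
      have e2 := (log_le_log (vmax_ne_zero v.1 hc) (mul_ne_zero (vmax_ne_zero v.1 haL)
        (pow_ne_zero d (vmax_ne_zero v.1 hπ)))).mpr e1
      rw [log_mul (vmax_ne_zero v.1 haL) (pow_ne_zero d (vmax_ne_zero v.1 hπ)), log_pow] at e2
      simpa using e2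
    have s1 := hL.vmax_support haL
    have s2 := hL.vmax_support hπ
    have s3 : (Function.support fun v : Place κ L => (d : ℤ) * log (vmax v.1 π)).Finite := by
      refine s2.subset fun v hv h0 => hv ?_
      simp only at h0 ⊢
      rw [h0, mul_zero]
    have h4 : ∑ᶠ v : Place κ L, log (vmax v.1 c) ≤
        ∑ᶠ v : Place κ L, (log (vmax v.1 fun I => algebraMap K L (aV I)) +
          (d : ℤ) * log (vmax v.1 π)) :=
      finsum_mono (hL.vmax_support hc) ((s1.union s3).subset (Function.support_add _ _)) hlog
    rw [finsum_add_distrib s1 s3, ← mul_finsum] at h4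
    exact h4
  have h4 : height κ (fun I => algebraMap K L (aV I)) = Module.finrank K L * height κ aV :=
    hL.height_ext haV
  rw [h4] at h3
  have h5 : (Module.finrank K L : ℤ) * height κ aV ≤
      (Module.finrank K L : ℤ) * ((height κ aV).toNat : ℤ) :=
    mul_le_mul_of_nonneg_left hC (by positivity)
  have h6 : ((d : ℤ) + 1) * height κ π = d * height κ π + height κ π := by ring
  rw [h6, mul_comm ((height κ aV).toNat : ℤ)]
  linarith

end Pool.Agent.Lib.MP_44a246_ntL
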