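import Mathlib
import Pool.Agent.Lib.MP_44a246_ntL.LPol

/-!
The theorem of Mason and Stothers.
-/

namespace Pool.Agent.Lib.MP_44a246_ntL

open Pool.Agent.Lib.MP_e52354_nt
open Pool.Agent.Lib.MP_44a246_nt
open WithZero

universe w

section MasonLocal

variable {L : Type*} [Field L]

theorem mason_natCast (w : Valuation L ℤᵐ⁰) (n : ℕ) : w (n : L) ≤ 1 := by
  induction n with
  | zero => rw [Nat.cast_zero, map_zero]; exact zero_le_one
  | succ n ih =>
    rw [Nat.cast_succ]
    exact (w.map_add _ _).trans (max_le ih (by rw [map_one]))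

theorem mason_intCast (w : Valuation L ℤᵐ⁰) (k : ℤ) : w (k : L) ≤ 1 := by
  rcases Int.natAbs_eq k with h | h
  · rw [h, Int.cast_natCast]
    exact mason_natCast w _
  · rw [h, Int.cast_neg, Int.cast_natCast, Valuation.map_neg]
    exact mason_natCast w _

/-- a derivation with a pole of order at most `b` on the integers of a normalised valuation -/
theorem mason_der_le {w : Valuation L ℤᵐ⁰} (hw : Function.Surjective w) (D : Derivation ℤ L L)
    {b : ℤ} (hb : ∀ y, w y ≤ 1 → w (D y) ≤ exp b) (z : L) :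
    w (D z) ≤ w z * exp (b + 1) := by
  by_cases hz : z = 0
  · rw [hz, map_zero, map_zero, zero_mul]
  obtain ⟨π, hπ⟩ := hw (exp (-1 : ℤ))
  have hπ0 : π ≠ 0 := by
    rintro rfl
    rw [map_zero] at hπ
    exact exp_ne_zero hπ.symm
  have hwz : w z ≠ 0 := (Valuation.ne_zero_iff w).mpr hz
  set k : ℤ := - log (w z) with hk
  have hwk : w z = exp (-k) := by rw [hk, neg_neg, exp_log hwz]
  set u : L := z * π ^ (-k) with hu
  have hzu : z = π ^ k * u := by
    rw [hu, mul_comm z, ← mul_assoc, ← zpow_add₀ hπ0, add_neg_cancel, zpow_zero, one_mul]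
  have hπk : ∀ m : ℤ, w (π ^ m) = exp (-m) := by
    intro m
    rw [map_zpow₀, hπ, ← exp_zsmul]
    congr 1
    simp
  have hwu : w u = 1 := by
    rw [hu, map_mul, hπk, hwk, ← exp_add]
    simp
  have hDz : D z = π ^ k * D u + (k : L) * π ^ (k - 1) * u * D π := by
    have h1 : D (π ^ k) = (k : L) * π ^ (k - 1) * D π := by
      rw [Derivation.leibniz_zpow]
      simp [mul_assoc]
    rw [hzu, Derivation.leibniz, h1]
    simp only [smul_eq_mul]
    ring
  rw [hDz, hwk]
  refine (w.map_add _ _).trans (max_le ?_ ?_)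
  · rw [map_mul, hπk]
    refine mul_le_mul_right ?_ _
    refine (hb u hwu.le).trans ?_
    exact exp_le_exp.mpr (by omega)
  · rw [map_mul, map_mul, map_mul, hπk, hwu, mul_one]
    calc w (k : L) * exp (-(k - 1)) * w (D π) ≤ 1 * exp (-(k - 1)) * exp b := by
          gcongr
          · exact mason_intCast w k
          · exact hb π (by rw [hπ]; rw [← exp_zero]; exact exp_le_exp.mpr (by omega))
      _ = exp (-k) * exp (b + 1) := by
          rw [one_mul, ← exp_add, ← exp_add]
          congr 1
          ring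

/-- the local inequality -/
theorem mason_local {w : Valuation L ℤᵐ⁰} (hw : Function.Surjective w) (D : Derivation ℤ L L)
    {b : ℤ} (hb : ∀ y, w y ≤ 1 → w (D y) ≤ exp b) {y : L} (hy0 : y ≠ 0) (hy1 : 1 - y ≠ 0)
    {ε : ℤ} (hε0 : 0 ≤ ε) (hε : w y ≠ 1 ∨ w (1 - y) ≠ 1 → ε = 1) :
    w (D y / (y * (1 - y))) * vmax w ![1, y] ≤ exp (b + ε) := by
  have hwy : w y ≠ 0 := (Valuation.ne_zero_iff w).mpr hy0
  have hwy1 : w (1 - y) ≠ 0 := (Valuation.ne_zero_iff w).mpr hy1
  have hD1 : D (1 - y) = - D y := by
    rw [map_sub, Derivation.map_one_eq_zero, zero_sub]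
  have h2 : w (D y) ≤ w (1 - y) * exp (b + 1) := by
    have h3 := mason_der_le hw D hb (1 - y)
    rwa [hD1, Valuation.map_neg] at h3
  have h3 : w (D y) ≤ w y * exp (b + 1) := mason_der_le hw D hb y
  -- the two inequalities
  have key : w (D y / (y * (1 - y))) ≤ exp (b + ε) ∧
      w (D y / (y * (1 - y))) * w y ≤ exp (b + ε) := by
    by_cases hbad : w y ≠ 1 ∨ w (1 - y) ≠ 1
    · rw [hε hbad]
      have h4 : w (D y / (y * (1 - y))) * w y ≤ exp (b + 1) := by
        have h5 : w (D y / (y * (1 - y))) * w y = w (D y) / w (1 - y) := by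
          rw [map_div₀, map_mul]
          field_simp
        rw [h5]
        exact div_le_of_le_mul₀ zero_le zero_le (by rwa [mul_comm] at h2)
      refine ⟨?_, h4⟩
      rcases le_or_gt 1 (w y) with h5 | h5
      · calc w (D y / (y * (1 - y))) = w (D y / (y * (1 - y))) * 1 := (mul_one _).symm
          _ ≤ w (D y / (y * (1 - y))) * w y := by gcongr
          _ ≤ _ := h4
      · have h6 : w (1 - y) = 1 := by
          have h7 : w y < w 1 := by rwa [map_one]
          rw [Valuation.map_sub_eq_of_lt_left w h7, map_one]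
        have h8 : w (D y / (y * (1 - y))) = w (D y) / w y := by
          rw [map_div₀, map_mul, h6, mul_one]
        rw [h8]
        exact div_le_of_le_mul₀ zero_le zero_le (by rwa [mul_comm] at h3)
    · push Not at hbad
      have h5 : w (D y / (y * (1 - y))) = w (D y) := by
        rw [map_div₀, map_mul, hbad.1, hbad.2, mul_one, div_one]
      rw [h5, hbad.1, mul_one]
      have h6 : w (D y) ≤ exp (b + ε) :=
        (hb y hbad.1.le).trans (exp_le_exp.mpr (by omega))
      exact ⟨h6, h6⟩
  by_cases hJ : w (D y / (y * (1 - y))) = 0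
  · rw [hJ, zero_mul]
    exact zero_le
  · have h4 : vmax w ![1, y] ≤ (w (D y / (y * (1 - y))))⁻¹ * exp (b + ε) := by
      refine vmax_le w fun i => ?_
      fin_cases i
      · show w 1 ≤ _
        rw [map_one]
        rw [le_inv_mul_iff₀ (zero_lt_iff.mpr hJ), mul_one]
        exact key.1
      · show w y ≤ _
        rw [le_inv_mul_iff₀ (zero_lt_iff.mpr hJ)]
        exact key.2
    rwa [le_inv_mul_iff₀ (zero_lt_iff.mpr hJ)] at h4

end MasonLocal

section MasonSum

variable {κ K L : Type*} [Field κ] [IsAlgClosed κ] [CharZero κ] [Field K] [Algebra κ K]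
  [Field L] [Algebra κ L] [Algebra K L] [IsScalarTower κ K L] [FiniteDimensional K L]

/-- the pull back of a divisor of `K` has degree `[L : K]` times the degree -/
theorem mason_sum_over (hL : IsFF κ L) {B : Place κ K → ℕ} (hB : (Function.support B).Finite) :
    (Function.support fun w : Place κ L => ((ramIdx K w.1 * B (below K w) : ℕ) : ℤ)).Finite ∧
    ∑ᶠ w : Place κ L, ((ramIdx K w.1 * B (below K w) : ℕ) : ℤ) =
      ((∑ᶠ v, B v : ℕ) : ℤ) * Module.finrank K L := by
  classical
  choose T hT1 hT2 hT3 using fun v : Place κ K => hL.exists_over (L := L) v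
  have hsupp : (Function.support fun w : Place κ L =>
      ((ramIdx K w.1 * B (below K w) : ℕ) : ℤ)) ⊆ ↑(hB.toFinset.biUnion T) := by
    intro w hw
    rw [Function.mem_support] at hw
    rw [Finset.mem_coe, Finset.mem_biUnion]
    refine ⟨below K w, ?_, (hT2 _ _).mpr rfl⟩
    rw [Set.Finite.mem_toFinset, Function.mem_support]
    intro h0
    apply hw
    rw [h0, mul_zero, Nat.cast_zero]
  refine ⟨(Finset.finite_toSet _).subset hsupp, ?_⟩
  rw [finsum_eq_sum_of_support_subset _ hsupp, Finset.sum_biUnion]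
  · have h1 : ∀ v ∈ hB.toFinset, ∑ w ∈ T v, ((ramIdx K w.1 * B (below K w) : ℕ) : ℤ) =
        (B v : ℤ) * Module.finrank K L := by
      intro v _
      rw [← hT3 v, Finset.mul_sum]
      refine Finset.sum_congr rfl fun w hw => ?_
      rw [(hT2 v w).mp hw]
      push_cast
      ring
    rw [Finset.sum_congr rfl h1, ← Finset.sum_mul, finsum_eq_sum_of_support_subset B
      (s := hB.toFinset) (by rw [Set.Finite.coe_toFinset])]
    push_cast
    rfl
  · intro v _ v' _ hne
    rw [Function.onFun, Finset.disjoint_left]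
    intro w hw hw'
    exact hne (((hT2 v w).mp hw).symm.trans ((hT2 v' w).mp hw'))

theorem mason_sum_ram (hL : IsFF κ L) :
    (Function.support fun w : Place κ L => ((ramIdx K w.1 - 1 : ℕ) : ℤ)).Finite ∧
    ∑ᶠ w : Place κ L, ((ramIdx K w.1 - 1 : ℕ) : ℤ) = (ramDeg κ L K : ℤ) := by
  have h1 : (Function.support fun w : Place κ L => (ramIdx K w.1 - 1 : ℕ)).Finite := by
    refine (hL.ramIdx_finite (K := K)).subset fun v hv h1 => hv ?_
    simp only
    rw [h1, Nat.sub_self]
  refine ⟨h1.subset fun w hw h0 => hw ?_, ?_⟩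
  · simp only at h0 ⊢
    rw [h0, Nat.cast_zero]
  · unfold ramDeg
    exact (AddMonoidHom.map_finsum (Nat.castAddMonoidHom ℤ) h1).symm

/-- the elements of `L` killed by a nonzero derivation over `κ` are constants -/
theorem mason_const (hL : IsFF κ L) (D : Derivation κ L L) {s : L} (hs : D s ≠ 0) {y : L}
    (hy : D y = 0) : ∃ c : κ, algebraMap κ L c = y := by
  by_cases htr : Transcendental κ y
  · exfalso
    apply hs
    obtain ⟨t, ht, hfin⟩ := hL
    have h1 : Algebra.IsAlgebraic (IntermediateField.adjoin κ {t}) L :=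
      Algebra.IsAlgebraic.of_finite _ _
    have h2 : IsTranscendenceBasis κ (fun _ : Unit => t) := by
      have h3 : AlgebraicIndependent κ (fun _ : Unit => t) :=
        algebraicIndependent_unique_type_iff.mpr ht
      rw [h3.isTranscendenceBasis_iff_isAlgebraic, ← IntermediateField.isAlgebraic_adjoin_iff_top,
        Set.range_const]
      exact h1
    have h3 : AlgebraicIndependent κ (fun _ : Unit => y) :=
      algebraicIndependent_unique_type_iff.mpr htr
    have h4 : IsTranscendenceBasis κ (fun _ : Unit => y) := by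
      refine h3.isTranscendenceBasis_of_lift_trdeg_le_of_finite ?_
      rw [← h2.lift_cardinalMk_eq_trdeg]
    have h5 := h4.isAlgebraic_field
    rw [Set.range_const] at h5
    exact der_eq_zero D {y} (by rintro _ rfl; exact hy) (h5.isAlgebraic s)
  · have h1 : IsAlgebraic κ y := by
      by_contra h2
      exact htr h2
    have h3 := (IsAlgClosed.algebraMap_bijective_of_isIntegral (k := κ)
      (K := integralClosure κ L)).2
    obtain ⟨c, hc⟩ := h3 ⟨y, h1.isIntegral⟩
    exact ⟨c, congrArg Subtype.val hc⟩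

end MasonSum

theorem mason {κ K : Type*} [Field κ] [IsAlgClosed κ] [CharZero κ] [Field K] [Algebra κ K]
    (hK : IsFF κ K) :
    ∃ C : ℕ, ∀ (L : Type w) [Field L] [Algebra κ L] [Algebra K L] [IsScalarTower κ K L]
      [FiniteDimensional K L] (y : L), y ≠ 0 → y ≠ 1 →
      height κ ![1, y] ≤ (({w : Place κ L | w.1 y ≠ 1 ∨ w.1 (1 - y) ≠ 1}.ncard : ℕ) : ℤ) +
        (ramDeg κ L K : ℤ) + (C : ℤ) * Module.finrank K L := by
  classical
  obtain ⟨t, ht, hfin⟩ := id hK
  have halg : Algebra.IsAlgebraic (IntermediateField.adjoin κ {t}) K :=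
    Algebra.IsAlgebraic.of_finite _ _
  obtain ⟨D₀, hD₀⟩ : ∃ D₀ : Derivation κ K K, D₀ t = 1 := by
    have h1 : AlgebraicIndependent κ (fun _ : Unit => t) :=
      algebraicIndependent_unique_type_iff.mpr ht
    have h2 : IsTranscendenceBasis κ (fun _ : Unit => t) := by
      rw [h1.isTranscendenceBasis_iff_isAlgebraic, ← IntermediateField.isAlgebraic_adjoin_iff_top,
        Set.range_const]
      exact halg
    have h3 := h2.isAlgebraic
    obtain ⟨D, hD⟩ := exists_derivation h1 (fun _ => 1)
    exact ⟨D, hD ()⟩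
  let D : Derivation ℤ K K := D₀.restrictScalars ℤ
  have hDκ : ∀ c : κ, D (algebraMap κ K c) = 0 := fun c => D₀.map_algebraMap c
  have hDt : D t = 1 := hD₀
  obtain ⟨B, hBfin, hB⟩ := exists_poleBound ht hfin D (fun c => ⟨0, by rw [hDκ, map_zero]⟩)
    ⟨1, by rw [hDt, map_one]⟩
  refine ⟨∑ᶠ v, B v, ?_⟩
  intro L _ _ _ _ _ y hy0 hy1
  have hL : IsFF κ L := hK.of_finite
  have hcK : CharZero K := charZero_of_injective_algebraMap (algebraMap κ K).injective
  obtain ⟨D', hD'⟩ := exists_extension (K := K) (L := L) D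
  have hy1' : (1 : L) - y ≠ 0 := sub_ne_zero.mpr (Ne.symm hy1)
  have hD'κ : ∀ c : κ, D' (algebraMap κ L c) = 0 := by
    intro c
    rw [IsScalarTower.algebraMap_apply κ K L, hD', hDκ, map_zero]
  have hD't : D' (algebraMap K L t) = 1 := by
    rw [hD', hDt, map_one]
  have hnn : (0 : ℤ) ≤ (({w : Place κ L | w.1 y ≠ 1 ∨ w.1 (1 - y) ≠ 1}.ncard : ℕ) : ℤ) +
        (ramDeg κ L K : ℤ) + ((∑ᶠ v, B v : ℕ) : ℤ) * Module.finrank K L := by positivity
  by_cases hDy : D' y = 0
  · -- `y` is constant
    let D'' : Derivation κ L L := Derivation.mk'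
      { toFun := D'
        map_add' := map_add D'
        map_smul' := fun c z => by
          show D' (c • z) = c • D' z
          rw [Algebra.smul_def, Derivation.leibniz, hD'κ, smul_zero, add_zero, smul_eq_mul,
            ← Algebra.smul_def] }
      (fun a b => Derivation.leibniz D' a b)
    obtain ⟨c, hc⟩ := mason_const hL D'' (s := algebraMap K L t)
      (by show D' _ ≠ 0; rw [hD't]; exact one_ne_zero) (y := y) hDy
    have hc0 : c ≠ 0 := by
      rintro rfl
      rw [map_zero] at hc
      exact hy0 hc.symm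
    have h1 : ∀ w : Place κ L, log (vmax w.1 ![1, y]) = 0 := by
      intro w
      have h2 : w.1 y = 1 := by rw [← hc]; exact w.2.2 c hc0
      have h3 : vmax w.1 ![1, y] = 1 := by
        apply le_antisymm
        · refine vmax_le w.1 fun i => ?_
          fin_cases i
          · show w.1 1 ≤ 1
            rw [map_one]
          · show w.1 y ≤ 1
            rw [h2]
        · have h4 := le_vmax w.1 ![1, y] 0
          have h5 : w.1 (![1, y] 0) = 1 := by
            show w.1 1 = 1
            rw [map_one]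
          rwa [h5] at h4
      rw [h3, log_one]
    have h2 : height κ ![1, y] = 0 := by
      unfold height
      rw [finsum_congr h1, finsum_zero]
    rw [h2]
    exact hnn
  -- the main case
  set J : L := D' y / (y * (1 - y)) with hJ
  have hJ0 : J ≠ 0 := div_ne_zero hDy (mul_ne_zero hy0 hy1')
  have hvec : (![1, y] : Fin 2 → L) ≠ 0 := by
    intro h0
    have := congrFun h0 0
    exact one_ne_zero this
  set bad : Set (Place κ L) := {w : Place κ L | w.1 y ≠ 1 ∨ w.1 (1 - y) ≠ 1} with hbad
  have hbadfin : bad.Finite := by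
    have h1 := (hL.place_finite hy0).union (hL.place_finite hy1')
    refine h1.subset ?_
    intro w hw
    exact hw
  have hloc : ∀ w : Place κ L, log (w.1 J) + log (vmax w.1 ![1, y]) ≤
      (((ramIdx K w.1 * B (below K w) : ℕ) : ℤ) + ((ramIdx K w.1 - 1 : ℕ) : ℤ)) +
        (if w ∈ bad then 1 else 0) := by
    intro w
    have h1 := mason_local (w := w.1) w.2.1 D'
      (b := (((ramIdx K w.1 * B (below K w) + (ramIdx K w.1 - 1) : ℕ)) : ℤ))
      (fun y hy => polar_over hL hD' hB w hy) hy0 hy1' (ε := if w ∈ bad then 1 else 0)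
      (by split_ifs <;> omega) (by intro h; exact if_pos h)
    have hwJ : w.1 J ≠ 0 := (Valuation.ne_zero_iff w.1).mpr hJ0
    have hvm : vmax w.1 ![1, y] ≠ 0 := by rw [Ne, vmax_eq_zero_iff]; exact hvec
    rw [← log_mul hwJ hvm]
    rw [← log_exp ((((ramIdx K w.1 * B (below K w) : ℕ) : ℤ) + ((ramIdx K w.1 - 1 : ℕ) : ℤ)) +
        (if w ∈ bad then 1 else 0))]
    refine (log_le_log (mul_ne_zero hwJ hvm) exp_ne_zero).mpr ?_
    refine h1.trans (le_of_eq ?_)
    rw [Nat.cast_add]
  obtain ⟨hs1, he1⟩ := mason_sum_over hL hBfin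
  obtain ⟨hs2, he2⟩ := mason_sum_ram (K := K) hL
  have hs3 : (Function.support fun w : Place κ L => (if w ∈ bad then (1 : ℤ) else 0)).Finite := by
    refine hbadfin.subset fun w hw => ?_
    by_contra h0
    apply hw
    simp only
    rw [if_neg h0]
  have he3 : ∑ᶠ w : Place κ L, (if w ∈ bad then (1 : ℤ) else 0) = (bad.ncard : ℤ) := by
    rw [finsum_eq_sum_of_support_subset (s := hbadfin.toFinset) _ (by
      intro w hw
      rw [Set.Finite.coe_toFinset]
      by_contra h0
      apply hw
      simp only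
      rw [if_neg h0])]
    rw [Finset.sum_congr rfl (g := fun _ => (1 : ℤ)) (fun w hw => by
      rw [if_pos ((Set.Finite.mem_toFinset _).mp hw)])]
    rw [Finset.sum_const, Set.ncard_eq_toFinset_card bad hbadfin, nsmul_eq_mul, mul_one]
  have hs12 := hs1.union hs2
  have hsum := finsum_mono (κ := κ) (L := L)
    (f := fun w => log (w.1 J) + log (vmax w.1 ![1, y]))
    (g := fun w => (((ramIdx K w.1 * B (below K w) : ℕ) : ℤ) + ((ramIdx K w.1 - 1 : ℕ) : ℤ)) +
        (if w ∈ bad then 1 else 0))
    (((hL.place_support hJ0).union (hL.vmax_support hvec)).subset (Function.support_add _ _))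
    (((hs12.subset (Function.support_add _ _)).union hs3).subset (Function.support_add _ _))
    hloc
  rw [finsum_add_distrib (hL.place_support hJ0) (hL.vmax_support hvec), hL.product_formula hJ0,
    zero_add, finsum_add_distrib (hs12.subset (Function.support_add _ _)) hs3,
    finsum_add_distrib hs1 hs2, he1, he2, he3] at hsum
  have hht : height κ ![1, y] = ∑ᶠ w : Place κ L, log (vmax w.1 ![1, y]) := rfl
  rw [hht]
  refine hsum.trans (le_of_eq ?_)
  ring

end Pool.Agent.Lib.MP_44a246_ntL
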