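import Mathlib
import Pool.Agent.Lib.MP_44a246_nt.DerivGen

/-!
Commuting derivations dual to an algebraically independent family of a function field, which are
combinations of finitely many derivations preserving the field of constants.
-/

namespace Pool.Agent.Lib.MP_44a246_ntL

open Pool.Agent.Lib.MP_e52354_nt
open Pool.Agent.Lib.MP_44a246_nt

variable {k₀ κ K : Type*} [Field k₀] [CharZero k₀] [Field κ] [Field K] [Algebra k₀ κ] [Algebra κ K]
  [Algebra k₀ K] [IsScalarTower k₀ κ K]

theorem exists_ders_comm_field {t : K} (ht : Transcendental κ t)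
    (halg : Algebra.IsAlgebraic (IntermediateField.adjoin κ {t}) K)
    {Θ : Type*} [Finite Θ] [DecidableEq Θ] {c : Θ → K} (hc : AlgebraicIndependent k₀ c) :
    ∃ (N : Type) (_ : Fintype N) (E : N → Derivation k₀ K K) (f : Θ → N → K)
      (D : Θ → Derivation k₀ K K),
      (∀ j, ∀ u : κ, ∃ u' : κ, E j (algebraMap κ K u) = algebraMap κ K u') ∧
      (∀ j, ∃ v : κ, E j t = algebraMap κ K v) ∧
      (∀ θ, D θ = ∑ j, f θ j • E j) ∧
      (∀ θ θ', D θ (c θ') = if θ = θ' then 1 else 0) ∧
      (∀ θ θ' y, D θ (D θ' y) = D θ' (D θ y)) := by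
  classical
  cases nonempty_fintype Θ
  -- a transcendence basis of `K`
  obtain ⟨ι, x, hx⟩ := exists_isTranscendenceBasis' k₀ κ
  have hy : IsTranscendenceBasis κ (fun _ : Unit => t) := by
    have h1 : AlgebraicIndependent κ (fun _ : Unit => t) :=
      algebraicIndependent_unique_type_iff.mpr ht
    rw [h1.isTranscendenceBasis_iff_isAlgebraic, ← IntermediateField.isAlgebraic_adjoin_iff_top,
      Set.range_const]
    exact halg
  set z : Unit ⊕ ι → K := Sum.elim (fun _ => t) (algebraMap κ K ∘ x) with hz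
  have hzb : IsTranscendenceBasis k₀ z := hx.sumElim_comp hy
  have hzalg : Algebra.IsAlgebraic (Algebra.adjoin k₀ (Set.range z)) K := hzb.isAlgebraic
  have hxalg : Algebra.IsAlgebraic (Algebra.adjoin k₀ (Set.range x)) κ := hx.isAlgebraic
  have hxalg' : Algebra.IsAlgebraic (IntermediateField.adjoin k₀ (Set.range x)) κ :=
    hx.isAlgebraic_field
  have hzalg' : Algebra.IsAlgebraic (IntermediateField.adjoin k₀ (Set.range z)) K :=
    hzb.isAlgebraic_field
  -- the dual derivations
  choose E hE using fun j : Unit ⊕ ι =>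
    exists_derivation hzb.1 (fun i => if i = j then (1 : K) else 0)
  choose e he using fun j : ι =>
    exists_derivation hx.1 (fun i => if i = j then (1 : κ) else 0)
  have hEκ : ∀ j, ∀ u : κ, ∃ u' : κ, E j (algebraMap κ K u) = algebraMap κ K u' := by
    intro j u
    have hu : IsAlgebraic (IntermediateField.adjoin k₀ (Set.range x)) u := hxalg'.isAlgebraic u
    rcases j with j | j
    · refine ⟨0, ?_⟩
      rw [map_zero]
      have h1 := der_eq_zero (V := K) ((E (Sum.inl j)).compAlgebraMap κ) (Set.range x) ?_ hu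
      · exact h1
      · rintro _ ⟨i, rfl⟩
        have h2 := hE (Sum.inl j) (Sum.inr i)
        simpa [hz] using h2
    · refine ⟨e j u, ?_⟩
      have h1 := der_eq_zero (V := K) ((E (Sum.inr j)).compAlgebraMap κ -
        (Algebra.linearMap κ K).compDer (e j)) (Set.range x) ?_ hu
      · rw [Derivation.sub_apply] at h1
        exact sub_eq_zero.mp h1
      · rintro _ ⟨i, rfl⟩
        have h2 := hE (Sum.inr j) (Sum.inr i)
        have h3 := he j i
        rw [Derivation.sub_apply, sub_eq_zero]
        show E (Sum.inr j) (algebraMap κ K (x i)) = algebraMap κ K (e j (x i))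
        rw [h3]
        have h4 : z (Sum.inr i) = algebraMap κ K (x i) := rfl
        rw [← h4, h2]
        by_cases hij : i = j
        · simp [hij]
        · simp [hij]
  have hEt : ∀ j, ∃ v : κ, E j t = algebraMap κ K v := by
    intro j
    have h2 := hE j (Sum.inl ())
    have h4 : z (Sum.inl ()) = t := rfl
    rw [h4] at h2
    by_cases hj : Sum.inl () = j
    · exact ⟨1, by rw [h2, if_pos hj, map_one]⟩
    · exact ⟨0, by rw [h2, if_neg hj, map_zero]⟩
  -- finitely many of the `z j` suffice
  choose T hT1 hT2 using fun θ : Θ =>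
    exists_finset_isAlgebraic (hzalg'.isAlgebraic (c θ))
  set U : Finset K := Finset.univ.biUnion T with hU
  have hUz : (U : Set K) ⊆ Set.range z := by simpa [hU] using hT1
  obtain ⟨S, hS⟩ : ∃ S : Finset (Unit ⊕ ι), S.image z = U := by
    obtain ⟨S, _, hS⟩ := Finset.subset_set_image_iff.mp
      (show (U : Set K) ⊆ z '' Set.univ by rwa [Set.image_univ])
    exact ⟨S, hS⟩
  have hUalg : ∀ θ, IsAlgebraic (IntermediateField.adjoin k₀ (U : Set K)) (c θ) := by
    intro θ
    refine isAlgebraic_adjoin_mono ?_ (hT2 θ)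
    exact Finset.coe_subset.mpr (Finset.subset_biUnion_of_mem T (Finset.mem_univ θ))
  -- outside `S` the dual derivations vanish on `c`
  have hEc : ∀ j, j ∉ S → ∀ θ, E j (c θ) = 0 := by
    intro j hj θ
    refine der_eq_zero (V := K) (E j) (U : Set K) ?_ (hUalg θ)
    intro y hy
    rw [← hS, Finset.coe_image] at hy
    obtain ⟨i, hi, rfl⟩ := hy
    rw [hE, if_neg]
    rintro rfl
    exact hj hi
  -- a transcendence basis between `c` and `c ∪ z`
  have hc' : AlgebraicIndepOn k₀ id (Set.range c) := hc.coe_range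
  have halg2 : Algebra.IsAlgebraic (Algebra.adjoin k₀ (Set.range c ∪ Set.range z)) K := by
    rw [← IntermediateField.isAlgebraic_adjoin_iff_top]
    constructor
    intro y
    exact isAlgebraic_adjoin_mono Set.subset_union_right (hzalg'.isAlgebraic y)
  obtain ⟨s, hs1, hs3, hs2⟩ := exists_isTranscendenceBasis_between (Set.range c)
    (Set.range c ∪ Set.range z) Set.subset_union_left hc'
  have hsalg₀ : Algebra.IsAlgebraic (Algebra.adjoin k₀ (Set.range ((↑) : s → K))) K :=
    hs2.isAlgebraic
  have hsalg : Algebra.IsAlgebraic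
      (IntermediateField.adjoin k₀ (Set.range ((↑) : s → K))) K := hs2.isAlgebraic_field
  -- a derivation vanishing on `s` vanishes
  have hvan : ∀ D : Derivation k₀ K K, (∀ y ∈ s, D y = 0) → ∀ y, D y = 0 := by
    intro D hD y
    refine der_eq_zero (V := K) D (Set.range ((↑) : s → K)) ?_ (hsalg.isAlgebraic y)
    rintro _ ⟨i, rfl⟩
    exact hD i i.2
  have hzs : ∀ j, j ∉ S → z j ∈ s := by
    intro j hj
    by_contra hcon
    have h1 : E j (z j) = 0 := by
      refine hvan (E j) ?_ (z j)
      intro y hy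
      rcases hs3 hy with ⟨θ, rfl⟩ | ⟨i, rfl⟩
      · exact hEc j hj θ
      · rw [hE, if_neg]
        rintro rfl
        exact hcon hy
    rw [hE, if_pos rfl] at h1
    exact one_ne_zero h1
  -- derivations dual to `c`
  choose D hD using fun θ : Θ =>
    exists_derivation hs2.1 (fun i => if (i : K) = c θ then (1 : K) else 0)
  have hDc : ∀ θ θ', D θ (c θ') = if θ = θ' then 1 else 0 := by
    intro θ θ'
    have h1 := hD θ ⟨c θ', hs1 ⟨θ', rfl⟩⟩
    simp only at h1
    rw [h1]
    by_cases h : θ = θ'
    · subst h; simp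
    · rw [if_neg h, if_neg]
      intro h2
      exact h (hc.injective h2.symm)
  have hDz : ∀ θ j, j ∉ S → D θ (z j) = 0 := by
    intro θ j hj
    have h1 := hD θ ⟨z j, hzs j hj⟩
    simp only at h1
    rw [h1, if_neg]
    intro h2
    have h3 := hEc j hj θ
    rw [← h2, hE, if_pos rfl] at h3
    exact one_ne_zero h3
  have hcomm : ∀ θ θ' y, D θ (D θ' y) = D θ' (D θ y) := by
    intro θ θ' y
    have h1 := hvan ⁅D θ, D θ'⁆ ?_ y
    · rw [Derivation.commutator_apply] at h1
      exact sub_eq_zero.mp h1
    · intro y hy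
      rw [Derivation.commutator_apply]
      have h2 : ∀ θ₁ θ₂, D θ₁ (D θ₂ y) = 0 := by
        intro θ₁ θ₂
        have h3 := hD θ₂ ⟨y, hy⟩
        simp only at h3
        rw [h3]
        by_cases h4 : y = c θ₂
        · rw [if_pos h4, Derivation.map_one_eq_zero]
        · rw [if_neg h4, map_zero]
      rw [h2, h2, sub_zero]
  have hsum : ∀ (θ : Θ) (S' : Finset (Unit ⊕ ι)) (y : K), (∑ j ∈ S', D θ (z j) • E j) y =
      ∑ j ∈ S', D θ (z j) * E j y := by
    intro θ S' y
    induction S' using Finset.induction_on with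
    | empty => simp
    | insert a S' ha ih =>
      rw [Finset.sum_insert ha, Finset.sum_insert ha, Derivation.add_apply, ih,
        Derivation.smul_apply, smul_eq_mul]
  have hDE : ∀ θ, D θ = ∑ j ∈ S, D θ (z j) • E j := by
    intro θ
    apply Derivation.ext
    intro y
    have h2 := der_eq_zero (V := K) (D θ - ∑ j ∈ S, D θ (z j) • E j) (Set.range z) ?_
      (hzalg'.isAlgebraic y)
    · rw [Derivation.sub_apply, sub_eq_zero] at h2
      exact h2
    · rintro _ ⟨i, rfl⟩
      rw [Derivation.sub_apply, sub_eq_zero, hsum]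
      by_cases hi : i ∈ S
      · rw [Finset.sum_eq_single i]
        · rw [hE, if_pos rfl, mul_one]
        · intro b _ hb
          rw [hE, if_neg (Ne.symm hb), mul_zero]
        · intro h
          exact absurd hi h
      · rw [hDz θ i hi]
        symm
        refine Finset.sum_eq_zero fun j hj => ?_
        rw [hE, if_neg, mul_zero]
        rintro rfl
        exact hi hj
  let eN := S.equivFin
  refine ⟨Fin S.card, inferInstance, fun j => E (eN.symm j), fun θ j => D θ (z (eN.symm j)), D,
    fun j => hEκ _, fun j => hEt _, ?_, hDc, hcomm⟩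
  intro θ
  rw [hDE θ]
  have h1 : (∑ j : Fin S.card, D θ (z (eN.symm j)) • E (eN.symm j)) =
      ∑ j ∈ S, D θ (z j) • E j := by
    rw [← Finset.sum_coe_sort S]
    exact Equiv.sum_comp eN.symm (fun j : S => D θ (z j) • E j)
  rw [← hDE θ, h1]
  exact hDE θ

theorem exists_ders_comm {t : K} (ht : Transcendental κ t)
    (halg : Algebra.IsAlgebraic (IntermediateField.adjoin κ {t}) K)
    {Θ : Type*} [Finite Θ] [DecidableEq Θ] {c : Θ → K} (hc : AlgebraicIndependent k₀ c) :
    ∃ (N : Type) (_ : Fintype N) (E : N → Derivation ℤ K K) (f : Θ → N → K)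
      (D : Θ → Derivation ℤ K K),
      (∀ j, ∀ u : κ, ∃ u' : κ, E j (algebraMap κ K u) = algebraMap κ K u') ∧
      (∀ j, ∃ v : κ, E j t = algebraMap κ K v) ∧
      (∀ θ, D θ = ∑ j, f θ j • E j) ∧
      (∀ θ θ', D θ (c θ') = if θ = θ' then 1 else 0) ∧
      (∀ θ θ' y, D θ (D θ' y) = D θ' (D θ y)) := by
  classical
  obtain ⟨N, iN, E, f, D, h1, h2, h3, h4, h5⟩ := exists_ders_comm_field ht halg hc
  refine ⟨N, iN, fun j => (E j).restrictScalars ℤ, f, fun θ => (D θ).restrictScalars ℤ,
    h1, h2, ?_, h4, h5⟩
  intro θ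
  apply Derivation.ext
  intro y
  have hsum : ∀ (S' : Finset N), (∑ j ∈ S', f θ j • E j) y = ∑ j ∈ S', f θ j * E j y := by
    intro S'
    induction S' using Finset.induction_on with
    | empty => simp
    | insert a S' ha ih =>
      rw [Finset.sum_insert ha, Finset.sum_insert ha, Derivation.add_apply, ih,
        Derivation.smul_apply, smul_eq_mul]
  have hsum' : ∀ (S' : Finset N), (∑ j ∈ S', f θ j • (E j).restrictScalars ℤ) y =
      ∑ j ∈ S', f θ j * E j y := by
    intro S'
    induction S' using Finset.induction_on with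
    | empty => simp
    | insert a S' ha ih =>
      rw [Finset.sum_insert ha, Finset.sum_insert ha, Derivation.add_apply, ih,
        Derivation.smul_apply, smul_eq_mul]
      rfl
  rw [hsum', ← hsum, ← h3 θ]
  rfl

end Pool.Agent.Lib.MP_44a246_ntL
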