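import Mathlib
import Pool.Agent.Lib.MP_44a246_ntL.LForms
import Pool.Agent.Lib.MP_e52354_ntI.ILocal

/-!
Logarithmic version: functionals from blocks of rows, completion of families, blocks of vectors
zeta.
-/

namespace Pool.Agent.Lib.MP_44a246_ntL

open Pool.Agent.Lib.MP_e52354_nt
open Pool.Agent.Lib.MP_e52354_ntG
open Pool.Agent.Lib.MP_e52354_ntC
open Pool.Agent.Lib.MP_e52354_ntI

universe u w w'

section Blk

variable {s q : ℕ} {d : Fin q → ℕ} {γ : Type w'} {M : Type u} [Field M] {β : Type}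

/-- The family `Z` of rows, divided by `α`, has total weight `W`. -/
def LBlk (X : DData (MIdx s q d) γ M) (p : Fin s → M) (g : β → Fin q) {κ : Type} [Fintype κ]
    [DecidableEq κ] (Z : κ → Fin s ⊕ β → M) (α : M) (W : ℕ) : Prop :=
  ∃ (n : ℕ) (c : Fin n → M) (Z' : Fin n → κ → Fin s ⊕ β → M) (wc : Fin n → ℕ)
    (wz : Fin n → κ → ℕ),
    (∀ j, WSl X p g 0 (wc j) (c j)) ∧ (∀ j i, WTl X p g 2 (wz j i) (Z' j i)) ∧
    (∀ j, wc j + ∑ i, wz j i = W) ∧
    ∀ (μ : Type) [Fintype μ] [DecidableEq μ] (e : κ ⊕ μ ≃ Fin s ⊕ β) (Y : μ → Fin s ⊕ β → M),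
      rowdet e (Sum.elim Z Y) = α * ∑ j, c j * rowdet e (Sum.elim (Z' j) Y)

variable {X : DData (MIdx s q d) γ M} {p : Fin s → M} {g : β → Fin q}

theorem LBlk.fam {κ : Type} [Fintype κ] [DecidableEq κ] {Z : κ → Fin s ⊕ β → M} {wz : κ → ℕ}
    (h : ∀ i, WTl X p g 2 (wz i) (Z i)) : LBlk X p g Z 1 (∑ i, wz i) := by
  refine ⟨1, fun _ => 1, fun _ => Z, fun _ => 0, fun _ => wz, fun _ => WSl.of_WS WS.one, fun _ i => h i,
    fun _ => by simp, ?_⟩
  intro μ _ _ e Y
  simp

theorem LBlk.sum {κ₁ κ₂ : Type} [Fintype κ₁] [DecidableEq κ₁] [Fintype κ₂] [DecidableEq κ₂]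
    {Z₁ : κ₁ → Fin s ⊕ β → M} {Z₂ : κ₂ → Fin s ⊕ β → M} {α₁ α₂ : M} {W₁ W₂ : ℕ} (h₁ : LBlk X p g Z₁ α₁ W₁)
    (h₂ : LBlk X p g Z₂ α₂ W₂) : LBlk X p g (Sum.elim Z₁ Z₂) (α₁ * α₂) (W₁ + W₂) := by
  obtain ⟨n₁, c₁, Z₁', wc₁, wz₁, hc₁, hz₁, hw₁, hd₁⟩ := h₁
  obtain ⟨n₂, c₂, Z₂', wc₂, wz₂, hc₂, hz₂, hw₂, hd₂⟩ := h₂
  let gg : Fin (n₁ * n₂) ≃ Fin n₁ × Fin n₂ := finProdFinEquiv.symm
  refine ⟨n₁ * n₂, fun j => c₁ (gg j).1 * c₂ (gg j).2,
    fun j => Sum.elim (Z₁' (gg j).1) (Z₂' (gg j).2), fun j => wc₁ (gg j).1 + wc₂ (gg j).2,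
    fun j => Sum.elim (wz₁ (gg j).1) (wz₂ (gg j).2), fun j => ?_, ?_, fun j => ?_, ?_⟩
  · exact (hc₁ _).mul (hc₂ _)
  · rintro j (i | i)
    · exact hz₁ _ i
    · exact hz₂ _ i
  · rw [Fintype.sum_sum_type]
    simp only [Sum.elim_inl, Sum.elim_inr]
    rw [← hw₁ (gg j).1, ← hw₂ (gg j).2]
    ring
  · intro μ _ _ e Y
    -- first block
    let f₁ : κ₁ ⊕ (κ₂ ⊕ μ) ≃ (κ₁ ⊕ κ₂) ⊕ μ := (Equiv.sumAssoc κ₁ κ₂ μ).symm
    have e1 : ∀ (A : κ₁ → Fin s ⊕ β → M) (B : κ₂ → Fin s ⊕ β → M),
        rowdet e (Sum.elim (Sum.elim A B) Y) =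
          rowdet (f₁.trans e) (Sum.elim A (Sum.elim B Y)) := by
      intro A B
      rw [← rowdet_reindex f₁]
      congr 1
      funext i
      rcases i with i | (i | i) <;> rfl
    let f₂ : κ₂ ⊕ (κ₁ ⊕ μ) ≃ (κ₁ ⊕ κ₂) ⊕ μ :=
      (Equiv.sumAssoc κ₂ κ₁ μ).symm.trans (Equiv.sumCongr (Equiv.sumComm κ₂ κ₁) (Equiv.refl μ))
    have e2 : ∀ (A : κ₁ → Fin s ⊕ β → M) (B : κ₂ → Fin s ⊕ β → M),
        rowdet e (Sum.elim (Sum.elim A B) Y) =
          rowdet (f₂.trans e) (Sum.elim B (Sum.elim A Y)) := by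
      intro A B
      rw [← rowdet_reindex f₂]
      congr 1
      funext i
      rcases i with i | (i | i) <;> rfl
    rw [e1, hd₁]
    have e3 : ∀ j, rowdet (f₁.trans e) (Sum.elim (Z₁' j) (Sum.elim Z₂ Y)) =
        α₂ * ∑ k, c₂ k * rowdet e (Sum.elim (Sum.elim (Z₁' j) (Z₂' k)) Y) := by
      intro j
      rw [← e1, e2, hd₂]
      congr 1
      refine Finset.sum_congr rfl fun k _ => ?_
      rw [e2]
    simp only [e3]
    rw [← Equiv.sum_comp gg.symm]
    rw [Fintype.sum_prod_type]
    simp only [Equiv.apply_symm_apply, Finset.mul_sum]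
    refine Finset.sum_congr rfl fun j _ => Finset.sum_congr rfl fun k _ => ?_
    ring

theorem lblk_reindex {κ κ' : Type} [Fintype κ] [DecidableEq κ] [Fintype κ'] [DecidableEq κ']
    (f : κ' ≃ κ) {Z : κ → Fin s ⊕ β → M} {α : M} {W : ℕ} (h : LBlk X p g Z α W) :
    LBlk X p g (Z ∘ f) α W := by
  obtain ⟨n, c, Z', wc, wz, hc, hz, hw, hd⟩ := h
  refine ⟨n, c, fun j => Z' j ∘ f, wc, fun j => wz j ∘ f, hc, fun j i => hz j (f i),
    fun j => ?_, ?_⟩
  · rw [← hw j, ← Equiv.sum_comp f]
    rfl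
  · intro μ _ _ e Y
    let gg : κ ⊕ μ ≃ κ' ⊕ μ := Equiv.sumCongr f.symm (Equiv.refl μ)
    have h1 : ∀ A : κ → Fin s ⊕ β → M, rowdet e (Sum.elim (A ∘ f) Y) =
        rowdet (gg.trans e) (Sum.elim A Y) := by
      intro A
      rw [← rowdet_reindex gg e]
      congr 1
      funext i
      rcases i with i | i
      · simp [gg]
      · rfl
    rw [h1, hd μ (gg.trans e) Y]
    congr 1
    exact Finset.sum_congr rfl fun j _ => by rw [h1]

end Blk


section RowFun

variable {s q : ℕ} {d : Fin q → ℕ} {γ : Type w'} {M : Type u} [Field M] {β : Type}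

/-- the functional `F` has weight `w` on the tangent space, up to a power of the coordinates -/
def LRF (X : DData (MIdx s q d) γ M) (p : Fin s → M) [Fintype β] (g : β → Fin q) (C w : ℕ)
    (F : (Fin s ⊕ β → M) →ₗ[M] M) : Prop :=
  ∀ (z : Fin s ⊕ β → M) (wz : ℕ), (∀ j, lgr X p g j ⬝ᵥ z = 0) → WTl X p g 2 wz z →
    ∀ l, p l ≠ 0 → WSl X p g C (w + wz) (F z * p l ^ (∑ j, d j))

/-- there is a line through the point whose Plücker coordinates are controlled -/
def BLine (X : DData (MIdx s q d) γ M) (p : Fin s → M) (g : β → Fin q) (C : ℕ) : Prop :=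
  ∃ p' : Fin s → M, (∃ i j, plu p p' i j ≠ 0) ∧ ∀ i j, LBl X p g C 0 (plu p p' i j)

theorem BLine.mono {X : DData (MIdx s q d) γ M} {p : Fin s → M} {g : β → Fin q} {C : ℕ}
    (h : BLine X p g C) (k : ℕ) : BLine X p g (C + k) := by
  obtain ⟨p', h1, h2⟩ := h
  exact ⟨p', h1, fun i j => (h2 i j).mono_c k⟩

/-- a local bound with exponent one -/
theorem lower_one {X : DData (MIdx s q d) γ M} {p : Fin s → M} {g : β → Fin q} {c E : ℕ}
    {b : Fin s} (hb : p b ≠ 0) (h : ∃ J : M, J ≠ 0 ∧ LBl X p g c (E + 1) J) :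
    ∃ J : M, J ≠ 0 ∧ LBl X p g c 1 J := by
  obtain ⟨J, hJ0, hJ⟩ := h
  rw [add_comm] at hJ
  exact ⟨J * p b ^ E, mul_ne_zero hJ0 (pow_ne_zero _ hb), hJ.lower b⟩

variable [Fintype β] {X : DData (MIdx s q d) γ M} {p : Fin s → M} {g : β → Fin q}

theorem LRF.direct {C w E : ℕ} {F : (Fin s ⊕ β → M) →ₗ[M] M} (hF : LRF X p g C w F)
    {z : Fin s ⊕ β → M} (hz : ∀ j, lgr X p g j ⬝ᵥ z = 0) {wz : ℕ} (hwz : WTl X p g 2 wz z)
    (hd : ∑ j, d j = E + (w + wz)) : LBl X p g C E (F z) :=
  LBl.of_WSl hd fun l hl => hF z wz hz hwz l hl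

theorem LRF.line {C w E : ℕ} {F : (Fin s ⊕ β → M) →ₗ[M] M} (hF : LRF X p g C w F)
    (L : LogData X p g) {b : Fin s} (hb : p b ≠ 0)
    (hd : ∑ j, d j = E + (w + 2)) {z : Fin s ⊕ β → M} (hz : z ∈ lSzeta X p g)
    (hFz : F z ≠ 0) : BLine X p g C := by
  obtain ⟨f, m, i₀, j₀, hm, rfl⟩ := hz
  let p' : Fin s → M := fun v => F (ldp X p g f (m + Finsupp.single v 1))
  have hπ : ∀ i j, F (lzeta X p g f m i j) = plu p p' i j := by
    intro i j
    rw [lzeta, map_sub, map_smul, map_smul]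
    rfl
  refine ⟨fun v => p' v * p b ^ E, ⟨i₀, j₀, ?_⟩, fun i j => ?_⟩
  · have : plu p (fun v => p' v * p b ^ E) i₀ j₀ = plu p p' i₀ j₀ * p b ^ E := by
      simp only [plu]; ring
    rw [this, ← hπ]
    exact mul_ne_zero hFz (pow_ne_zero _ hb)
  · have : plu p (fun v => p' v * p b ^ E) i j = plu p p' i j * p b ^ E := by
      simp only [plu]; ring
    rw [this]
    refine LBl.lower (e := 0) ?_ b
    rw [zero_add, ← hπ]
    exact hF.direct (wz := 2) (fun a => lgr_zeta L ⟨f, m, i, j, hm, rfl⟩ a)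
      ((wtl_zeta L ⟨f, m, i, j, hm, rfl⟩).mono_c 1) hd

/-- the functional `z ↦ det (v, p, Z, z) / det (g v)`, for a block `Z` -/
theorem lexists_rowFun_blk {qA r : ℕ} (hq : qA + Fintype.card β = q) (hs : qA + r + 1 = s)
    {ρ : Type} [Fintype ρ] [DecidableEq ρ]
    (hρ : Fintype.card ρ + 1 = r)
    (L : LogData X p g) {l₀ : Fin s} (hl₀ : p l₀ ≠ 0)
    (Z : ρ → Fin s ⊕ β → M) (hgZ : ∀ i j, lgr X p g j ⬝ᵥ Z i = 0)
    {α : M} (hα : α ≠ 0) {W : ℕ} (hZ : LBlk X p g Z α W) :
    ∃ F : (Fin s ⊕ β → M) →ₗ[M] M, LRF X p g (2 * (s + Fintype.card β)) (qA + 1 + W) F ∧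
      ∀ z, (∀ j, lgr X p g j ⬝ᵥ z = 0) →
        LinearIndependent M
          (fun o : Option (ρ ⊕ Unit) => o.elim (lp d p g) (Sum.elim Z fun _ => z)) →
        F z ≠ 0 := by
  classical
  let e : Fin q ⊕ Option (ρ ⊕ Unit) ≃ Fin s ⊕ β := Fintype.equivOfCardEq (by
    simp only [Fintype.card_sum, Fintype.card_option, Fintype.card_unit, Fintype.card_fin]
    omega)
  have hdet0 : (Matrix.of fun j i => lgr X p g i ⬝ᵥ
      ldp X p g j (Finsupp.single l₀ (d j))).det ≠ 0 := by
    rw [det_lvv L l₀]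
    exact mul_ne_zero (pow_ne_zero _ (neg_ne_zero.mpr one_ne_zero)) (pow_ne_zero _ hl₀)
  obtain ⟨F, hF1, hF2⟩ := exists_rowLG e (fun j => lgr X p g j) (lgr_li L hl₀) (p := lp d p g)
    (fun j => lgr_p L j) Z (fun i j => hgZ j i)
    (fun j => ldp X p g j (Finsupp.single l₀ (d j))) hdet0
  refine ⟨α⁻¹ • F, ?_, ?_⟩
  · intro z wz hz hwz l hl
    obtain ⟨n, c, Z', wc, wzz, hc, hz', hw, hdet⟩ := hZ
    let f : ρ ⊕ (Fin q ⊕ Option Unit) ≃ Fin q ⊕ Option (ρ ⊕ Unit) :=
      { toFun := Sum.elim (fun i => Sum.inr (some (Sum.inl i)))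
          (Sum.elim (fun i => Sum.inl i) (fun o => o.elim (Sum.inr none)
            (fun _ => Sum.inr (some (Sum.inr ())))))
        invFun := Sum.elim (fun i => Sum.inr (Sum.inl i))
          (fun o => o.elim (Sum.inr (Sum.inr none)) (Sum.elim Sum.inl
            (fun _ => Sum.inr (Sum.inr (some ())))))
        left_inv := by rintro (i | (i | (_ | i))) <;> rfl
        right_inv := by rintro (i | (_ | (i | i))) <;> rfl }
    let v : Fin q → Fin s ⊕ β → M := fun j => ldp X p g j (Finsupp.single l (d j))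
    have h2 := hF1 z hz v
    rw [det_lvv L l] at h2
    have h3 : (rowsM e v (lp d p g) (Sum.elim Z fun _ => z)).det =
        rowdet (f.trans e) (Sum.elim Z (Sum.elim v (fun o => o.elim (lp d p g) (fun _ => z)))) := by
      have h4 := rowdet_reindex f e
        (Sum.elim v (fun o : Option (ρ ⊕ Unit) => o.elim (lp d p g) (Sum.elim Z fun _ => z)))
      unfold rowsM
      rw [show (Matrix.of fun i j =>
        (Sum.elim v (fun o : Option (ρ ⊕ Unit) => o.elim (lp d p g) (Sum.elim Z fun _ => z))) i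
          (e j)).det = rowdet e _ from rfl, ← h4]
      congr 1
      funext i
      rcases i with i | (i | (_ | i)) <;> rfl
    rw [h3, hdet] at h2
    have h5 : (α⁻¹ • F) z * ((-1) ^ q * p l ^ (∑ j, d j)) = ∑ j, c j * rowdet (f.trans e)
        (Sum.elim (Z' j) (Sum.elim v (fun o => o.elim (lp d p g) (fun _ => z)))) := by
      rw [LinearMap.smul_apply, smul_eq_mul, mul_assoc, ← h2, ← mul_assoc,
        inv_mul_cancel₀ hα, one_mul]
    have h0 : WSl X p g (2 * (s + Fintype.card β)) (qA + 1 + W + wz)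
        ((α⁻¹ • F) z * ((-1) ^ q * p l ^ (∑ j, d j))) := by
      rw [h5]
      refine WSl.sum _ fun j _ => ?_
      have h8 : ∑ i, (Sum.elim (wzz j) (Sum.elim (fun _ : Fin q => 1)
          (fun o : Option Unit => o.elim 1 (fun _ => wz)))) i =
          (∑ i, wzz j i + (qA + 1 + wz)) + Fintype.card β := by
        simp only [Fintype.sum_sum_type, Fintype.sum_option, Sum.elim_inl, Sum.elim_inr,
          Option.elim_none, Option.elim_some, Finset.sum_const, Finset.card_univ,
          Fintype.card_fin, Fintype.card_unit, smul_eq_mul, mul_one, one_mul]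
        omega
      have h6 := WSl.det (X := X) (p := p) (g := g) (f.trans e)
        (Sum.elim (Z' j) (Sum.elim v (fun o : Option Unit => o.elim (lp d p g) (fun _ => z))))
        (Sum.inr (Sum.inr none)) rfl 2
        (Sum.elim (wzz j) (Sum.elim (fun _ => 1) (fun o => o.elim 1 (fun _ => wz)))) rfl (by
          rintro (i | (i | (_ | i))) hi
          · exact hz' j i
          · exact (wtl_mD L _ _).mono_c 1
          · exact absurd rfl hi
          · exact hwz) h8
      have h7 : Fintype.card (ρ ⊕ (Fin q ⊕ Option Unit)) = s + Fintype.card β := by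
        simp only [Fintype.card_sum, Fintype.card_option, Fintype.card_unit, Fintype.card_fin]
        omega
      rw [h7] at h6
      have h9 := (hc j).mul h6
      have h10 : wc j + (∑ i, wzz j i + (qA + 1 + wz)) = qA + 1 + W + wz := by
        rw [← hw j]; ring
      rw [h10, zero_add] at h9
      exact h9
    rcases neg_one_pow_eq_or M q with h | h
    · rwa [h, one_mul] at h0
    · have := h0.neg
      rw [h] at this
      convert this using 1
      ring
  · intro z hz hli
    rw [LinearMap.smul_apply, smul_eq_mul]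
    exact mul_ne_zero (inv_ne_zero hα) (hF2 z hz hli)

/-- completion by vectors zeta, the last of which gives a line -/
theorem lfinish_line_blk {qA r : ℕ} (hq : qA + Fintype.card β = q) (hs : qA + r + 1 = s)
    {κ : Type} [Fintype κ] [DecidableEq κ] {m E : ℕ}
    (hm : Fintype.card κ + (m + 1) = r)
    (L : LogData X p g) {l₀ : Fin s} (hl₀ : p l₀ ≠ 0)
    (Z : κ → Fin s ⊕ β → M) (hgZ : ∀ i j, lgr X p g j ⬝ᵥ Z i = 0)
    {α : M} (hα : α ≠ 0) {W : ℕ} (hZ : LBlk X p g Z α W)
    (hli : LinearIndependent M (fun o : Option κ => o.elim (lp d p g) Z))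
    (hspan : lTT X p g ≤ Submodule.span M (insert (lp d p g) (Set.range Z) ∪ lSzeta X p g))
    (hd : ∑ j, d j = E + (qA + 3 + W + 2 * m)) :
    BLine X p g (2 * (s + Fintype.card β)) := by
  obtain ⟨Z', hZ'S, hli'⟩ := lexists_ext L (r := r) (m := m + 1) (by omega) hm hl₀ Z hgZ hli
    (lSzeta X p g) (fun z hz => lgr_zeta L hz) hspan
  have hfam : LBlk X p g (fun i : Fin m => Z' i.castSucc) 1 (∑ _i : Fin m, 2) :=
    LBlk.fam fun i => (wtl_zeta L (hZ'S i.castSucc)).mono_c 1
  obtain ⟨F, hF, hF0⟩ := lexists_rowFun_blk (X := X) (p := p) (ρ := κ ⊕ Fin m) hq hs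
    (by rw [Fintype.card_sum, Fintype.card_fin]; omega) L hl₀
    (Sum.elim Z fun i => Z' i.castSucc)
    (by
      rintro (i | i)
      · exact hgZ i
      · exact lgr_zeta L (hZ'S _))
    (mul_ne_zero hα one_ne_zero) (hZ.sum hfam)
  refine hF.line L hl₀ (E := E) ?_ (hZ'S (Fin.last m)) (hF0 _
    (lgr_zeta L (hZ'S _)) ?_)
  · rw [sum_fam_two]; omega
  · let f : Option ((κ ⊕ Fin m) ⊕ Unit) → Option (κ ⊕ Fin (m + 1)) := fun o =>
      o.elim none (fun x => some (Sum.elim (Sum.elim Sum.inl (fun i => Sum.inr i.castSucc))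
        (fun _ => Sum.inr (Fin.last m)) x))
    have hf : Function.Injective f := by
      rintro (_ | ((i | i) | i)) (_ | ((j | j) | j)) h
      · rfl
      · simp [f] at h
      · simp [f] at h
      · simp [f] at h
      · simp [f] at h
      · simp [f] at h; rw [h]
      · simp [f] at h
      · simp [f] at h
      · simp [f] at h
      · simp [f] at h
      · simp [f] at h; rw [h]
      · simp [f] at h
      · simp [f] at h
      · simp [f] at h
      · simp [f] at h
        exact absurd h.symm (Fin.castSucc_lt_last j).ne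
      · rfl
    have h1 := hli'.comp f hf
    convert h1 using 1
    funext o
    rcases o with (_ | ((i | i) | i))
    · rfl
    · rfl
    · rfl
    · rfl

/-- completion when enough weight has been saved -/
theorem lfinish_direct_blk {qA r : ℕ} (hq : qA + Fintype.card β = q) (hs : qA + r + 1 = s)
    {κ : Type} [Fintype κ] [DecidableEq κ] {m E : ℕ} (hm : Fintype.card κ + m + 1 = r)
    (L : LogData X p g) {l₀ : Fin s} (hl₀ : p l₀ ≠ 0)
    (Z : κ → Fin s ⊕ β → M) (hgZ : ∀ i j, lgr X p g j ⬝ᵥ Z i = 0)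
    {α : M} (hα : α ≠ 0) {W : ℕ} (hZ : LBlk X p g Z α W)
    {z₀ : Fin s ⊕ β → M} (hgz₀ : ∀ j, lgr X p g j ⬝ᵥ z₀ = 0) {w₀ : ℕ}
    (hz₀ : WTl X p g 2 w₀ z₀)
    (hli : LinearIndependent M
      (fun o : Option (κ ⊕ Unit) => o.elim (lp d p g) (Sum.elim Z fun _ => z₀)))
    (hd : ∑ j, d j = E + (qA + 1 + W + 2 * m + w₀)) :
    ∃ J : M, J ≠ 0 ∧ LBl X p g (2 * (s + Fintype.card β)) E J := by
  obtain ⟨Z', hZ'S, hli'⟩ := lexists_ext L (κ := κ ⊕ Unit) (r := r) (m := m) (by omega)
    (by rw [Fintype.card_sum, Fintype.card_unit]; omega) hl₀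
    (Sum.elim Z fun _ => z₀) (by
      rintro (i | i)
      · exact hgZ i
      · exact hgz₀) hli (lSall X p g l₀)
    (fun z hz => lgr_Sall L hz)
    ((lTT_le_Sall L hl₀).trans (Submodule.span_mono Set.subset_union_right))
  have hfam : LBlk X p g Z' 1 (∑ _i : Fin m, 2) := LBlk.fam fun i => wtl_Sall L (hZ'S i)
  obtain ⟨F, hF, hF0⟩ := lexists_rowFun_blk (X := X) (p := p) (ρ := κ ⊕ Fin m) hq hs
    (by rw [Fintype.card_sum, Fintype.card_fin]; omega) L hl₀
    (Sum.elim Z Z')
    (by
      rintro (i | i)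
      · exact hgZ i
      · exact lgr_Sall L (hZ'S _))
    (mul_ne_zero hα one_ne_zero) (hZ.sum hfam)
  refine ⟨F z₀, hF0 _ hgz₀ ?_, hF.direct hgz₀ hz₀ ?_⟩
  · let f : Option ((κ ⊕ Fin m) ⊕ Unit) → Option ((κ ⊕ Unit) ⊕ Fin m) := fun o =>
      o.elim none (fun x => some (Sum.elim (Sum.elim (fun i => Sum.inl (Sum.inl i)) Sum.inr)
        (fun _ => Sum.inl (Sum.inr ())) x))
    have hf : Function.Injective f := by
      rintro (_ | ((i | i) | i)) (_ | ((j | j) | j)) h
      · rfl
      · simp [f] at h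
      · simp [f] at h
      · simp [f] at h
      · simp [f] at h
      · simp [f] at h; rw [h]
      · simp [f] at h
      · simp [f] at h
      · simp [f] at h
      · simp [f] at h
      · simp [f] at h; rw [h]
      · simp [f] at h
      · simp [f] at h
      · simp [f] at h
      · simp [f] at h
      · rfl
    have h1 := hli'.comp f hf
    convert h1 using 1
    funext o
    rcases o with (_ | ((i | i) | i))
    · rfl
    · rfl
    · rfl
    · rfl
  · rw [sum_fam_two]; omega


end RowFun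

section Zeta

variable {s q : ℕ} {d : Fin q → ℕ} {γ : Type w'} {M : Type u} [Field M] {β : Type}

/-- an integral combination of the vectors `ldp (j, m+e_v)` -/
noncomputable def lmdC (X : DData (MIdx s q d) γ M) (p : Fin s → M) (g : β → Fin q) (c : CC s q)
    (v : Fin s) : Fin s ⊕ β → M :=
  ∑ j, ∑ m ∈ expo (Fin s) (d j - 1), (c j m : M) • ldp X p g j (m + Finsupp.single v 1)

/-- the integral combination of the vectors zeta -/
noncomputable def lmzetaC (X : DData (MIdx s q d) γ M) (p : Fin s → M) (g : β → Fin q)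
    (c : CC s q) (u v : Fin s) : Fin s ⊕ β → M :=
  p u • lmdC X p g c v - p v • lmdC X p g c u

variable {X : DData (MIdx s q d) γ M} {p : Fin s → M} {g : β → Fin q}

theorem lmzetaC_eq (c : CC s q) (u v : Fin s) :
    lmzetaC X p g c u v = ∑ j, ∑ m ∈ expo (Fin s) (d j - 1), (c j m : M) •
      lzeta X p g j m u v := by
  simp only [lmzetaC, lmdC, Finset.smul_sum, lzeta, smul_sub]
  rw [← Finset.sum_sub_distrib]
  refine Finset.sum_congr rfl fun j _ => ?_
  rw [← Finset.sum_sub_distrib]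
  exact Finset.sum_congr rfl fun m _ => by
    rw [smul_comm (p u), smul_comm (p v)]

theorem lmzetaC_mem_span (hd1 : ∀ j, 1 ≤ d j) (c : CC s q) (u v : Fin s) :
    lmzetaC X p g c u v ∈ Submodule.span M (lSzeta X p g) := by
  rw [lmzetaC_eq]
  refine Submodule.sum_mem _ fun j _ => Submodule.sum_mem _ fun m hm =>
    Submodule.smul_mem _ _ (Submodule.subset_span ?_)
  refine ⟨j, m, u, v, ?_, rfl⟩
  have := hd1 j
  rw [mem_expo.mp hm]; omega

theorem lgr_zetaC [Fintype β] (hd1 : ∀ j, 1 ≤ d j) (L : LogData X p g) (c : CC s q)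
    (u v : Fin s) (i : Fin q) : lgr X p g i ⬝ᵥ lmzetaC X p g c u v = 0 := by
  have h := lmzetaC_mem_span (X := X) (p := p) (g := g) hd1 c u v
  generalize lmzetaC X p g c u v = y at h
  induction h using Submodule.span_induction with
  | mem z hz => exact lgr_zeta L hz i
  | zero => rw [dotProduct_zero]
  | add y z _ _ hy hz => rw [dotProduct_add, hy, hz, add_zero]
  | smul t z _ hz => rw [dotProduct_smul, hz, smul_zero]

theorem wtl_mdC (L : LogData X p g) (c : CC s q) (v : Fin s) :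
    WTl X p g 1 1 (lmdC X p g c v) := by
  unfold lmdC
  refine WTl.sum _ fun j _ => WTl.sum _ fun m _ => ?_
  have h := (WSl.of_WS (g := g) (WS.intCast (X := X) (p := p) (c j m))).smul
    (wtl_mD L j (m + Finsupp.single v 1))
  simpa using h

/-- a block of `k + 1` vectors zeta with the same exponent has weight `k + 2` -/
theorem lBlk_zeta (L : LogData X p g) {k : ℕ} (c : CC s q) {u : Fin s} (hu : p u ≠ 0) (b : Fin (k + 1) → Fin s) :
    LBlk X p g (fun i => lmzetaC X p g c u (b i)) (p u ^ k) (k + 2) := by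
  refine ⟨k + 2, Fin.cons (p u) (fun i => - p (b i)),
    Fin.cons (fun i => lmdC X p g c (b i))
      (fun i => Function.update (fun i => lmdC X p g c (b i)) i (lmdC X p g c u)),
    fun _ => 1, fun _ _ => 1, ?_, ?_, ?_, ?_⟩
  · intro j
    refine Fin.cases ?_ (fun i => ?_) j
    · exact WSl.of_WS (WS.coord u)
    · exact (WSl.of_WS (WS.coord (b i))).neg
  · intro j i
    refine Fin.cases ?_ (fun j => ?_) j
    · exact (wtl_mdC L c (b i)).mono_c 1
    · show WTl X p g 2 1 (Function.update (fun i => lmdC X p g c (b i)) j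
        (lmdC X p g c u) i)
      by_cases hij : i = j
      · subst hij
        rw [Function.update_self]
        exact (wtl_mdC L c u).mono_c 1
      · rw [Function.update_of_ne hij]
        exact (wtl_mdC L c (b i)).mono_c 1
  · intro j
    simp only [Finset.sum_const, Finset.card_univ, Fintype.card_fin, smul_eq_mul, mul_one]
    ring
  · intro μ _ _ e' Y
    let x : Fin (k + 1) ⊕ μ → Fin s ⊕ β → M := Sum.elim (fun i => lmdC X p g c (b i)) Y
    let K : Finset (Fin (k + 1) ⊕ μ) := Finset.univ.image Sum.inl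
    let bb : Fin (k + 1) ⊕ μ → M := Sum.elim (fun i => p (b i)) (fun _ => 0)
    have h := rowdet_block e' x K (p u) bb (lmdC X p g c u)
    have hK : K.card = k + 1 := by
      rw [Finset.card_image_of_injective _ Sum.inl_injective]
      simp
    have h1 : (fun i => if i ∈ K then p u • x i - bb i • lmdC X p g c u else x i) =
        Sum.elim (fun i => lmzetaC X p g c u (b i)) Y := by
      funext i
      rcases i with i | i
      · have : (Sum.inl i : Fin (k + 1) ⊕ μ) ∈ K := Finset.mem_image_of_mem _ (Finset.mem_univ i)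
        rw [if_pos this]
        rfl
      · have : (Sum.inr i : Fin (k + 1) ⊕ μ) ∉ K := by
          intro hc
          obtain ⟨j, _, hj⟩ := Finset.mem_image.mp hc
          cases hj
        rw [if_neg this]
        rfl
    rw [h1, hK] at h
    have h2 : rowdet e' (Sum.elim (fun i => lmzetaC X p g c u (b i)) Y) =
        p u ^ k * (p u * rowdet e' x -
          ∑ i ∈ K, bb i * rowdet e' (Function.update x i (lmdC X p g c u))) := by
      apply mul_left_cancel₀ hu
      rw [h, pow_succ]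
      ring
    rw [h2]
    congr 1
    rw [Fin.sum_univ_succ]
    simp only [Fin.cons_zero, Fin.cons_succ]
    rw [sub_eq_add_neg, ← Finset.sum_neg_distrib]
    congr 1
    rw [Finset.sum_image (fun i _ j _ h => Sum.inl_injective h)]
    refine Finset.sum_congr rfl fun i _ => ?_
    have h3 : Function.update x (Sum.inl i) (lmdC X p g c u) =
        Sum.elim (Function.update (fun i => lmdC X p g c (b i)) i (lmdC X p g c u)) Y := by
      funext j
      rcases j with j | j
      · by_cases hij : j = i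
        · subst hij; simp
        · have : (Sum.inl j : Fin (k + 1) ⊕ μ) ≠ Sum.inl i := fun hc => hij (Sum.inl_injective hc)
          rw [Function.update_of_ne this]
          simp [Function.update_of_ne hij, x]
      · simp [x]
    rw [h3]
    simp only [bb, Sum.elim_inl]
    ring

/-- a family of vectors zeta: its weight is the number of vectors plus the number of different
exponents -/
theorem lblk_family [DecidableEq (CC s q)] (L : LogData X p g) {l : Fin s} (hl : p l ≠ 0) (n : ℕ) :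
    ∀ (κ : Type) [Fintype κ] [DecidableEq κ] (y : κ → CC s q × Fin s), Fintype.card κ = n →
      ∃ α : M, α ≠ 0 ∧ LBlk X p g (fun i => lmzetaC X p g (y i).1 l (y i).2) α
        (Fintype.card κ + (Finset.univ.image (fun i => (y i).1)).card) := by
  classical
  induction n using Nat.strong_induction_on with
  | _ n ih =>
    intro κ _ _ y hn
    by_cases hκ : IsEmpty κ
    · refine ⟨1, one_ne_zero, ?_⟩
      have := LBlk.fam (X := X) (p := p) (g := g) (κ := κ)
        (Z := fun i => lmzetaC X p g (y i).1 l (y i).2) (wz := fun _ => 0) (fun i =>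
          hκ.elim i)
      simpa using this
    · rw [not_isEmpty_iff] at hκ
      obtain ⟨i₀⟩ := hκ
      set c₀ := (y i₀).1 with hc₀
      have hcard1 : 0 < Fintype.card {i : κ // (y i).1 = c₀} :=
        Fintype.card_pos_iff.mpr ⟨⟨i₀, rfl⟩⟩
      obtain ⟨k, hk⟩ : ∃ k, Fintype.card {i : κ // (y i).1 = c₀} = k + 1 :=
        ⟨Fintype.card {i : κ // (y i).1 = c₀} - 1, by omega⟩
      let gg : {i : κ // (y i).1 = c₀} ≃ Fin (k + 1) := Fintype.equivFinOfCardEq hk
      have b0 := lblk_reindex gg (lBlk_zeta L (k := k) c₀ hl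
        (fun i => (y (gg.symm i).1).2))
      have hb0 : (fun i => lmzetaC X p g c₀ l ((y (gg.symm i).1).2)) ∘ gg =
          fun i : {i : κ // (y i).1 = c₀} => lmzetaC X p g (y i.1).1 l (y i.1).2 := by
        funext i
        simp only [Function.comp_apply, Equiv.symm_apply_apply]
        rw [i.2]
      rw [hb0] at b0
      have hsum : Fintype.card {i : κ // (y i).1 = c₀} +
          Fintype.card {i : κ // ¬ (y i).1 = c₀} = Fintype.card κ := by
        rw [← Fintype.card_sum]
        exact Fintype.card_congr (Equiv.sumCompl _)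
      obtain ⟨α, hα, b1⟩ := ih (Fintype.card {i : κ // ¬ (y i).1 = c₀}) (by omega)
        {i : κ // ¬ (y i).1 = c₀} (fun i => y i.1) rfl
      refine ⟨p l ^ k * α, mul_ne_zero (pow_ne_zero _ hl) hα, ?_⟩
      have b2 := lblk_reindex (Equiv.sumCompl (fun i : κ => (y i).1 = c₀)).symm (b0.sum b1)
      have hfam : (Sum.elim (fun i : {i : κ // (y i).1 = c₀} =>
          lmzetaC X p g (y i.1).1 l (y i.1).2)
          (fun i : {i : κ // ¬ (y i).1 = c₀} => lmzetaC X p g (y i.1).1 l (y i.1).2)) ∘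
          (Equiv.sumCompl (fun i : κ => (y i).1 = c₀)).symm =
          fun i => lmzetaC X p g (y i).1 l (y i).2 := by
        funext i
        by_cases h : (y i).1 = c₀
        · have h2 : (Equiv.sumCompl (fun i : κ => (y i).1 = c₀)).symm i = Sum.inl ⟨i, h⟩ :=
            Equiv.sumCompl_symm_apply_of_pos (p := fun i : κ => (y i).1 = c₀) h
          rw [Function.comp_apply, h2]
          rfl
        · have h2 : (Equiv.sumCompl (fun i : κ => (y i).1 = c₀)).symm i = Sum.inr ⟨i, h⟩ :=
            Equiv.sumCompl_symm_apply_of_neg (p := fun i : κ => (y i).1 = c₀) h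
          rw [Function.comp_apply, h2]
          rfl
      rw [hfam] at b2
      have himg : (Finset.univ.image (fun i : κ => (y i).1)).card =
          (Finset.univ.image (fun i : {i : κ // ¬ (y i).1 = c₀} => (y i.1).1)).card + 1 := by
        have h1 : Finset.univ.image (fun i : κ => (y i).1) =
            insert c₀ (Finset.univ.image (fun i : {i : κ // ¬ (y i).1 = c₀} => (y i.1).1)) := by
          ext c
          simp only [Finset.mem_image, Finset.mem_univ, true_and, Finset.mem_insert,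
            Subtype.exists, exists_prop]
          constructor
          · rintro ⟨i, rfl⟩
            by_cases h : (y i).1 = c₀
            · exact Or.inl h
            · exact Or.inr ⟨i, h, rfl⟩
          · rintro (rfl | ⟨i, _, rfl⟩)
            · exact ⟨i₀, rfl⟩
            · exact ⟨i, rfl⟩
        rw [h1, Finset.card_insert_of_notMem]
        intro hcon
        obtain ⟨i, _, hi⟩ := Finset.mem_image.mp hcon
        exact i.2 hi
      have hw : k + 2 + (Fintype.card {i : κ // ¬ (y i).1 = c₀} +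
          (Finset.univ.image (fun i : {i : κ // ¬ (y i).1 = c₀} => (y i.1).1)).card) =
          Fintype.card κ + (Finset.univ.image (fun i : κ => (y i).1)).card := by
        omega
      rw [hw] at b2
      exact b2

theorem lblkR [DecidableEq (CC s q)] (L : LogData X p g) {l : Fin s} (hl : p l ≠ 0)
    (R : Finset (CC s q × Fin s)) :
    ∃ α : M, α ≠ 0 ∧ LBlk X p g (fun y : R => lmzetaC X p g y.1.1 l y.1.2) α
      (R.card + (R.image Prod.fst).card) := by
  classical
  obtain ⟨α, hα, h⟩ := lblk_family L hl _ R (fun y => y.1) rfl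
  refine ⟨α, hα, ?_⟩
  have h1 : Finset.univ.image (fun i : R => i.1.1) = R.image Prod.fst := by
    ext c
    simp
  rw [h1, Fintype.card_coe] at h
  exact h

end Zeta

end Pool.Agent.Lib.MP_44a246_ntL
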