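import Mathlib
import Pool.Agent.Lib.MP_44a246_ntL.LRows
import Pool.Agent.Lib.MP_44a246_ntL.LSum
import Pool.Agent.Lib.MP_44a246_ntL.LPol
import Pool.Agent.Lib.MP_44a246_ntL.LRoot

/-!
From local bounds to heights.
-/

namespace Pool.Agent.Lib.MP_44a246_ntL

open Pool.Agent.Lib.MP_e52354_nt
open Pool.Agent.Lib.MP_e52354_ntG
open Pool.Agent.Lib.MP_44a246_nt
open WithZero

/-- parameters and dual derivations of `L` coming from `K`, with bounds for the poles -/
structure HSetup {κ K L : Type*} [Field κ] [Field K] [Algebra κ K] [Field L] [Algebra K L]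
    {s q : ℕ} {d : Fin q → ℕ} (X : DData (MIdx s q d) Empty L) (aK : MIdx s q d → K)
    (DK : MIdx s q d → Derivation ℤ K K) (B A : Place κ K → ℕ) : Prop where
  ha : ∀ I, X.a I = algebraMap K L (aK I)
  hD : ∀ I y, X.D I (algebraMap K L y) = algebraMap K L (DK I y)
  hB : ∀ I, PoleBound κ (DK I) B
  hA : ∀ I v, v.1 (aK I) ≤ exp (A v : ℤ)

section Place

variable {κ K L : Type*} [Field κ] [IsAlgClosed κ] [CharZero κ] [Field K] [Algebra κ K]
  [Field L] [Algebra κ L] [Algebra K L] [IsScalarTower κ K L] [FiniteDimensional K L]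
  {s q : ℕ} {d : Fin q → ℕ} {X : DData (MIdx s q d) Empty L} {aK : MIdx s q d → K}
  {DK : MIdx s q d → Derivation ℤ K K} {B A : Place κ K → ℕ}

/-- the total bound for the poles -/
noncomputable def totB (B A : Place κ K → ℕ) (S : Set (Place κ K)) (v : Place κ K) : ℕ :=
  B v + A v + (open Classical in if v ∈ S ∪ Function.support A then 1 else 0)

theorem totB_support (hB : (Function.support B).Finite) (hA : (Function.support A).Finite)
    {S : Set (Place κ K)} (hS : S.Finite) : (Function.support (totB B A S)).Finite := by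
  classical
  refine ((hB.union hA).union hS).subset fun v hv => ?_
  by_contra hcon
  simp only [Set.mem_union, not_or, Function.mem_support, not_not] at hcon
  obtain ⟨⟨h1, h2⟩, h3⟩ := hcon
  apply hv
  have h4 : v ∉ S ∪ Function.support A := by
    simp only [Set.mem_union, not_or, Function.mem_support, not_not]
    exact ⟨h3, h2⟩
  simp only [totB, h1, h2, if_neg h4, add_zero]

/-- the places at which the point meets one of the forms `g b` -/
def meetT {β : Type} (X : DData (MIdx s q d) Empty L) (g : β → Fin q) (S : Set (Place κ K))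
    (x : Fin s → L) : Set (Place κ L) :=
  {w | below K w ∉ S ∧ ∃ b, w.1 (zv X x (g b)) < vmax w.1 x ^ d (g b)}

theorem exp_pow_int (a : ℤ) (n : ℕ) : (exp a : ℤᵐ⁰) ^ n = exp ((n : ℤ) * a) := by
  rw [← exp_nsmul, nsmul_eq_mul]

omit [CharZero κ] [IsAlgClosed κ] in
theorem v_mA_le (hX : HSetup X aK DK B A) (w : Place κ L) (j : Fin q) (I : Fin s →₀ ℕ) :
    w.1 (mA X j I) ≤ exp (((ramIdx K w.1 * A (below K w) : ℕ)) : ℤ) := by
  unfold mA
  split_ifs with h
  · rw [hX.ha, below_pow (K := K)]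
    refine (pow_le_pow_left' (hX.hA _ (below K w)) _).trans ?_
    rw [exp_pow_int]
    push_cast
    exact le_rfl
  · rw [map_zero]; exact zero_le

omit [CharZero κ] [IsAlgClosed κ] in
theorem v_zv_le (hX : HSetup X aK DK B A) (w : Place κ L) (x : Fin s → L) (j : Fin q) :
    w.1 (zv X x j) ≤ exp (((ramIdx K w.1 * A (below K w) : ℕ)) : ℤ) * vmax w.1 x ^ d j := by
  classical
  unfold zv Fval
  refine Valuation.map_sum_le _ fun I hI => ?_
  rw [map_mul]
  refine mul_le_mul' (v_mA_le hX w j I) ?_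
  rw [mem_expo, Finsupp.degree_eq_sum] at hI
  unfold mon
  rw [map_prod]
  calc ∏ k, w.1 (x k ^ I k) ≤ ∏ k, vmax w.1 x ^ I k := by
        refine Finset.prod_le_prod' fun k _ => ?_
        rw [map_pow]
        exact pow_le_pow_left' (le_vmax _ _ _) _
    _ = vmax w.1 x ^ d j := by rw [Finset.prod_pow_eq_pow_sum, hI]

theorem exists_adml (h : IsFF κ L) (hX : HSetup X aK DK B A) {x : Fin s → L} (hx : x ≠ 0)
    {β : Type} (g : β → Fin q) (hz : ∀ b, zv X x (g b) ≠ 0) (S : Set (Place κ K))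
    (w : Place κ L) :
    ∃ (N : ℕ) (δ : L) (l : Fin s), Adml X x g w.1.integer δ l ∧ w.1 δ = exp (-(N : ℤ)) ∧
      vmax w.1 x = w.1 (x l) ∧ (N : ℤ) ≤ ((ramIdx K w.1 * totB B A S (below K w) +
        (ramIdx K w.1 - 1) : ℕ) : ℤ) +
        (open Classical in if w ∈ meetT X g S x then (1 : ℤ) else 0) := by
  classical
  obtain ⟨l, hl, hmax, hle⟩ := exists_vmax w.1 hx
  obtain ⟨π, hπ0, hπ⟩ := exists_pi w
  set e := ramIdx K w.1 with he
  have he1 : 1 ≤ e := one_le_ramIdx w.1 w.2.1
  set v := below K w with hv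
  have hvl : w.1 (x l) ≠ 0 := (w.1.ne_zero_iff).mpr hl
  have hU0 : ∀ b, zv X x (g b) / x l ^ d (g b) ≠ 0 := fun b =>
    div_ne_zero (hz b) (pow_ne_zero _ hl)
  have hUv : ∀ b, w.1 (zv X x (g b) / x l ^ d (g b)) = 1 ↔
      w.1 (zv X x (g b)) = vmax w.1 x ^ d (g b) := by
    intro b
    rw [map_div₀, map_pow, hmax, div_eq_one_iff_eq (pow_ne_zero _ hvl)]
  set ε : ℕ := if ∀ b, w.1 (zv X x (g b) / x l ^ d (g b)) = 1 then 0 else 1 with hε
  have hD : ∀ I, ∀ y, w.1 y ≤ 1 → w.1 (X.D I y) ≤ exp (((e * B v + (e - 1) : ℕ)) : ℤ) :=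
    fun I y hy => polar_over h (hX.hD I) (hX.hB I) w hy
  let N : ℕ := (e * B v + (e - 1)) + e * A v + ε
  have hvπ : ∀ k : ℕ, w.1 (π ^ k) = exp (-(k : ℤ)) := by
    intro k
    rw [map_pow, hπ, exp_pow_int]
    congr 1
    ring
  refine ⟨N, π ^ N, l, ?_, hvπ N, hmax, ?_⟩
  · have hmul : ∀ (y : L) (k : ℕ), w.1 y ≤ exp (k : ℤ) → k ≤ N → π ^ N * y ∈ w.1.integer := by
      intro y k hy hk
      show w.1 (π ^ N * y) ≤ 1
      rw [map_mul, hvπ]
      calc exp (-(N : ℤ)) * w.1 y ≤ exp (-(N : ℤ)) * exp (k : ℤ) := mul_le_mul' le_rfl hy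
        _ = exp (-(N : ℤ) + k) := (exp_add _ _).symm
        _ ≤ 1 := by
          rw [← exp_zero, exp_le_exp]
          have : (k : ℤ) ≤ N := by exact_mod_cast hk
          linarith
    have hA : Adm X x w.1.integer (π ^ N) l := by
      refine ⟨fun y => ?_, ?_, fun I y hy => ?_, fun I => ?_, fun g => g.elim, hl, fun i => ?_⟩
      · by_cases hy : w.1 y ≤ 1
        · exact Or.inl hy
        · right
          show w.1 y⁻¹ ≤ 1
          rw [map_inv₀]
          exact inv_le_one_of_one_le₀ (le_of_lt (not_le.mp hy))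
      · have := hmul 1 0 (by rw [map_one, Nat.cast_zero, exp_zero]) (Nat.zero_le _)
        rwa [mul_one] at this
      · exact hmul _ _ (hD I y hy) (by omega)
      · refine hmul _ (e * A v) ?_ (by omega)
        rw [hX.ha, below_pow (K := K)]
        refine (pow_le_pow_left' (hX.hA _ (below K w)) _).trans ?_
        rw [exp_pow_int]
        push_cast
        exact le_rfl
      · show w.1 (x i / x l) ≤ 1
        rw [map_div₀]
        exact div_le_one_of_le₀ (hle i) zero_le
    refine { toAdm := hA, hlog := fun b I => ?_ }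
    obtain ⟨h1, h2⟩ := log_der_bound w (X.D I) (hD I) (hU0 b)
    by_cases hall : ∀ b, w.1 (zv X x (g b) / x l ^ d (g b)) = 1
    · exact hmul _ _ (h2 (hall b)) (by omega)
    · have hε1 : ε = 1 := by rw [hε, if_neg hall]
      refine hmul _ ((e * B v + (e - 1)) + 1) ?_ (by omega)
      refine h1.trans (le_of_eq ?_)
      push_cast
      rfl
  · have h1 : (ε : ℤ) ≤ (e : ℤ) * (if v ∈ S ∪ Function.support A then 1 else 0) +
        (if w ∈ meetT X g S x then (1 : ℤ) else 0) := by
      by_cases hall : ∀ b, w.1 (zv X x (g b) / x l ^ d (g b)) = 1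
      · rw [hε, if_pos hall]
        have : (0 : ℤ) ≤ e := Int.natCast_nonneg _
        split_ifs <;> simp
        omega
      · rw [hε, if_neg hall]
        by_cases hS : v ∈ S ∪ Function.support A
        · rw [if_pos hS]
          have : (1 : ℤ) ≤ e := by exact_mod_cast he1
          split_ifs <;> (push_cast; linarith)
        · rw [if_neg hS]
          have hA0 : A v = 0 := by
            by_contra hcon
            exact hS (Or.inr hcon)
          push Not at hall
          obtain ⟨b, hb⟩ := hall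
          have h2 := v_zv_le hX w x (g b)
          rw [← hv, hA0, mul_zero, Nat.cast_zero, exp_zero, one_mul] at h2
          rw [if_pos]
          · simp
          · refine ⟨fun hc => hS (Or.inl hc), b, lt_of_le_of_ne h2 fun hc => hb ?_⟩
            exact (hUv b).mpr hc
    have h2 : (N : ℤ) = ((e * B v + (e - 1) : ℕ) : ℤ) + ((e * A v : ℕ) : ℤ) + (ε : ℤ) := by
      simp only [N]
      push_cast
      ring
    rw [h2]
    have h3 : (((e * totB B A S v + (e - 1) : ℕ)) : ℤ) = ((e * B v + (e - 1) : ℕ) : ℤ) +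
        ((e * A v : ℕ) : ℤ) + (e : ℤ) * (if v ∈ S ∪ Function.support A then 1 else 0) := by
      unfold totB
      push_cast
      split_ifs <;> ring
    rw [h3]
    linarith

theorem meetT_finite (h : IsFF κ L) {x : Fin s → L} (hx : x ≠ 0) {β : Type} [Finite β]
    (g : β → Fin q) (hz : ∀ b, zv X x (g b) ≠ 0) (S : Set (Place κ K)) :
    (meetT (κ := κ) X g S x).Finite := by
  have h1 : (meetT (κ := κ) X g S x) ⊆ {w : Place κ L | vmax w.1 x ≠ 1} ∪
      ⋃ b, {w : Place κ L | w.1 (zv X x (g b)) ≠ 1} := by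
    rintro w ⟨-, b, hb⟩
    by_contra hcon
    simp only [Set.mem_union, Set.mem_setOf_eq, Set.mem_iUnion, not_or, not_not, not_exists] at hcon
    rw [hcon.1, hcon.2 b, one_pow] at hb
    exact lt_irrefl _ hb
  exact ((h.vmax_finite hx).union (Set.finite_iUnion fun b => h.place_finite (hz b))).subset h1

/-- heights from local bounds: vectors -/
theorem height_of_lbl (h : IsFF κ L) (hX : HSetup X aK DK B A)
    (hB : (Function.support B).Finite) (hA : (Function.support A).Finite)
    {x : Fin s → L} (hx : x ≠ 0) {β : Type} [Finite β] (g : β → Fin q)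
    (hz : ∀ b, zv X x (g b) ≠ 0) {S : Set (Place κ K)} (hS : S.Finite)
    {σ : Type*} [Fintype σ] {y : σ → L} (hy : y ≠ 0) {c : ℕ}
    (hloc : ∀ (w : Place κ L) (δ : L) (l : Fin s), Adml X x g w.1.integer δ l →
      vmax w.1 x = w.1 (x l) → ∀ i, δ ^ c * y i ∈ w.1.integer) :
    height κ y ≤ (c : ℤ) * ((∑ᶠ v, (totB B A S v : ℤ)) * Module.finrank K L +
      (ramDeg κ L K : ℤ) + ((meetT (κ := κ) X g S x).ncard : ℤ)) := by
  classical
  refine height_le_of_local h hy c (totB_support hB hA hS) (meetT_finite h hx g hz S) fun w => ?_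
  obtain ⟨N, δ, l, h1, h2, h3, h4⟩ := exists_adml h hX hx g hz S w
  have h5 : vmax w.1 y ≤ exp ((c : ℤ) * N) := by
    refine vmax_le _ fun i => ?_
    have h6 : w.1 (δ ^ c * y i) ≤ 1 := hloc w δ l h1 h3 i
    rw [map_mul, map_pow, h2, exp_pow_int] at h6
    have h7 : exp ((c : ℤ) * N) * (exp ((c : ℤ) * -(N : ℤ)) * w.1 (y i)) ≤
        exp ((c : ℤ) * N) * 1 := mul_le_mul' le_rfl h6
    rw [← mul_assoc, ← exp_add, mul_one] at h7
    have h8 : (c : ℤ) * N + (c : ℤ) * -(N : ℤ) = 0 := by ring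
    rwa [h8, exp_zero, one_mul] at h7
  have h6 : vmax w.1 y ≠ 0 := by rw [Ne, vmax_eq_zero_iff]; exact hy
  have h7 : log (vmax w.1 y) ≤ (c : ℤ) * N := by
    rw [log_le_iff_le_exp h6]
    exact h5
  refine h7.trans (mul_le_mul_of_nonneg_left ?_ (Int.natCast_nonneg _))
  exact h4

/-- heights from local bounds: the point -/
theorem height_of_J (h : IsFF κ L) (hX : HSetup X aK DK B A)
    (hB : (Function.support B).Finite) (hA : (Function.support A).Finite)
    {x : Fin s → L} (hx : x ≠ 0) {β : Type} [Finite β] (g : β → Fin q)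
    (hz : ∀ b, zv X x (g b) ≠ 0) {S : Set (Place κ K)} (hS : S.Finite)
    {J : L} (hJ : J ≠ 0) {c : ℕ} (hL : LBl X x g c 1 J) :
    height κ x ≤ (c : ℤ) * ((∑ᶠ v, (totB B A S v : ℤ)) * Module.finrank K L +
      (ramDeg κ L K : ℤ) + ((meetT (κ := κ) X g S x).ncard : ℤ)) := by
  rw [← h.height_smul (x := x) hJ]
  refine height_of_lbl h hX hB hA hx g hz hS ?_ fun w δ l h1 h2 i => ?_
  · intro h0
    apply hx
    funext i
    have := congrFun h0 i
    simp only [Pi.zero_apply, mul_eq_zero] at this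
    exact this.resolve_left hJ
  · have h3 := hL w.1.integer δ l h1
    rw [pow_one] at h3
    have h4 : δ ^ c * (J * x i) = (δ ^ c * (J * x l)) * (x i / x l) := by
      have := h1.hl
      field_simp
    rw [h4]
    exact Subring.mul_mem _ h3 (h1.hp i)

/-- heights from local bounds: the line -/
theorem height_of_BLine (h : IsFF κ L) (hX : HSetup X aK DK B A)
    (hB : (Function.support B).Finite) (hA : (Function.support A).Finite)
    {x : Fin s → L} (hx : x ≠ 0) {β : Type} [Finite β] (g : β → Fin q)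
    (hz : ∀ b, zv X x (g b) ≠ 0) {S : Set (Place κ K)} (hS : S.Finite)
    {c : ℕ} (hL : BLine X x g c) :
    ∃ p' : Fin s → L, (∃ i j, plu x p' i j ≠ 0) ∧
      height κ (pluV x p') ≤ (c : ℤ) * ((∑ᶠ v, (totB B A S v : ℤ)) * Module.finrank K L +
      (ramDeg κ L K : ℤ) + ((meetT (κ := κ) X g S x).ncard : ℤ)) := by
  obtain ⟨p', ⟨i, j, hij⟩, hL⟩ := hL
  refine ⟨p', ⟨i, j, hij⟩, ?_⟩
  refine height_of_lbl h hX hB hA hx g hz hS ?_ fun w δ l h1 h2 ij => ?_
  · intro h0
    exact hij (congrFun h0 (i, j))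
  · have h3 := hL ij.1 ij.2 w.1.integer δ l h1
    rw [pow_zero, mul_one] at h3
    exact h3

end Place

end Pool.Agent.Lib.MP_44a246_ntL
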