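import Mathlib
import Pool.Agent.Lib.MP_44a246_ntL.LRows

/-!
The local bounds in dimension zero and for large degrees.
-/

namespace Pool.Agent.Lib.MP_44a246_ntL

open Pool.Agent.Lib.MP_e52354_nt
open Pool.Agent.Lib.MP_e52354_ntG
open Pool.Agent.Lib.MP_e52354_ntC
open Pool.Agent.Lib.MP_e52354_ntI

universe u w w'

section Big

variable {s q : ℕ} {d : Fin q → ℕ} {γ : Type w'} {M : Type u} [Field M]
  {β : Type} [Fintype β] {X : DData (MIdx s q d) γ M} {p : Fin s → M} {g : β → Fin q}
  {l : Fin s} {qA r : ℕ}

/-- the local bound in dimension zero -/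
theorem llocal_zero (hq : qA + Fintype.card β = q) (hs : qA + 1 = s) (L : LogData X p g)
    (hl : p l ≠ 0) {E : ℕ} (hd : ∑ j, d j = E + (qA + 1)) :
    ∃ J : M, J ≠ 0 ∧ LBl X p g (s + Fintype.card β) E J := by
  classical
  let e : Fin q ⊕ Unit ≃ Fin s ⊕ β := Fintype.equivOfCardEq (by
    simp only [Fintype.card_sum, Fintype.card_unit, Fintype.card_fin]
    omega)
  let R : Fin s → Fin q ⊕ Unit → Fin s ⊕ β → M := fun l' =>
    Sum.elim (fun j => ldp X p g j (Finsupp.single l' (d j))) (fun _ => lp d p g)
  let g₀ : Fin s ⊕ β → M := Sum.elim (fun k => if k = l then (p l)⁻¹ else 0) (fun _ => 0)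
  let G : Fin q ⊕ Unit → Fin s ⊕ β → M := Sum.elim (fun i => lgr X p g i) (fun _ => g₀)
  have hg₀ : g₀ ⬝ᵥ lp d p g = 1 := by
    unfold dotProduct
    rw [Fintype.sum_sum_type]
    simp [g₀, lp, hl]
  have key : ∀ l', (Matrix.of fun i j => R l' i (e j)).det *
      (Matrix.of fun i j => G i (e j)).det = (-1) ^ q * p l' ^ (∑ j, d j) := by
    intro l'
    rw [← Matrix.det_transpose (Matrix.of fun i j => G i (e j)), ← Matrix.det_mul]
    have h1 : (Matrix.of fun i j => R l' i (e j)) * (Matrix.of fun i j => G i (e j)).transpose =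
        Matrix.fromBlocks
          (Matrix.of fun j i => lgr X p g i ⬝ᵥ ldp X p g j (Finsupp.single l' (d j)))
          (Matrix.of fun j (_ : Unit) => g₀ ⬝ᵥ ldp X p g j (Finsupp.single l' (d j)))
          0 (1 : Matrix Unit Unit M) := by
      ext i j
      have h2 : ((Matrix.of fun i j => R l' i (e j)) *
          (Matrix.of fun i j => G i (e j)).transpose) i j = G j ⬝ᵥ R l' i := by
        rw [Matrix.mul_apply]
        simp only [Matrix.of_apply, Matrix.transpose_apply]
        rw [Equiv.sum_comp e (fun k => R l' i k * G j k)]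
        unfold dotProduct
        exact Finset.sum_congr rfl fun k _ => mul_comm _ _
      rw [h2]
      rcases i with i | i <;> rcases j with j | j
      · rfl
      · rfl
      · simp only [G, R, Sum.elim_inl, Sum.elim_inr, Matrix.fromBlocks_apply₂₁, Matrix.zero_apply]
        exact lgr_p L j
      · simp only [G, R, Sum.elim_inr, Matrix.fromBlocks_apply₂₂]
        rw [hg₀]
        simp
    rw [h1, Matrix.det_fromBlocks_zero₂₁, Matrix.det_one, mul_one, det_lvv L]
  have hG : (Matrix.of fun i j => G i (e j)).det ≠ 0 := by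
    intro h0
    have h1 := key l
    rw [h0, mul_zero] at h1
    exact mul_ne_zero (pow_ne_zero _ (neg_ne_zero.mpr one_ne_zero)) (pow_ne_zero _ hl) h1.symm
  refine ⟨((Matrix.of fun i j => G i (e j)).det)⁻¹, inv_ne_zero hG, ?_⟩
  refine LBl.of_WSl hd fun l' hl' => ?_
  have h1 : WSl X p g (1 * Fintype.card (Fin q ⊕ Unit)) (qA + 1)
      (Matrix.of fun i j => R l' i (e j)).det := by
    refine WSl.det e (R l') (Sum.inr ()) rfl 1 (fun _ => 1) rfl ?_ ?_
    · rintro (j | j) hj
      · exact wtl_mD L j _
      · exact absurd rfl hj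
    · simp only [Finset.sum_const, Finset.card_univ, Fintype.card_sum, Fintype.card_fin,
        Fintype.card_unit, smul_eq_mul, mul_one]
      omega
  have h2 : 1 * Fintype.card (Fin q ⊕ Unit) = s + Fintype.card β := by
    simp only [Fintype.card_sum, Fintype.card_fin, Fintype.card_unit]
    omega
  rw [h2] at h1
  have h3 : ((Matrix.of fun i j => G i (e j)).det)⁻¹ * p l' ^ (∑ j, d j) =
      (-1) ^ q * (Matrix.of fun i j => R l' i (e j)).det := by
    have h4 := key l'
    have h5 : ((-1 : M) ^ q) * ((-1 : M) ^ q) = 1 := by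
      rw [← mul_pow]; simp
    field_simp
    linear_combination (-((-1 : M) ^ q)) * h4 + (-(p l' ^ (∑ j, d j))) * h5
  rw [h3]
  rcases neg_one_pow_eq_or M q with h | h
  · rw [h, one_mul]; exact h1
  · rw [h, neg_one_mul]; exact h1.neg

/-- the local bound for large degrees -/
theorem llocal_big (hq : qA + Fintype.card β = q) (hs : qA + r + 1 = s) (hr : 1 ≤ r)
    (L : LogData X p g) (hl : p l ≠ 0) {E : ℕ} (hd : ∑ j, d j = E + (2 * r + qA + 1)) :
    (∃ J : M, J ≠ 0 ∧ LBl X p g (2 * (s + Fintype.card β)) 1 J) ∨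
      BLine X p g (2 * (s + Fintype.card β)) := by
  classical
  have hp0 : lp d p g ≠ 0 := by
    intro h
    have h1 := congrFun h (Sum.inl l)
    simp only [lp, Sum.elim_inl, Pi.zero_apply] at h1
    exact hl h1
  obtain ⟨n, Z, hZ, hli, hspan⟩ := exists_fam_single (M := M) hp0 (lS1 X p g)
  rcases Nat.eq_zero_or_pos n with hn | hn
  · subst hn
    right
    refine lfinish_line_blk (κ := Fin 0) (m := r - 1) (E := E) hq hs
      (by rw [Fintype.card_fin]; omega) L hl Z (fun i => i.elim0) one_ne_zero
      (LBlk.fam (wz := fun _ => 1) fun i => i.elim0) hli ?_ ?_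
    · refine (lker_le_span L hl).trans ?_
      rw [Submodule.span_le]
      rintro z (hz | hz)
      · exact Submodule.subset_span (Or.inr hz)
      · exact Submodule.span_mono Set.subset_union_left (hspan z hz)
    · simp only [Finset.univ_eq_empty, Finset.sum_empty]
      omega
  · left
    apply lower_one hl (E := E)
    refine lfinish_direct_blk (κ := Fin 0) (m := r - 1) (E := E + 1) (w₀ := 1) hq hs
      (by rw [Fintype.card_fin]; omega) L hl (fun i => i.elim0) (fun i => i.elim0)
      one_ne_zero (LBlk.fam (wz := fun _ => 1) fun i => i.elim0)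
      (z₀ := Z ⟨0, hn⟩) (fun j => lgr_S1 L (hZ _) j) (wtl_S1 L (hZ _)) ?_ ?_
    · let f : Fin 0 ⊕ Unit → Fin n := Sum.elim (fun i => i.elim0) (fun _ => ⟨0, hn⟩)
      have hf : Function.Injective f := by
        rintro (i | i) (j | j) h
        · exact i.elim0
        · exact i.elim0
        · exact j.elim0
        · rfl
      have h1 := hli.comp (Option.map f) (Option.map_injective hf)
      have h2 : (fun o : Option (Fin 0 ⊕ Unit) => o.elim (lp d p g)
          (Sum.elim (fun i => i.elim0) fun _ => Z ⟨0, hn⟩)) =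
          (fun o : Option (Fin n) => o.elim (lp d p g) Z) ∘ Option.map f := by
        funext o
        rcases o with (_ | (i | i))
        · rfl
        · exact i.elim0
        · rfl
      rw [h2]
      exact h1
    · simp only [Finset.univ_eq_empty, Finset.sum_empty]
      omega

/-- the direct local bound for very large degrees -/
theorem llocal_huge (hq : qA + Fintype.card β = q) (hs : qA + r + 1 = s) (hr : 1 ≤ r)
    (L : LogData X p g) (hl : p l ≠ 0) {E : ℕ} (hd : ∑ j, d j = E + 1 + (2 * r + qA + 1)) :
    ∃ J : M, J ≠ 0 ∧ LBl X p g (2 * (s + Fintype.card β)) 1 J := by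
  classical
  have hp0 : lp d p g ≠ 0 := by
    intro h
    have h1 := congrFun h (Sum.inl l)
    simp only [lp, Sum.elim_inl, Pi.zero_apply] at h1
    exact hl h1
  obtain ⟨n, Z, hZ, hli, hspan⟩ := exists_fam_single (M := M) hp0 (lSall X p g l)
  have hn : 0 < n := by
    have h1 : lTT X p g ≤ Submodule.span M (insert (lp d p g) (Set.range Z)) := by
      refine (lTT_le_Sall L hl).trans ?_
      rw [Submodule.span_le]
      exact fun z hz => hspan z hz
    have h2 := Submodule.finrank_mono h1
    have h3 := finrank_insert hli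
    have h4 := finrank_lTT L hl
    rw [Fintype.card_fin] at h3
    omega
  apply lower_one hl (E := E)
  refine lfinish_direct_blk (κ := Fin 0) (m := r - 1) (E := E + 1) (w₀ := 2) hq hs
    (by rw [Fintype.card_fin]; omega) L hl (fun i => i.elim0) (fun i => i.elim0)
    one_ne_zero (LBlk.fam (wz := fun _ => 1) fun i => i.elim0)
    (z₀ := Z ⟨0, hn⟩) (fun j => lgr_Sall L (hZ _) j) (wtl_Sall L (hZ _)) ?_ ?_
  · let f : Fin 0 ⊕ Unit → Fin n := Sum.elim (fun i => i.elim0) (fun _ => ⟨0, hn⟩)
    have hf : Function.Injective f := by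
      rintro (i | i) (j | j) h
      · exact i.elim0
      · exact i.elim0
      · exact j.elim0
      · rfl
    have h1 := hli.comp (Option.map f) (Option.map_injective hf)
    have h2 : (fun o : Option (Fin 0 ⊕ Unit) => o.elim (lp d p g)
        (Sum.elim (fun i => i.elim0) fun _ => Z ⟨0, hn⟩)) =
        (fun o : Option (Fin n) => o.elim (lp d p g) Z) ∘ Option.map f := by
      funext o
      rcases o with (_ | (i | i))
      · rfl
      · exact i.elim0
      · rfl
    rw [h2]
    exact h1
  · simp only [Finset.univ_eq_empty, Finset.sum_empty]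
    omega

end Big

end Pool.Agent.Lib.MP_44a246_ntL
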