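import Mathlib
import Pool.Agent.Lib.MP_44a246_ntL.LForms
import Pool.Agent.Lib.MP_e52354_ntI.IContact

/-!
Logarithmic version of the contact lemma: if the derivatives of the point factor through a line
modulo a small subspace which contains all vectors xi and eps, then there is a direction in the
line in which the derivatives of all forms vanish along the line.
-/

namespace Pool.Agent.Lib.MP_44a246_ntL

open Pool.Agent.Lib.MP_e52354_nt
open Pool.Agent.Lib.MP_e52354_ntG
open Pool.Agent.Lib.MP_e52354_ntC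
open Pool.Agent.Lib.MP_e52354_ntI
open Polynomial

universe u w w'

set_option linter.unusedSectionVars false

section Coord

variable {s q : ℕ} {d : Fin q → ℕ} {γ : Type w'} {M : Type u} [Field M] {β : Type}

/-- the elements whose (logarithmic) derivatives are the coordinates of `lD` -/
noncomputable def yv (X : DData (MIdx s q d) γ M) (p : Fin s → M) (g : β → Fin q) :
    Fin s ⊕ β → M := Sum.elim p (fun b => zv X p (g b))

/-- the denominators of the coordinates of `lD` -/
noncomputable def zz (X : DData (MIdx s q d) γ M) (p : Fin s → M) (g : β → Fin q) :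
    Fin s ⊕ β → M := Sum.elim (fun _ => 1) (fun b => zv X p (g b))

variable {X : DData (MIdx s q d) γ M} {p : Fin s → M} {g : β → Fin q} {θ : Fin s → M}
  {l b : Fin s}

theorem lD_apply (D : Derivation ℤ M M) (i : Fin s ⊕ β) :
    lD X p g D i = D (yv X p g i) / zz X p g i := by
  rcases i with k | b
  · simp [lD, yv, zz]
  · simp [lD, yv, zz]

theorem lD_Dmc (f : Fin q) (m : Fin s →₀ ℕ) (c : Fin s) :
    lD X p g (Dmc (mD X f) p θ l b m c) = ldp X p g f (m + Finsupp.single c 1) -
      p c • ldp X p g f (m + Finsupp.single l 1) -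
      θ c • (ldp X p g f (m + Finsupp.single b 1) - p b • ldp X p g f (m + Finsupp.single l 1)) := by
  funext i
  simp only [Pi.sub_apply, Pi.smul_apply, smul_eq_mul, lD_apply, Dmc_apply]
  ring

theorem lD_Dmc_zeta (hpl : p l = 1) (f : Fin q) (m : Fin s →₀ ℕ) (c : Fin s) :
    lD X p g (Dmc (mD X f) p θ l b m c) =
      lzeta X p g f m l c - θ c • lzeta X p g f m l b := by
  rw [lD_Dmc]
  funext i
  simp only [lzeta, Pi.sub_apply, Pi.smul_apply, smul_eq_mul, hpl]
  ring

theorem lD_Em {ι : Type*} [Fintype ι] (c : Fin s) (sc : ι → M)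
    (ν : ι → Fin q × (Fin s →₀ ℕ)) :
    lD X p g (Em (mD X) p θ l b c sc ν) =
      ∑ i, sc i • lD X p g (Dmc (mD X (ν i).1) p θ l b (ν i).2 c) := by
  funext k
  rw [Finset.sum_apply, lD_apply, Em_apply, Finset.sum_div]
  refine Finset.sum_congr rfl fun i _ => ?_
  rw [Pi.smul_apply, smul_eq_mul, lD_apply]
  ring

theorem D_div_of_zero (E : Derivation ℤ M M) {y z : M} (hz : E z = 0) :
    E (y / z) = E y / z := by
  rw [div_eq_mul_inv, Derivation.leibniz, Derivation.leibniz_inv, hz]
  simp only [smul_eq_mul, mul_zero, zero_add]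
  rw [div_eq_mul_inv, mul_comm]

theorem E_lD (E D : Derivation ℤ M M) (hE : ∀ b, E (zv X p (g b)) = 0) (i : Fin s ⊕ β) :
    E (lD X p g D i) = E (D (yv X p g i)) / zz X p g i := by
  rw [lD_apply]
  apply D_div_of_zero
  rcases i with k | b
  · simp [zz]
  · exact hE b

/-- the inclusion of the first coordinates -/
def inj0 (M : Type u) [Field M] (s : ℕ) (β : Type) : (Fin s → M) →ₗ[M] (Fin s ⊕ β → M) where
  toFun v := Sum.elim v (fun _ => 0)
  map_add' v w := by
    funext i
    rcases i with k | b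
    · simp
    · simp
  map_smul' c v := by
    funext i
    rcases i with k | b
    · simp
    · simp

@[simp] theorem inj0_inl (v : Fin s → M) (k : Fin s) : inj0 M s β v (Sum.inl k) = v k := rfl

@[simp] theorem inj0_inr (v : Fin s → M) (b : β) : inj0 M s β v (Sum.inr b) = 0 := rfl

end Coord

section EmGen

variable {M : Type u} [Field M] {σ : Type*} {q : ℕ} {D : Fin q → (σ →₀ ℕ) → Derivation ℤ M M}
  {p θ : σ → M} {l b : σ} {ι : Type*} [Fintype ι]

theorem Em_Dmc_gen (hcomm : ∀ i j I J y, D i I (D j J y) = D j J (D i I y)) (c : σ) (s : ι → M)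
    (ν : ι → Fin q × (σ →₀ ℕ)) (hp : ∀ k, Em D p θ l b c s ν (p k) = 0) (g : Fin q)
    (m' : σ →₀ ℕ) (j : σ) (y : M) (hy : Em D p θ l b c s ν y = 0) :
    Em D p θ l b c s ν (Dmc (D g) p θ l b m' j y) =
      - ∑ i, Dmc (D g) p θ l b m' j (s i) * Dmc (D (ν i).1) p θ l b (ν i).2 c y +
      (Dmc (D g) p θ l b m' j (p c) - θ c * Dmc (D g) p θ l b m' j (p b)) *
        ∑ i, s i * D (ν i).1 ((ν i).2 + Finsupp.single l 1) y +
      Dmc (D g) p θ l b m' j (θ c) * ∑ i, s i * (D (ν i).1 ((ν i).2 + Finsupp.single b 1) y -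
        p b * D (ν i).1 ((ν i).2 + Finsupp.single l 1) y) -
      Em D p θ l b c s ν (θ j) *
        (D g (m' + Finsupp.single b 1) y - p b * D g (m' + Finsupp.single l 1) y) := by
  have h1 := Em_comm hcomm c s ν y hy g
  have h5 : ∑ i, Dmc (D g) p θ l b m' j (s i) * Dmc (D (ν i).1) p θ l b (ν i).2 c y =
      ∑ i, D g (m' + Finsupp.single j 1) (s i) * Dmc (D (ν i).1) p θ l b (ν i).2 c y -
      p j * ∑ i, D g (m' + Finsupp.single l 1) (s i) *
        Dmc (D (ν i).1) p θ l b (ν i).2 c y -
      θ j * (∑ i, D g (m' + Finsupp.single b 1) (s i) *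
        Dmc (D (ν i).1) p θ l b (ν i).2 c y -
        p b * ∑ i, D g (m' + Finsupp.single l 1) (s i) *
          Dmc (D (ν i).1) p θ l b (ν i).2 c y) := by
    simp only [Finset.mul_sum, ← Finset.sum_sub_distrib]
    refine Finset.sum_congr rfl fun i _ => ?_
    rw [Dmc_apply (D g) p θ l b m' j]
    ring
  rw [h5]
  set E := Em D p θ l b c s ν with hEdef
  rw [Dmc_apply (D g) p θ l b m' j y]
  simp only [map_sub, Derivation.leibniz, smul_eq_mul]
  rw [hp j, hp b, h1, h1, h1]
  simp only [Dmc_apply (D g) p θ l b m' j]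
  ring

end EmGen

section Psi

variable {s q : ℕ} {d : Fin q → ℕ} {γ : Type w'} {M : Type u} [Field M] [CharZero M]
  {β : Type} [Fintype β] {X : DData (MIdx s q d) γ M} {p θ : Fin s → M} {g : β → Fin q}
  {l b : Fin s} {Q : Type*} [AddCommGroup Q] [Module M Q]

theorem map_lxi (π : (Fin s ⊕ β → M) →ₗ[M] Q) (Ψ : (Fin q → M[X]) →ₗ[M] Q)
    (hΨ : ∀ j, ∀ I : Fin s →₀ ℕ, I.degree = d j →
      Ψ (Pi.single j (lmon p θ I)) = π (ldp X p g j I)) (u v : Fin s) :
    π (lxi X p g u v) = p v • π (inj0 M s β (Pi.single u 1)) +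
      Ψ (fun j => (C (p v) + C (θ v) * Polynomial.X) * gradP (d j) (mA X j) p θ u) := by
  classical
  have h1 : lxi X p g u v = p v • inj0 M s β (Pi.single u 1) +
      ∑ j, ∑ I ∈ expo (Fin s) (d j),
      (mA X j I * (I u : M)) • ldp X p g j (I - Finsupp.single u 1 + Finsupp.single v 1) := by
    rw [lxi]
    congr 1
    funext i
    rcases i with k | b
    · simp only [Sum.elim_inl, Pi.smul_apply, inj0_inl, smul_eq_mul]
      by_cases hik : u = k
      · subst hik; simp
      · rw [if_neg hik, Pi.single_eq_of_ne (Ne.symm hik), mul_zero]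
    · simp
  have h2 : (fun j => (C (p v) + C (θ v) * Polynomial.X) * gradP (d j) (mA X j) p θ u) =
      ∑ j, (Pi.single j ((C (p v) + C (θ v) * Polynomial.X) * gradP (d j) (mA X j) p θ u) :
        Fin q → M[X]) := by
    funext i
    rw [Finset.sum_apply, Finset.sum_eq_single i]
    · rw [Pi.single_eq_same]
    · intro j _ hj
      rw [Pi.single_eq_of_ne (Ne.symm hj)]
    · intro h; exact absurd (Finset.mem_univ i) h
  rw [h1, map_add, map_smul, h2, map_sum, map_sum]
  congr 1
  refine Finset.sum_congr rfl fun j _ => ?_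
  have h3 : (Pi.single j ((C (p v) + C (θ v) * Polynomial.X) * gradP (d j) (mA X j) p θ u) :
      Fin q → M[X]) =
      ∑ I ∈ expo (Fin s) (d j), (mA X j I * (I u : M)) • (Pi.single j (lmon p θ
        (I - Finsupp.single u 1 + Finsupp.single v 1)) : Fin q → M[X]) := by
    rw [← gradP_mul]
    have : ∀ f : M[X], (Pi.single j f : Fin q → M[X]) =
        LinearMap.single M (fun _ : Fin q => M[X]) j f := fun f => rfl
    simp only [this, map_sum, map_smul]
  rw [h3, map_sum, map_sum]
  refine Finset.sum_congr rfl fun I hI => ?_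
  rw [map_smul, map_smul]
  by_cases h : I u = 0
  · simp [h]
  · rw [hΨ j _ (mem_expo.mp (shift_mem hI h v))]

theorem map_leps (π : (Fin s ⊕ β → M) →ₗ[M] Q) (Ψ : (Fin q → M[X]) →ₗ[M] Q)
    (hg : Function.Injective g)
    (hΨ : ∀ j, ∀ I : Fin s →₀ ℕ, I.degree = d j →
      Ψ (Pi.single j (lmon p θ I)) = π (ldp X p g j I))
    (hε : ∀ j, π (leps X p g j) = 0) [DecidableEq β] (b' : β) :
    Ψ (Pi.single (g b') (lineP (d (g b')) (mA X (g b')) p θ)) =
      π (Pi.single (Sum.inr b') 1) := by
  classical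
  have h1 : leps X p g (g b') = (∑ I ∈ expo (Fin s) (d (g b')),
      mA X (g b') I • ldp X p g (g b') I) - (Pi.single (Sum.inr b') 1 : Fin s ⊕ β → M) := by
    rw [leps]
    congr 1
    funext i
    rcases i with k | b₁
    · simp
    · simp only [Sum.elim_inr]
      by_cases hb : b₁ = b'
      · subst hb; simp
      · rw [if_neg (fun h => hb (hg h)), Pi.single_eq_of_ne (fun h => hb (Sum.inr_injective h))]
  have h2 := hε (g b')
  rw [h1, map_sub, map_sum, sub_eq_zero] at h2
  rw [← h2]
  have h3 : (Pi.single (g b') (lineP (d (g b')) (mA X (g b')) p θ) : Fin q → M[X]) =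
      ∑ I ∈ expo (Fin s) (d (g b')), mA X (g b') I •
        (Pi.single (g b') (lmon p θ I) : Fin q → M[X]) := by
    have : ∀ f : M[X], (Pi.single (g b') f : Fin q → M[X]) =
        LinearMap.single M (fun _ : Fin q => M[X]) (g b') f := fun f => rfl
    rw [lineP]
    simp only [this, map_sum, ← smul_eq_C_mul, map_smul]
  rw [h3, map_sum]
  refine Finset.sum_congr rfl fun I hI => ?_
  rw [map_smul, map_smul, hΨ _ _ (mem_expo.mp hI)]

theorem lpsi_grad (hpl : p l = 1) (hθl : θ l = 0) (hθb : θ b = 1)
    (π : (Fin s ⊕ β → M) →ₗ[M] Q) (Ψ : (Fin q → M[X]) →ₗ[M] Q)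
    (hΨ : ∀ j, ∀ I : Fin s →₀ ℕ, I.degree = d j →
      Ψ (Pi.single j (lmon p θ I)) = π (ldp X p g j I))
    (hξ : ∀ u v, π (lxi X p g u v) = 0) (v : Fin s → M) :
    Ψ (mG d (mA X) p θ v) = - π (inj0 M s β v) ∧
      Ψ (fun j => Polynomial.X * mG d (mA X) p θ v j) = 0 := by
  classical
  have h1 : ∀ i, Ψ (fun j => gradP (d j) (mA X j) p θ i) =
      - π (inj0 M s β (Pi.single i 1)) := by
    intro i
    have := map_lxi π Ψ hΨ i l
    rw [hξ, hpl, hθl, one_smul] at this
    simp only [C_1, C_0, zero_mul, add_zero, one_mul] at this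
    rw [eq_neg_iff_add_eq_zero, add_comm]
    exact this.symm
  have h2 : ∀ i, Ψ (fun j => Polynomial.X * gradP (d j) (mA X j) p θ i) = 0 := by
    intro i
    have := map_lxi π Ψ hΨ i b
    rw [hξ, hθb] at this
    have h3 : (fun j => (C (p b) + C 1 * Polynomial.X : M[X]) * gradP (d j) (mA X j) p θ i) =
        p b • (fun j => gradP (d j) (mA X j) p θ i) +
          fun j => Polynomial.X * gradP (d j) (mA X j) p θ i := by
      funext j
      rw [Pi.add_apply, Pi.smul_apply, smul_eq_C_mul, C_1]; ring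
    rw [h3, map_add, map_smul, h1, smul_neg, ← add_assoc, add_neg_cancel, zero_add] at this
    exact this.symm
  constructor
  · have h0 : mG d (mA X) p θ v = ∑ k, v k • fun j => gradP (d j) (mA X j) p θ k := by
      funext j
      rw [mG_apply, Finset.sum_apply]
      rfl
    rw [h0, map_sum]
    simp only [map_smul, h1, smul_neg, Finset.sum_neg_distrib]
    have h3 : v = ∑ i, v i • (Pi.single i 1 : Fin s → M) := by
      funext k
      simp [Finset.sum_apply, Pi.single_apply]
    have h4 : π (inj0 M s β v) = ∑ i, v i • π (inj0 M s β (Pi.single i 1)) := by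
      conv_lhs => rw [h3]
      rw [map_sum, map_sum]
      simp only [map_smul]
    rw [h4]
  · have h0 : (fun j => Polynomial.X * mG d (mA X) p θ v j) =
        ∑ k, v k • fun j => Polynomial.X * gradP (d j) (mA X j) p θ k := by
      funext j
      rw [mG_apply, Finset.sum_apply, Finset.mul_sum]
      refine Finset.sum_congr rfl fun k _ => ?_
      rw [Pi.smul_apply, mul_smul_comm]
    rw [h0, map_sum]
    refine Finset.sum_eq_zero fun i _ => ?_
    rw [map_smul, h2, smul_zero]

/-- a linear form killing the multiples by `X` of the image of `G`, of large rank, forces a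
kernel of `G` -/
theorem lker_of_count {V : Type*} [AddCommGroup V] [Module M V] [FiniteDimensional M V]
    [FiniteDimensional M Q] {N : Fin q → ℕ} (G : V →ₗ[M] (Fin q → M[X]))
    (Ψ : (Fin q → M[X]) →ₗ[M] Q)
    (hG : ∀ v j, G v j ∈ degreeLT M (N j)) (hXG : ∀ v, Ψ (fun j => Polynomial.X * G v j) = 0)
    (hsurj : ∀ y : Q, ∃ F : Fin q → M[X], (∀ j, F j ∈ degreeLT M (N j + 1)) ∧ Ψ F = y)
    (hc : ∑ j, (N j + 1) < Module.finrank M V + Module.finrank M Q) : ∃ v, v ≠ 0 ∧ G v = 0 := by
  have hPdim := finrank_PD (M := M) fun j => N j + 1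
  let Ψ' : PD M (fun j => N j + 1) →ₗ[M] Q := Ψ ∘ₗ inclP M (fun j => N j + 1)
  have hrange : LinearMap.range Ψ' = ⊤ := by
    rw [eq_top_iff]
    rintro y -
    obtain ⟨F, hF, rfl⟩ := hsurj y
    exact ⟨fun j => ⟨F j, hF j⟩, rfl⟩
  have hrn := LinearMap.finrank_range_add_finrank_ker Ψ'
  rw [hrange, finrank_top, hPdim] at hrn
  let μ : V →ₗ[M] LinearMap.ker Ψ' :=
    { toFun := fun v => ⟨fun j => ⟨Polynomial.X * G v j, X_mul_mem (hG v j)⟩, hXG v⟩
      map_add' := fun g h => by
        apply Subtype.ext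
        funext j
        apply Subtype.ext
        show Polynomial.X * G (g + h) j = Polynomial.X * G g j + Polynomial.X * G h j
        rw [map_add, Pi.add_apply, mul_add]
      map_smul' := fun c g => by
        apply Subtype.ext
        funext j
        apply Subtype.ext
        show Polynomial.X * G (c • g) j = c • (Polynomial.X * G g j)
        rw [map_smul, Pi.smul_apply, mul_smul_comm] }
  by_contra hcon
  push Not at hcon
  have hμ : Function.Injective μ := by
    rw [injective_iff_map_eq_zero]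
    intro v hv
    by_contra hv0
    apply hcon v hv0
    funext j
    have h1 : Polynomial.X * G v j = 0 :=
      congrArg (fun y => ((y.1 j : degreeLT M (N j + 1)) : M[X])) hv
    exact (mul_eq_zero.mp h1).resolve_left X_ne_zero
  have h1 := LinearMap.finrank_le_finrank_of_injective hμ
  omega

theorem lineP_mem (d : ℕ) (a : (Fin s →₀ ℕ) → M) (p θ : Fin s → M) :
    lineP d a p θ ∈ degreeLT M (d + 1) := by
  classical
  unfold lineP
  refine Submodule.sum_mem _ fun I hI => ?_
  rw [← smul_eq_C_mul]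
  refine Submodule.smul_mem _ _ ?_
  rw [mem_degreeLT]
  by_cases h0 : lmon p θ I = 0
  · rw [h0, degree_zero]; exact WithBot.bot_lt_coe _
  · rw [degree_eq_natDegree h0]
    have h1 := natDegree_lmon p θ I
    rw [mem_expo.mp hI] at h1
    exact_mod_cast Nat.lt_succ_of_le h1

end Psi

theorem lcontact {s q : ℕ} {d : Fin q → ℕ} {γ : Type w'} {M : Type u} [Field M] [CharZero M]
    {β : Type} [Fintype β] {X : DData (MIdx s q d) γ M} {p θ : Fin s → M} {g : β → Fin q}
    {l b : Fin s} (L : LogData X p g) {qA r S : ℕ} (hq : qA + Fintype.card β = q)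
    (hs : qA + r + 1 = s) (hS : 2 * S ≤ r) (hd1 : ∀ j, 1 ≤ d j)
    (hd : ∑ j, d j + S = 2 * r + qA + 1)
    (hpl : p l = 1) (hθl : θ l = 0) (hθb : θ b = 1)
    (W : Submodule M (Fin s ⊕ β → M)) (hpW : lp d p g ∈ W) (hW : Module.finrank M W ≤ S)
    (hm : ∀ f, ∀ m : Fin s →₀ ℕ, m.degree + 1 = d f → ∀ c,
      lzeta X p g f m l c - θ c • lzeta X p g f m l b ∈ W)
    (hξ : ∀ z ∈ lS1 X p g, z ∈ W) :
    ∃ w : Fin s → M, w ≠ 0 ∧ w = w l • p + (w b - p b * w l) • θ ∧
      ∀ f, ∑ j, w j • gradP (d f) (mA X f) p θ j = 0 := by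
  classical
  have he : ∀ j, (d j - 1) + 1 = d j := fun j => Nat.sub_add_cancel (hd1 j)
  set e : Fin q → ℕ := fun j => d j - 1 with hedef
  have hnd : p l * θ b - p b * θ l ≠ 0 := by
    rw [hpl, hθb, hθl]; simp
  have hcomm : ∀ i j I J y, mD X i I (mD X j J y) = mD X j J (mD X i I y) := by
    intro i j I J y
    simp only [mD]
    split_ifs
    · exact X.hcomm _ _ _
    · simp
    · simp
    · simp
  let π := W.mkQ
  have hπ0 : ∀ v, π v = 0 ↔ v ∈ W := by
    intro v
    rw [Submodule.mkQ_apply, Submodule.Quotient.mk_eq_zero]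
  have hQ : Module.finrank M ((Fin s ⊕ β → M) ⧸ W) + Module.finrank M W =
      s + Fintype.card β := by
    have := Submodule.finrank_quotient_add_finrank W
    rwa [Module.finrank_fintype_fun_eq_card, Fintype.card_sum, Fintype.card_fin] at this
  let A : Fin q → (Fin s →₀ ℕ) → (Fin s ⊕ β → M) := fun f I => ldp X p g f I
  have hDmcW : ∀ f, ∀ m : Fin s →₀ ℕ, m.degree = e f → ∀ c,
      lD X p g (Dmc (mD X f) p θ l b m c) ∈ W := by
    intro f m hme c
    rw [lD_Dmc_zeta hpl]
    exact hm f m (by rw [hme, he]) c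
  obtain ⟨Ψ, hΨ'⟩ := mexists_Psi (e := e) (fun f I => π (A f I)) hpl hθl hθb
    (fun f m => π (A f (m + Finsupp.single b 1)) - p b • π (A f (m + Finsupp.single l 1))) (by
      intro f m hme c
      have h1 := (hπ0 _).mpr (hDmcW f m hme c)
      rw [lD_Dmc, map_sub, map_sub, map_smul, map_smul, map_sub, map_smul, sub_sub,
        sub_eq_zero] at h1
      exact h1)
  have hΨ : ∀ f, ∀ I : Fin s →₀ ℕ, I.degree = d f →
      Ψ (Pi.single f (lmon p θ I)) = π (A f I) := by
    intro f I hI
    exact hΨ' f I (by rw [hI, he])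
  have hG := lpsi_grad hpl hθl hθb π Ψ hΨ (fun i j => (hπ0 _).mpr (hξ _ (Or.inl ⟨i, j, rfl⟩)))
  have hF := map_leps π Ψ L.hg hΨ (fun j => (hπ0 _).mpr (hξ _ (Or.inr ⟨j, rfl⟩)))
  set G := mG d (mA X) p θ with hGdef
  -- every element of the quotient comes from small polynomials
  have hsurj : ∀ y : (Fin s ⊕ β → M) ⧸ W, ∃ F : Fin q → M[X],
      (∀ j, F j ∈ degreeLT M (d j + 1)) ∧ Ψ F = y := by
    intro y
    obtain ⟨v, rfl⟩ := Submodule.mkQ_surjective W y
    refine ⟨G (-(fun k => v (Sum.inl k))) + ∑ b', v (Sum.inr b') •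
      (Pi.single (g b') (lineP (d (g b')) (mA X (g b')) p θ) : Fin q → M[X]), fun j => ?_, ?_⟩
    · rw [Pi.add_apply, Finset.sum_apply]
      refine add_mem (degreeLT_mono (Nat.le_succ _) (mG_mem _ j)) ?_
      refine Submodule.sum_mem _ fun b' _ => ?_
      rw [Pi.smul_apply]
      refine Submodule.smul_mem _ _ ?_
      by_cases hj : j = g b'
      · subst hj
        rw [Pi.single_eq_same]
        exact lineP_mem _ _ _ _
      · rw [Pi.single_eq_of_ne hj]
        exact zero_mem _
    · rw [map_add, (hG _).1, map_sum]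
      simp only [map_smul, hF]
      have h1 : v = inj0 M s β (fun k => v (Sum.inl k)) +
          ∑ b', v (Sum.inr b') • (Pi.single (Sum.inr b') 1 : Fin s ⊕ β → M) := by
        funext i
        rcases i with k | b₁
        · rw [Pi.add_apply, Finset.sum_apply, Finset.sum_eq_zero]
          · simp
          · intro b' _
            simp
        · rw [Pi.add_apply, Finset.sum_apply, Finset.sum_eq_single b₁]
          · simp
          · intro b' _ hb'
            rw [Pi.smul_apply, Pi.single_eq_of_ne (fun h => hb' (Sum.inr_injective h).symm),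
              smul_zero]
          · intro h; exact absurd (Finset.mem_univ _) h
      have h2 : W.mkQ v = π (inj0 M s β (fun k => v (Sum.inl k))) +
          ∑ b', v (Sum.inr b') • π (Pi.single (Sum.inr b') 1 : Fin s ⊕ β → M) := by
        show π v = _
        conv_lhs => rw [h1]
        rw [map_add, map_sum]
        simp only [map_smul]
      rw [h2, map_neg, map_neg, neg_neg]
  -- the kernel
  have hsd : ∑ j, (d j + 1) = ∑ j, d j + q := by
    rw [Finset.sum_add_distrib]; simp
  obtain ⟨w, hw0, hGw⟩ := lker_of_count (N := d) G Ψ (fun v j => mG_mem v j)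
    (fun v => (hG v).2) hsurj (by
      rw [Module.finrank_fin_fun, hsd]; omega)
  have hGdim : Module.finrank M (LinearMap.range G) + 1 ≤ s := by
    have h1 := LinearMap.finrank_range_add_finrank_ker G
    rw [Module.finrank_fin_fun] at h1
    have h2 : 0 < Module.finrank M (LinearMap.ker G) := by
      rw [Module.finrank_pos_iff_exists_ne_zero]
      exact ⟨⟨w, hGw⟩, fun h => hw0 (congrArg Subtype.val h)⟩
    omega
  refine ⟨w, hw0, ?_, fun f => by rw [← mG_apply, ← hGdef, hGw]; rfl⟩
  by_contra hwne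
  -- the part of `W` where the coordinate `l` vanishes
  let Wl : Submodule M (Fin s ⊕ β → M) := W ⊓ LinearMap.ker (LinearMap.proj (Sum.inl l))
  have hWl : ∀ y, y ∈ Wl ↔ y ∈ W ∧ y (Sum.inl l) = 0 := by
    intro y
    rw [Submodule.mem_inf, LinearMap.mem_ker]
    rfl
  have hWlW : Wl ≤ W := inf_le_left
  have hWldim : Module.finrank M Wl + 1 ≤ Module.finrank M W := by
    refine Submodule.finrank_lt_finrank_of_lt (lt_of_le_of_ne hWlW ?_)
    intro h
    have h1 : lp d p g ∈ Wl := by rw [h]; exact hpW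
    have h2 := ((hWl _).mp h1).2
    simp only [lp, Sum.elim_inl] at h2
    rw [hpl] at h2
    exact one_ne_zero h2
  have hDl : ∀ f, ∀ m : Fin s →₀ ℕ, m.degree = e f → ∀ j,
      lD X p g (Dmc (mD X f) p θ l b m j) ∈ Wl := by
    intro f m hme j
    rw [hWl]
    refine ⟨hDmcW f m hme j, ?_⟩
    show Dmc (mD X f) p θ l b m j (p l) = 0
    rw [hpl]
    exact Derivation.map_one_eq_zero _
  set h := Module.finrank M Wl with hh
  let bW : Module.Basis (Fin h) M Wl := Module.finBasis M Wl
  let u : Fin h → Fin s ⊕ β → M := fun i => (bW i : Fin s ⊕ β → M)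
  have huW : ∀ i, u i ∈ W := fun i => hWlW (bW i).2
  have hχ : ∀ x : Fin q × (Fin s →₀ ℕ), ∀ j, x.2.degree = e x.1 → ∃ χ : Fin h → M,
      lD X p g (Dmc (mD X x.1) p θ l b x.2 j) = ∑ i, χ i • u i := by
    rintro ⟨f, m⟩ j hme
    refine ⟨fun i => bW.repr ⟨_, hDl f m hme j⟩ i, ?_⟩
    have h1 := bW.sum_repr ⟨_, hDl f m hme j⟩
    have h2 := congrArg (fun y : Wl => (y : Fin s ⊕ β → M)) h1
    simp only [AddSubmonoidClass.coe_finsetSum, Submodule.coe_smul] at h2
    exact h2.symm
  choose! χ hχ using hχ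
  -- a linear form vanishing on the line but not at `w`
  obtain ⟨c, hc⟩ : ∃ c, w c - p c * w l - θ c * (w b - p b * w l) ≠ 0 := by
    by_contra hcon
    push Not at hcon
    apply hwne
    funext k
    have := hcon k
    simp only [Pi.add_apply, Pi.smul_apply, smul_eq_mul]
    linear_combination this
  set lam := w c - p c * w l - θ c * (w b - p b * w l) with hlam
  -- a basis of the derivatives with index `c`
  let T : Set (Fin s ⊕ β → M) := {z | ∃ x : Fin q × (Fin s →₀ ℕ), x.2.degree = e x.1 ∧
    z = lD X p g (Dmc (mD X x.1) p θ l b x.2 c)}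
  have hTW : Submodule.span M T ≤ Wl := by
    rw [Submodule.span_le]
    rintro _ ⟨x, hme, rfl⟩
    exact hDl x.1 x.2 hme c
  have hTdim : Module.finrank M (Submodule.span M T) ≤ h := Submodule.finrank_mono hTW
  obtain ⟨h', hh'⟩ : ∃ h', Module.finrank M (Submodule.span M T) = h' := ⟨_, rfl⟩
  obtain ⟨Z, hZT, hZli⟩ := exists_extension (M := M) (k := 0) (r := h')
    (Submodule.span M T) (by omega) (fun i => i.elim0) (linearIndependent_empty_type)
    (fun i => i.elim0)
    T (fun z hz => Submodule.subset_span hz) (Submodule.span_mono Set.subset_union_right)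
  have hZli' : LinearIndependent M Z := by
    have := hZli.comp Sum.inr Sum.inr_injective
    exact this
  have hZspan : Submodule.span M (Set.range Z) = Submodule.span M T := by
    apply Submodule.eq_of_le_of_finrank_le
    · exact Submodule.span_mono (by rintro _ ⟨i, rfl⟩; exact hZT i)
    · rw [finrank_span_eq_card hZli', Fintype.card_fin, hh']
  choose μ hμ hZμ using hZT
  have ht : ∀ x : Fin q × (Fin s →₀ ℕ), x.2.degree = e x.1 → ∃ t : Fin h' → M,
      lD X p g (Dmc (mD X x.1) p θ l b x.2 c) =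
        ∑ i, t i • lD X p g (Dmc (mD X (μ i).1) p θ l b (μ i).2 c) := by
    intro x hme
    have h1 : lD X p g (Dmc (mD X x.1) p θ l b x.2 c) ∈ Submodule.span M (Set.range Z) := by
      rw [hZspan]
      exact Submodule.subset_span ⟨x, hme, rfl⟩
    obtain ⟨t, ht⟩ := (Submodule.mem_span_range_iff_exists_fun M).mp h1
    refine ⟨t, ?_⟩
    rw [← ht]
    refine Finset.sum_congr rfl fun i _ => ?_
    rw [hZμ i]
  choose! t ht using ht
  let ν : Fin q × (Fin s →₀ ℕ) → Option (Fin h') → Fin q × (Fin s →₀ ℕ) := fun x o => o.elim x μ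
  let sc : Fin q × (Fin s →₀ ℕ) → Option (Fin h') → M := fun x o => o.elim 1 (fun i => - t x i)
  have hνdeg : ∀ x : Fin q × (Fin s →₀ ℕ), x.2.degree = e x.1 → ∀ o,
      (ν x o).2.degree = e (ν x o).1 := by
    rintro x hme (_ | i)
    · exact hme
    · exact hμ i
  have hElD : ∀ x : Fin q × (Fin s →₀ ℕ), x.2.degree = e x.1 →
      lD X p g (Em (mD X) p θ l b c (sc x) (ν x)) = 0 := by
    intro x hme
    rw [lD_Em, Fintype.sum_option]
    show (1 : M) • lD X p g (Dmc (mD X x.1) p θ l b x.2 c) +
      ∑ i, (- t x i) • lD X p g (Dmc (mD X (μ i).1) p θ l b (μ i).2 c) = 0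
    rw [one_smul, ht x hme, ← Finset.sum_add_distrib]
    exact Finset.sum_eq_zero fun i _ => by rw [neg_smul, add_neg_cancel]
  have hEp : ∀ x : Fin q × (Fin s →₀ ℕ), x.2.degree = e x.1 → ∀ k,
      Em (mD X) p θ l b c (sc x) (ν x) (p k) = 0 := by
    intro x hme k
    exact congrFun (hElD x hme) (Sum.inl k)
  have hEz : ∀ x : Fin q × (Fin s →₀ ℕ), x.2.degree = e x.1 → ∀ b',
      Em (mD X) p θ l b c (sc x) (ν x) (zv X p (g b')) = 0 := by
    intro x hme b'
    have h1 : Em (mD X) p θ l b c (sc x) (ν x) (zv X p (g b')) / zv X p (g b') = 0 :=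
      congrFun (hElD x hme) (Sum.inr b')
    exact (div_eq_zero_iff.mp h1).resolve_right (L.hz b')
  have hEy : ∀ x : Fin q × (Fin s →₀ ℕ), x.2.degree = e x.1 → ∀ i,
      Em (mD X) p θ l b c (sc x) (ν x) (yv X p g i) = 0 := by
    rintro x hme (k | b')
    · exact hEp x hme k
    · exact hEz x hme b'
  -- images of the derivatives in the quotient
  have hΨl : ∀ x : Fin q × (Fin s →₀ ℕ), x.2.degree = e x.1 →
      π (A x.1 (x.2 + Finsupp.single l 1)) = Ψ (Pi.single x.1 (lmon p θ x.2)) := by
    intro x hme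
    have := hΨ x.1 (x.2 + Finsupp.single l 1) (by
      rw [map_add, Finsupp.degree_single, hme, ← he x.1])
    rw [← this, lmon_add, lmon_single, hpl, hθl]
    simp
  have hΨb : ∀ x : Fin q × (Fin s →₀ ℕ), x.2.degree = e x.1 →
      π (A x.1 (x.2 + Finsupp.single b 1) - p b • A x.1 (x.2 + Finsupp.single l 1)) =
        Ψ (Pi.single x.1 (Polynomial.X * lmon p θ x.2)) := by
    intro x hme
    have h1 := hΨ x.1 (x.2 + Finsupp.single b 1) (by
      rw [map_add, Finsupp.degree_single, hme, ← he x.1])
    rw [map_sub, map_smul, hΨl x hme]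
    show π (A x.1 (x.2 + Finsupp.single b 1)) - _ = _
    rw [← h1, lmon_add, lmon_single, hθb, ← map_smul, ← map_sub, ← Pi.single_smul,
      ← Pi.single_sub]
    congr 2
    rw [smul_eq_C_mul, C_1]; ring
  -- the derivation `E` kills the line
  have hE : ∀ x : Fin q × (Fin s →₀ ℕ), x.2.degree = e x.1 → ∀ j,
      Em (mD X) p θ l b c (sc x) (ν x) (θ j) = 0 := by
    intro x hme j
    by_contra hEθ
    have hp := hEp x hme
    have hEd := Em_Dmc_gen (l := l) (b := b) (p := p) (θ := θ) hcomm c (sc x) (ν x) hp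
    have hEyx := hEy x hme
    have hEzx := hEz x hme
    set E := Em (mD X) p θ l b c (sc x) (ν x) with hEdef
    let y₁ := ∑ o, sc x o • Ψ (Pi.single (ν x o).1 (lmon p θ (ν x o).2))
    let y₂ := ∑ o, sc x o • Ψ (Pi.single (ν x o).1 (Polynomial.X * lmon p θ (ν x o).2))
    let lu : Fin h → M := fun i => u i (Sum.inl c) - θ c * u i (Sum.inl b)
    let qv : Fin h → _ := fun i => lu i • y₁ - π (fun k => E (u i k))
    have key : ∀ x' : Fin q × (Fin s →₀ ℕ), x'.2.degree = e x'.1 →
        E (θ j) • Ψ (Pi.single x'.1 (Polynomial.X * lmon p θ x'.2)) =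
          ∑ i, χ x' j i • qv i + Dmc (mD X x'.1) p θ l b x'.2 j (θ c) • y₂ := by
      intro x' hm'
      -- the two expressions of `E (Dmc m' j p)`
      have h1 : (fun k => E (lD X p g (Dmc (mD X x'.1) p θ l b x'.2 j) k)) =
          ∑ i, (E (χ x' j i) • u i + χ x' j i • (fun k => E (u i k))) := by
        funext k
        rw [hχ x' j hm', Finset.sum_apply, map_sum, Finset.sum_apply]
        refine Finset.sum_congr rfl fun i _ => ?_
        rw [Pi.smul_apply, smul_eq_mul, Derivation.leibniz]
        simp only [Pi.add_apply, Pi.smul_apply, smul_eq_mul]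
        ring
      have hlamχ : Dmc (mD X x'.1) p θ l b x'.2 j (p c) -
          θ c * Dmc (mD X x'.1) p θ l b x'.2 j (p b) = ∑ i, χ x' j i * lu i := by
        have h2 := congrFun (hχ x' j hm') (Sum.inl c)
        have h3 := congrFun (hχ x' j hm') (Sum.inl b)
        rw [Finset.sum_apply] at h2 h3
        have h2' : Dmc (mD X x'.1) p θ l b x'.2 j (p c) =
          ∑ i, (χ x' j i • u i) (Sum.inl c) := h2
        have h3' : Dmc (mD X x'.1) p θ l b x'.2 j (p b) =
          ∑ i, (χ x' j i • u i) (Sum.inl b) := h3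
        rw [h2', h3', Finset.mul_sum, ← Finset.sum_sub_distrib]
        exact Finset.sum_congr rfl fun i _ => by
          simp only [lu, Pi.smul_apply, smul_eq_mul]; ring
      have h2 : (fun k => E (lD X p g (Dmc (mD X x'.1) p θ l b x'.2 j) k)) =
          - ∑ o, Dmc (mD X x'.1) p θ l b x'.2 j (sc x o) •
            lD X p g (Dmc (mD X (ν x o).1) p θ l b (ν x o).2 c) +
          (∑ i, χ x' j i * lu i) • ∑ o, sc x o • A (ν x o).1 ((ν x o).2 + Finsupp.single l 1) +
          (Dmc (mD X x'.1) p θ l b x'.2 j (θ c)) • ∑ o, sc x o •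
            (A (ν x o).1 ((ν x o).2 + Finsupp.single b 1) -
              p b • A (ν x o).1 ((ν x o).2 + Finsupp.single l 1)) -
          E (θ j) • (A x'.1 (x'.2 + Finsupp.single b 1) -
            p b • A x'.1 (x'.2 + Finsupp.single l 1)) := by
        funext k
        rw [E_lD E _ hEzx k, hEd x'.1 x'.2 j _ (hEyx k), hlamχ]
        simp only [A, ldp, Pi.sub_apply, Pi.add_apply, Pi.neg_apply, Pi.smul_apply, smul_eq_mul,
          Finset.sum_apply, lD_apply, sub_div, add_div, neg_div, Finset.sum_div, mul_div_assoc]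
      have h3 := congrArg π (h1.symm.trans h2)
      have hu0 : ∀ i, π (u i) = 0 := fun i => (hπ0 _).mpr (huW i)
      have hm0' : ∀ o, π (lD X p g (Dmc (mD X (ν x o).1) p θ l b (ν x o).2 c)) = 0 := fun o =>
        (hπ0 _).mpr (hDmcW _ _ (hνdeg x hme o) c)
      simp only [map_add, map_sub, map_neg, map_sum, map_smul, hu0, hm0', smul_zero, zero_add,
        Finset.sum_const_zero, neg_zero] at h3
      have e1 : ∀ o, π (A (ν x o).1 ((ν x o).2 + Finsupp.single l 1)) =
          Ψ (Pi.single (ν x o).1 (lmon p θ (ν x o).2)) := fun o => hΨl _ (hνdeg x hme o)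
      have e2 : ∀ o, π (A (ν x o).1 ((ν x o).2 + Finsupp.single b 1)) -
          p b • Ψ (Pi.single (ν x o).1 (lmon p θ (ν x o).2)) =
          Ψ (Pi.single (ν x o).1 (Polynomial.X * lmon p θ (ν x o).2)) := by
        intro o
        rw [← hΨb _ (hνdeg x hme o), map_sub, map_smul, hΨl _ (hνdeg x hme o)]
      have e3 : π (A x'.1 (x'.2 + Finsupp.single b 1)) -
          p b • Ψ (Pi.single x'.1 (lmon p θ x'.2)) =
          Ψ (Pi.single x'.1 (Polynomial.X * lmon p θ x'.2)) := by
        rw [← hΨb _ hm', map_sub, map_smul, hΨl _ hm']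
      simp only [e1, e2, hΨl x' hm', e3] at h3
      have h4 : ∑ i, χ x' j i • qv i = (∑ i, χ x' j i * lu i) • y₁ -
          ∑ i, χ x' j i • π (fun k => E (u i k)) := by
        simp only [qv, smul_sub, Finset.sum_sub_distrib, smul_smul, Finset.sum_smul]
      rw [h4, h3]
      simp only [y₁, y₂]
      abel
    -- all of `Q` is in the span of few vectors
    let V : Set ((Fin s ⊕ β → M) ⧸ W) := (Set.range fun f : Fin q => Ψ (Pi.single f 1)) ∪
      insert y₂ (Set.range qv)
    have hSp : ∀ f, ∀ g' ∈ degreeLT M (e f + 1),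
        Ψ (Pi.single f (Polynomial.X * g')) ∈ Submodule.span M V := by
      intro f g₁ hg
      have hg' := degreeLT_le_lspan hnd (e f) hg
      rw [lspan] at hg'
      clear hg
      induction hg' using Submodule.span_induction with
      | mem g₁ hg =>
        obtain ⟨m', hm', rfl⟩ := hg
        have h1 : Ψ (Pi.single f (Polynomial.X * lmon p θ m')) =
            (E (θ j))⁻¹ • (E (θ j) • Ψ (Pi.single f (Polynomial.X * lmon p θ m'))) := by
          rw [smul_smul, inv_mul_cancel₀ hEθ, one_smul]
        rw [h1, key (f, m') hm']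
        refine Submodule.smul_mem _ _ (add_mem (Submodule.sum_mem _ fun i _ =>
          Submodule.smul_mem _ _ ?_) (Submodule.smul_mem _ _ ?_))
        · exact Submodule.subset_span (Or.inr (Or.inr ⟨i, rfl⟩))
        · exact Submodule.subset_span (Or.inr (Or.inl rfl))
      | zero => rw [mul_zero, Pi.single_zero, map_zero]; exact zero_mem _
      | add g₁ g₂ _ _ hg hg' =>
        rw [mul_add, Pi.single_add, map_add]; exact add_mem hg hg'
      | smul s g₁ _ hg =>
        rw [mul_smul_comm, Pi.single_smul, map_smul]; exact Submodule.smul_mem _ _ hg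
    have htop : (⊤ : Submodule M ((Fin s ⊕ β → M) ⧸ W)) ≤ Submodule.span M V := by
      rintro y -
      obtain ⟨F, hFd, rfl⟩ := hsurj y
      rw [← Finset.univ_sum_single F, map_sum]
      refine Submodule.sum_mem _ fun f _ => ?_
      have h2 := hFd f
      have h3 := divX_mul_X_add (F f)
      rw [← h3, Pi.single_add, map_add]
      refine add_mem ?_ ?_
      · rw [mul_comm]
        apply hSp
        rw [mem_degreeLT, degree_lt_iff_coeff_zero] at h2 ⊢
        intro n hn
        rw [coeff_divX]
        have := he f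
        exact h2 (n + 1) (by
          have : e f + 1 = d f := he f
          omega)
      · have : C ((F f).coeff 0) = (F f).coeff 0 • (1 : M[X]) := by
          rw [smul_eq_C_mul, mul_one]
        rw [this, Pi.single_smul, map_smul]
        exact Submodule.smul_mem _ _ (Submodule.subset_span (Or.inl ⟨f, rfl⟩))
    have h1 := Submodule.finrank_mono htop
    rw [finrank_top] at h1
    have h2 : Module.finrank M (Submodule.span M V) ≤ q + (h + 1) := by
      have h3 := finrank_span_finset_le_card (R := M)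
        ((Finset.univ.image fun f : Fin q => Ψ (Pi.single f 1)) ∪
          insert y₂ (Finset.univ.image qv))
      have h4 : (((Finset.univ.image fun f : Fin q => Ψ (Pi.single f 1)) ∪
          insert y₂ (Finset.univ.image qv) : Finset _) : Set _) = V := by
        simp [V]
      have h5 : ((Finset.univ.image fun f : Fin q => Ψ (Pi.single f 1)) ∪
          insert y₂ (Finset.univ.image qv)).card ≤ q + (h + 1) := by
        refine (Finset.card_union_le _ _).trans ?_
        refine Nat.add_le_add ?_ ?_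
        · refine Finset.card_image_le.trans ?_
          simp
        · refine (Finset.card_insert_le _ _).trans ?_
          refine Nat.succ_le_succ (Finset.card_image_le.trans ?_)
          simp
      rw [Set.finrank, h4] at h3
      exact h3.trans h5
    omega
  -- conclusion
  have hfin : ∀ x : Fin q × (Fin s →₀ ℕ), x.2.degree = e x.1 →
      (Pi.single x.1 (lmon p θ x.2) : Fin q → M[X]) ∈ LinearMap.range G ⊔
        Submodule.span M (Set.range fun i =>
          (Pi.single (μ i).1 (lmon p θ (μ i).2) : Fin q → M[X])) := by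
    intro x hme
    have h1 := mrel_of_Em (l := l) (b := b) (a := mA X) (D := mD X) (d := d) (θ := θ) (m_hD X)
      hpl hθl hθb w hGw c (sc x) (ν x)
      (fun o => by rw [hνdeg x hme o]; exact he _) (hEp x hme) (hE x hme)
    set E := Em (mD X) p θ l b c (sc x) (ν x) with hEdef
    rw [← hlam, Fintype.sum_option] at h1
    have h2 : (Pi.single x.1 (lmon p θ x.2) : Fin q → M[X]) =
        G (-(lam⁻¹ • fun j => E (w j))) +
        ∑ i, t x i • (Pi.single (μ i).1 (lmon p θ (μ i).2) : Fin q → M[X]) := by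
      have h3 : G (-(lam⁻¹ • fun j => E (w j))) = lam⁻¹ • (- G (fun j => E (w j))) := by
        rw [map_neg, map_smul, smul_neg]
      have h5 : ∑ i, sc x (some i) • (Pi.single (ν x (some i)).1 (lmon p θ (ν x (some i)).2) :
          Fin q → M[X]) =
          - ∑ i, t x i • (Pi.single (μ i).1 (lmon p θ (μ i).2) : Fin q → M[X]) := by
        rw [← Finset.sum_neg_distrib]
        refine Finset.sum_congr rfl fun i _ => ?_
        show (- t x i) • _ = _
        rw [neg_smul]
        rfl
      have h6 : sc x none • (Pi.single (ν x none).1 (lmon p θ (ν x none).2) : Fin q → M[X]) =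
          Pi.single x.1 (lmon p θ x.2) := by
        show (1 : M) • _ = _
        rw [one_smul]
        rfl
      rw [h3, ← h1, h5, h6, smul_smul, inv_mul_cancel₀ hc, one_smul]
      abel
    rw [h2]
    exact add_mem (Submodule.mem_sup_left ⟨_, rfl⟩) (Submodule.mem_sup_right
      (Submodule.sum_mem _ fun i _ => Submodule.smul_mem _ _ (Submodule.subset_span ⟨i, rfl⟩)))
  have hle : LinearMap.range (inclP M d) ≤
      LinearMap.range G ⊔ Submodule.span M (Set.range fun i =>
        (Pi.single (μ i).1 (lmon p θ (μ i).2) : Fin q → M[X])) := by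
    rintro _ ⟨g₀, rfl⟩
    rw [← Finset.univ_sum_single (inclP M d g₀)]
    refine Submodule.sum_mem _ fun f _ => ?_
    have h1 : inclP M d g₀ f ∈ degreeLT M (e f + 1) := by
      have : e f + 1 = d f := he f
      rw [this]; exact (g₀ f).2
    have h2 := degreeLT_le_lspan hnd (e f) h1
    rw [lspan] at h2
    generalize inclP M d g₀ f = g' at h2
    induction h2 using Submodule.span_induction with
    | mem g hg =>
      obtain ⟨m', hm', rfl⟩ := hg
      exact hfin (f, m') hm'
    | zero => rw [Pi.single_zero]; exact zero_mem _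
    | add g g' _ _ hg hg' => rw [Pi.single_add]; exact add_mem hg hg'
    | smul s g _ hg => rw [Pi.single_smul]; exact Submodule.smul_mem _ _ hg
  have hfd : FiniteDimensional M (Submodule.span M (Set.range fun i =>
      (Pi.single (μ i).1 (lmon p θ (μ i).2) : Fin q → M[X]))) :=
    FiniteDimensional.span_of_finite M (Set.finite_range _)
  have h1 := Submodule.finrank_mono hle
  rw [LinearMap.finrank_range_of_inj (inclP_injective d), finrank_PD] at h1
  have h2 := Submodule.finrank_add_le_finrank_add_finrank (LinearMap.range G)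
    (Submodule.span M (Set.range fun i =>
      (Pi.single (μ i).1 (lmon p θ (μ i).2) : Fin q → M[X])))
  have h3 : Module.finrank M (Submodule.span M (Set.range fun i =>
      (Pi.single (μ i).1 (lmon p θ (μ i).2) : Fin q → M[X]))) ≤ h' := by
    have := finrank_range_le_card (R := M) (fun i =>
      (Pi.single (μ i).1 (lmon p θ (μ i).2) : Fin q → M[X]))
    rwa [Fintype.card_fin] at this
  omega

end Pool.Agent.Lib.MP_44a246_ntL
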