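import Mathlib
import Pool.Agent.Lib.MP_44a246_ntL.LRows
import Pool.Agent.Lib.MP_44a246_ntL.LContact

/-!
Logarithmic version: from configurations to local bounds; the local bound for points on no
exceptional line.
-/

namespace Pool.Agent.Lib.MP_44a246_ntL

open Pool.Agent.Lib.MP_e52354_nt
open Pool.Agent.Lib.MP_e52354_ntG
open Pool.Agent.Lib.MP_e52354_ntC
open Pool.Agent.Lib.MP_e52354_ntI
open Polynomial

universe u w w'

section Bq

variable {s q : ℕ} {d : Fin q → ℕ} {γ : Type w'} {M : Type u} [Field M] {β : Type}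
  {X : DData (MIdx s q d) γ M} {p : Fin s → M} {g : β → Fin q} {l : Fin s}

theorem lmzetaC_add (c c' : CC s q) (u v : Fin s) :
    lmzetaC X p g (c + c') u v = lmzetaC X p g c u v + lmzetaC X p g c' u v := by
  rw [lmzetaC_eq, lmzetaC_eq, lmzetaC_eq, ← Finset.sum_add_distrib]
  refine Finset.sum_congr rfl fun j _ => ?_
  rw [← Finset.sum_add_distrib]
  refine Finset.sum_congr rfl fun m _ => ?_
  rw [Pi.add_apply, Pi.add_apply, Int.cast_add, add_smul]

theorem lzeta_base (hpl : p l = 1) (f : Fin q) (m : Fin s →₀ ℕ) (u v : Fin s) :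
    lzeta X p g f m u v = p u • lzeta X p g f m l v - p v • lzeta X p g f m l u := by
  simp only [lzeta, hpl, one_smul, smul_sub, smul_smul, mul_comm (p v) (p u)]
  abel

theorem lmzetaC_ind {f : Fin q} {m : Fin s →₀ ℕ} (hm : m.degree + 1 = d f) (u v : Fin s) :
    lmzetaC X p g (mind f m) u v = lzeta X p g f m u v := by
  rw [lmzetaC_eq, Finset.sum_eq_single f]
  · rw [Finset.sum_eq_single m]
    · simp [mind, ind]
    · intro m' _ hm'
      simp [mind, ind, hm']
    · intro h
      exact absurd (mem_expo.mpr (by omega)) h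
  · intro j _ hj
    refine Finset.sum_eq_zero fun m' _ => ?_
    simp [mind, Pi.single_eq_of_ne hj]
  · intro h; exact absurd (Finset.mem_univ f) h

/-- the family of the vectors zeta modulo a subspace -/
noncomputable def lBq (X : DData (MIdx s q d) γ M) (p : Fin s → M) (g : β → Fin q) (l : Fin s)
    (W : Submodule M (Fin s ⊕ β → M)) : CC s q →+ (Fin s → ((Fin s ⊕ β → M) ⧸ W)) :=
  AddMonoidHom.mk' (fun c b => W.mkQ (lmzetaC X p g c l b)) (by
    intro c c'
    funext b
    rw [lmzetaC_add, map_add]
    rfl)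

theorem lBq_apply (W : Submodule M (Fin s ⊕ β → M)) (c : CC s q) (b : Fin s) :
    lBq X p g l W c b = W.mkQ (lmzetaC X p g c l b) := rfl

end Bq

section Finish

variable {s q : ℕ} {d : Fin q → ℕ} {γ : Type w'} {M : Type u} [Field M] [CharZero M]
  {β : Type} [Fintype β] {X : DData (MIdx s q d) γ M} {p : Fin s → M} {g : β → Fin q}
  {l : Fin s} {qA r S : ℕ}

/-- a configuration with enough savings gives a local bound -/
theorem llocal_of_config [DecidableEq (CC s q)] {x : ℕ} (hq : qA + Fintype.card β = q)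
    (hs : qA + r + 1 = s)
    (hS : 2 * S + 1 ≤ r) (hd1 : ∀ j, 1 ≤ d j) (hd : ∑ j, d j + S = 2 * r + qA + 1)
    (hx : x ≤ S) (L : LogData X p g) (hl : p l ≠ 0)
    (Z₀ : Fin x → Fin s ⊕ β → M) (hZ₀ : ∀ i, Z₀ i ∈ lS1 X p g)
    (hli : LinearIndependent M (fun o : Option (Fin x) => o.elim (lp d p g) Z₀))
    (hspan : lTT X p g ≤ Submodule.span M (insert (lp d p g) (Set.range Z₀) ∪ lSzeta X p g))
    (h : ∃ R : Finset (CC s q × Fin s),
      LinearIndepOn M (vecB (lBq X p g l (Submodule.span M (insert (lp d p g) (Set.range Z₀)))))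
        (R : Set _) ∧ S - x ≤ sav R) :
    BLine X p g (2 * (s + Fintype.card β)) := by
  classical
  obtain ⟨R, hR, hsav, hcard⟩ := exists_small_config (S := S - x) h
  obtain ⟨α, hα, hblk⟩ := lblkR L hl R
  have hfam : LBlk X p g Z₀ 1 (∑ _i : Fin x, 1) := by
    exact LBlk.fam fun i => wtl_S1 L (hZ₀ i)
  have hli' := li_of_quot_fam hli rfl hR
  have h3 := sav_add R
  exact lfinish_line_blk (κ := Fin x ⊕ R) (m := r - 1 - (x + R.card)) (E := 0) hq hs
    (by rw [Fintype.card_sum, Fintype.card_fin, Fintype.card_coe]; omega) L hl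
    (Sum.elim Z₀ (fun y : R => lmzetaC X p g y.1.1 l y.1.2)) (by
      rintro (i | i)
      · exact fun j => lgr_S1 L (hZ₀ i) j
      · exact fun j => lgr_zetaC hd1 L _ _ _ j)
    (mul_ne_zero one_ne_zero hα) (hfam.sum hblk) hli'
    (hspan.trans (Submodule.span_mono (Set.union_subset_union_left _
      (Set.insert_subset_insert (by rw [Set.Sum.elim_range]; exact Set.subset_union_left)))))
    (by
      rw [Finset.sum_const, Finset.card_univ, Fintype.card_fin, smul_eq_mul, mul_one]
      omega)

/-- the tangent space modulo the vectors xi -/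
theorem lfinrank_T0_ge {x : ℕ} (hq : qA + Fintype.card β = q)
    (hs : qA + r + 1 = s) (L : LogData X p g)
    (hpl : p l = 1) (Z₀ : Fin x → Fin s ⊕ β → M)
    (hli : LinearIndependent M (fun o : Option (Fin x) => o.elim (lp d p g) Z₀))
    (hspan : lTT X p g ≤ Submodule.span M (insert (lp d p g) (Set.range Z₀) ∪ lSzeta X p g)) :
    r ≤ x + Module.finrank M (T0 M
      (lBq X p g l (Submodule.span M (insert (lp d p g) (Set.range Z₀))))) := by
  have hl : p l ≠ 0 := by rw [hpl]; exact one_ne_zero
  set W₀ := Submodule.span M (insert (lp d p g) (Set.range Z₀)) with hW₀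
  have hW₀dim : Module.finrank M W₀ = x + 1 := by
    have := finrank_insert hli
    rwa [Fintype.card_fin] at this
  have h1 : (lTT X p g).map W₀.mkQ ≤ T0 M (lBq X p g l W₀) := by
    rw [Submodule.map_le_iff_le_comap]
    refine hspan.trans ?_
    rw [Submodule.span_le]
    rintro z (hz | ⟨f, m, u, v, hm, rfl⟩)
    · have : W₀.mkQ z = 0 := by
        rw [Submodule.mkQ_apply, Submodule.Quotient.mk_eq_zero]
        exact Submodule.subset_span hz
      show W₀.mkQ z ∈ T0 M (lBq X p g l W₀)
      rw [this]
      exact zero_mem _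
    · show W₀.mkQ (lzeta X p g f m u v) ∈ T0 M (lBq X p g l W₀)
      rw [lzeta_base hpl, map_sub, map_smul, map_smul]
      have h2 : ∀ b, W₀.mkQ (lzeta X p g f m l b) ∈ T0 M (lBq X p g l W₀) := by
        intro b
        rw [← lmzetaC_ind hm]
        exact mem_T0 (B := lBq X p g l W₀) (mind f m) b
      exact sub_mem (Submodule.smul_mem _ _ (h2 v)) (Submodule.smul_mem _ _ (h2 u))
  have h2 := Submodule.finrank_mono h1
  let gg : lTT X p g →ₗ[M] ((Fin s ⊕ β → M) ⧸ W₀) := W₀.mkQ ∘ₗ (lTT X p g).subtype
  have h3 := LinearMap.finrank_range_add_finrank_ker gg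
  have h4 : LinearMap.range gg = (lTT X p g).map W₀.mkQ := by
    rw [LinearMap.range_comp, Submodule.range_subtype]
  have h5 : Module.finrank M (LinearMap.ker gg) ≤ Module.finrank M W₀ := by
    let g' : LinearMap.ker gg →ₗ[M] W₀ :=
      { toFun := fun z => ⟨z.1.1, by
          have h6 : W₀.mkQ z.1.1 = 0 := z.2
          rwa [Submodule.mkQ_apply, Submodule.Quotient.mk_eq_zero] at h6⟩
        map_add' := fun _ _ => rfl
        map_smul' := fun _ _ => rfl }
    refine LinearMap.finrank_le_finrank_of_injective (f := g') ?_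
    intro z z' h
    apply Subtype.ext
    apply Subtype.ext
    exact congrArg (fun w => w.1) h
  have h6 := finrank_lTT L hl
  rw [h4] at h3
  omega

/-- from a subspace and a line for the family `B` to the vectors zeta -/
theorem lline_small {x : ℕ} (hq : qA + Fintype.card β = q)
    (hs : qA + r + 1 = s) (hS : 2 * S ≤ r)
    (hx : x ≤ S) (L : LogData X p g) (hpl : p l = 1)
    (Z₀ : Fin x → Fin s ⊕ β → M)
    (hli : LinearIndependent M (fun o : Option (Fin x) => o.elim (lp d p g) Z₀))
    (hspan : lTT X p g ≤ Submodule.span M (insert (lp d p g) (Set.range Z₀) ∪ lSzeta X p g))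
    (hbig : ∀ [DecidableEq (CC s q)] (R : Finset (CC s q × Fin s)),
      LinearIndepOn M (vecB (lBq X p g l (Submodule.span M (insert (lp d p g) (Set.range Z₀)))))
        (R : Set _) → sav R < S - x) :
    ∃ θ : Fin s → M, θ l = 0 ∧ ∃ b, θ b = 1 ∧ ∃ N : Submodule M (Fin s ⊕ β → M),
      Submodule.span M (insert (lp d p g) (Set.range Z₀)) ≤ N ∧ Module.finrank M N ≤ S ∧
      ∀ f, ∀ m : Fin s →₀ ℕ, m.degree + 1 = d f → ∀ c,
        lzeta X p g f m l c - θ c • lzeta X p g f m l b ∈ N := by
  classical
  have hl : p l ≠ 0 := by rw [hpl]; exact one_ne_zero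
  set W₀ := Submodule.span M (insert (lp d p g) (Set.range Z₀)) with hW₀
  have hW₀dim : Module.finrank M W₀ = x + 1 := by
    have := finrank_insert hli
    rwa [Fintype.card_fin] at this
  have hT0 := lfinrank_T0_ge hq hs L hpl Z₀ hli hspan
  rw [← hW₀] at hT0
  have hsx : 0 < S - x := by
    have := hbig ∅ (by simp)
    omega
  obtain ⟨θ, b, hθb, N', hN', hθ⟩ := exists_line_small (M := M) (lBq X p g l W₀)
    (S := S - x) (by omega) (by
      intro hdec R hR
      exact hbig R hR)
  have hθl : θ l = 0 := by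
    by_contra hne
    have h1 : ∀ c, lBq X p g l W₀ c b ∈ N' := by
      intro c
      have h2 := hθ c l
      have h3 : lBq X p g l W₀ c l = 0 := by
        rw [lBq_apply]
        have : lmzetaC X p g c l l = 0 := by
          unfold lmzetaC
          rw [sub_self]
        rw [this, map_zero]
      rw [h3, zero_sub] at h2
      have h4 := Submodule.smul_mem N' (-(θ l)⁻¹) h2
      rwa [smul_neg, neg_smul, neg_neg, smul_smul, inv_mul_cancel₀ hne, one_smul] at h4
    have h2 : T0 M (lBq X p g l W₀) ≤ N' := by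
      apply T0_le
      intro c j
      have h3 := add_mem (hθ c j) (Submodule.smul_mem N' (θ j) (h1 c))
      rwa [sub_add_cancel] at h3
    have h3 := Submodule.finrank_mono h2
    omega
  refine ⟨θ, hθl, b, hθb, N'.comap W₀.mkQ, ?_, ?_, ?_⟩
  · intro z hz
    show W₀.mkQ z ∈ N'
    have : W₀.mkQ z = 0 := by
      rw [Submodule.mkQ_apply, Submodule.Quotient.mk_eq_zero]; exact hz
    rw [this]
    exact zero_mem _
  · let f : N'.comap W₀.mkQ →ₗ[M] N' :=
      { toFun := fun z => ⟨W₀.mkQ z.1, z.2⟩
        map_add' := fun y z => by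
          apply Subtype.ext
          show W₀.mkQ (y.1 + z.1) = W₀.mkQ y.1 + W₀.mkQ z.1
          rw [map_add]
        map_smul' := fun a z => by
          apply Subtype.ext
          show W₀.mkQ (a • z.1) = a • W₀.mkQ z.1
          rw [map_smul] }
    have h3 := LinearMap.finrank_range_add_finrank_ker f
    have h4 : Module.finrank M (LinearMap.range f) ≤ Module.finrank M N' :=
      Submodule.finrank_le _
    have h5 : Module.finrank M (LinearMap.ker f) ≤ Module.finrank M W₀ := by
      let gg : LinearMap.ker f →ₗ[M] W₀ :=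
        { toFun := fun z => ⟨z.1.1, by
            have h6 : W₀.mkQ z.1.1 = 0 := congrArg Subtype.val z.2
            rwa [Submodule.mkQ_apply, Submodule.Quotient.mk_eq_zero] at h6⟩
          map_add' := fun _ _ => rfl
          map_smul' := fun _ _ => rfl }
      refine LinearMap.finrank_le_finrank_of_injective (f := gg) ?_
      intro z z' h
      apply Subtype.ext
      apply Subtype.ext
      exact congrArg (fun w => w.1) h
    omega
  · intro f m hm c
    have h1 := hθ (mind f m) c
    rw [lBq_apply, lBq_apply, lmzetaC_ind hm, lmzetaC_ind hm, ← map_smul, ← map_sub] at h1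
    exact h1

/-- many vectors xi -/
theorem llocal_many {n : ℕ} (hq : qA + Fintype.card β = q) (hs : qA + r + 1 = s) (hS : S + 1 ≤ r)
    (hd : ∑ j, d j + S = 2 * r + qA + 1) (hn : S + 1 ≤ n)
    (L : LogData X p g) (hl : p l ≠ 0)
    (Z : Fin n → Fin s ⊕ β → M) (hZ : ∀ i, Z i ∈ lS1 X p g)
    (hli : LinearIndependent M (fun o : Option (Fin n) => o.elim (lp d p g) Z)) :
    ∃ J : M, J ≠ 0 ∧ LBl X p g (2 * (s + Fintype.card β)) 1 J := by
  classical
  let Z₀ : Fin S → Fin s ⊕ β → M := fun i => Z (Fin.castLE (by omega) i)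
  let z₀ : Fin s ⊕ β → M := Z ⟨S, by omega⟩
  have hwt : ∀ i, WTl X p g 2 1 (Z i) := fun i => wtl_S1 L (hZ i)
  refine lfinish_direct_blk (κ := Fin S) (m := r - S - 1) (E := 1) (w₀ := 1) hq hs
    (by rw [Fintype.card_fin]; omega) L hl Z₀ (fun i j => lgr_S1 L (hZ _) j)
    one_ne_zero (LBlk.fam (wz := fun _ => 1) fun i => hwt _)
    (z₀ := z₀) (fun j => lgr_S1 L (hZ _) j) (hwt _) ?_ ?_
  · let f : Fin S ⊕ Unit → Fin n := Sum.elim (fun i => Fin.castLE (by omega) i)
      (fun _ => ⟨S, by omega⟩)
    have hf : Function.Injective f := by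
      rintro (i | i) (j | j) h
      · have h1 := congrArg Fin.val h
        simp only [f, Sum.elim_inl, Fin.val_castLE] at h1
        rw [Fin.ext h1]
      · have h1 := congrArg Fin.val h
        simp only [f, Sum.elim_inl, Sum.elim_inr, Fin.val_castLE] at h1
        have := i.2
        omega
      · have h1 := congrArg Fin.val h
        simp only [f, Sum.elim_inl, Sum.elim_inr, Fin.val_castLE] at h1
        have := j.2
        omega
      · rfl
    have h1 := hli.comp (Option.map f) (Option.map_injective hf)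
    convert h1 using 1
    funext o
    rcases o with (_ | (i | i)) <;> rfl
  · rw [Finset.sum_const, Finset.card_univ, Fintype.card_fin, smul_eq_mul, mul_one]
    omega

/-- full contact: the forms vanishing at the point vanish on the line, and the other forms are
powers of a linear form on the line -/
def FullC (X : DData (MIdx s q d) γ M) (p : Fin s → M) (l : Fin s) : Prop :=
  ∃ (θ : Fin s → M) (b : Fin s), θ l = 0 ∧ θ b = 1 ∧ ∃ w : Fin s → M, w ≠ 0 ∧
    w = w l • p + (w b - p b * w l) • θ ∧ ∀ f, ∑ j, w j • gradP (d f) (mA X f) p θ j = 0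

/-- The local bound for points which are not on an exceptional line. -/
theorem llocal_gen (hq : qA + Fintype.card β = q) (hs : qA + r + 1 = s) (hS : 2 * S + 1 ≤ r)
    (hd1 : ∀ j, 1 ≤ d j) (hd : ∑ j, d j + S = 2 * r + qA + 1) (L : LogData X p g)
    (hpl : p l = 1) :
    (∃ J : M, J ≠ 0 ∧ LBl X p g (2 * (s + Fintype.card β)) 1 J) ∨
      BLine X p g (2 * (s + Fintype.card β)) ∨ FullC X p l := by
  classical
  have hl : p l ≠ 0 := by rw [hpl]; exact one_ne_zero
  have hp0 : lp d p g ≠ 0 := by
    intro h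
    have h1 := congrFun h (Sum.inl l)
    simp only [lp, Sum.elim_inl, Pi.zero_apply] at h1
    exact hl h1
  obtain ⟨n, Z, hZ, hli, hspan⟩ := exists_fam_single (M := M) hp0 (lS1 X p g)
  rcases Nat.lt_or_ge S n with hn | hn
  · left
    exact llocal_many hq hs (by omega) hd hn L hl Z hZ hli
  · right
    have hTT : lTT X p g ≤ Submodule.span M (insert (lp d p g) (Set.range Z) ∪ lSzeta X p g) := by
      refine (lker_le_span L hl).trans ?_
      rw [Submodule.span_le]
      rintro z (hz | hz)
      · exact Submodule.subset_span (Or.inr hz)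
      · exact Submodule.span_mono Set.subset_union_left (hspan z hz)
    by_cases hbig : ∃ R : Finset (CC s q × Fin s),
        LinearIndepOn M (vecB (lBq X p g l (Submodule.span M
          (insert (lp d p g) (Set.range Z))))) (R : Set _) ∧ S - n ≤ sav R
    · left
      exact llocal_of_config hq hs hS hd1 hd hn L hl Z hZ hli hTT hbig
    · right
      push Not at hbig
      obtain ⟨θ, hθl, b, hθb, N, hWN, hN, hm⟩ := lline_small hq hs (by omega) hn L hpl Z hli hTT
        (fun {hdec} R hR => by
          have h1 := hbig R hR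
          rw [Subsingleton.elim hdec (fun a b => Fintype.decidablePiFintype a b)]
          exact h1)
      obtain ⟨w, hw0, hw1, hw2⟩ := lcontact L hq hs (by omega) hd1 hd hpl hθl hθb N
        (hWN (Submodule.subset_span (Set.mem_insert _ _))) hN hm (fun z hz => hWN (hspan z hz))
      exact ⟨θ, b, hθl, hθb, w, hw0, hw1, hw2⟩

end Finish

end Pool.Agent.Lib.MP_44a246_ntL
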