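import Mathlib
import Pool.Agent.Lib.MP_44a246_ntL.LRoot
import Pool.Agent.Lib.MP_44a246_ntL.LMason

/-!
Four points on a line: the cross ratio.
-/

namespace Pool.Agent.Lib.MP_44a246_ntL

open Pool.Agent.Lib.MP_e52354_nt
open Pool.Agent.Lib.MP_e52354_ntG
open Pool.Agent.Lib.MP_44a246_nt
open WithZero

universe w

section Aux

/-- counting the elements of a set by a nonnegative function with finite support -/
theorem ncard_le_finsum {ι : Type*} {f : ι → ℤ} (hf : (Function.support f).Finite)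
    (h0 : ∀ v, 0 ≤ f v) {A : Set ι} (hA : ∀ v ∈ A, 1 ≤ f v) :
    A.Finite ∧ ((A.ncard : ℕ) : ℤ) ≤ ∑ᶠ v, f v := by
  classical
  have hsub : A ⊆ Function.support f := by
    intro v hv h1
    have h2 := hA v hv
    rw [h1] at h2
    omega
  have hfin : A.Finite := hf.subset hsub
  refine ⟨hfin, ?_⟩
  have h1 : Function.support f ⊆ ↑hf.toFinset := by
    rw [Set.Finite.coe_toFinset]
  rw [finsum_eq_sum_of_support_subset _ h1, Set.ncard_eq_toFinset_card A hfin]
  calc ((hfin.toFinset.card : ℕ) : ℤ) = ∑ v ∈ hfin.toFinset, (1 : ℤ) := by simp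
    _ ≤ ∑ v ∈ hfin.toFinset, f v := by
        refine Finset.sum_le_sum fun v hv => hA v ?_
        exact (Set.Finite.mem_toFinset hfin).mp hv
    _ ≤ ∑ v ∈ hf.toFinset, f v := by
        refine Finset.sum_le_sum_of_subset_of_nonneg ?_ fun v _ _ => h0 v
        intro v hv
        rw [Set.Finite.mem_toFinset] at hv ⊢
        exact hsub hv

variable {L : Type*} [Field L]

theorem plu_le (v : Valuation L ℤᵐ⁰) {s : ℕ} (P Q : Fin s → L) (a b : Fin s) :
    v (plu P Q a b) ≤ vmax v P * vmax v Q := by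
  unfold plu
  refine (Valuation.map_sub v _ _).trans (max_le ?_ ?_)
  · rw [map_mul]
    exact mul_le_mul' (le_vmax v P a) (le_vmax v Q b)
  · rw [map_mul]
    exact mul_le_mul' (le_vmax v P b) (le_vmax v Q a)

theorem log_vmax_pair (v : Valuation L ℤᵐ⁰) (y : L) : vmax v ![1, y] = max 1 (v y) := by
  unfold vmax
  rw [Fin.univ_succ]
  simp

theorem plu_ne_left {s : ℕ} {P Q : Fin s → L} {a b : Fin s} (h : plu P Q a b ≠ 0) : P ≠ 0 := by
  rintro rfl
  apply h
  simp [plu]

theorem plu_ne_right {s : ℕ} {P Q : Fin s → L} {a b : Fin s} (h : plu P Q a b ≠ 0) : Q ≠ 0 := by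
  rintro rfl
  apply h
  simp [plu]

theorem vmax_ne (v : Valuation L ℤᵐ⁰) {σ : Type*} [Fintype σ] {x : σ → L} (hx : x ≠ 0) :
    vmax v x ≠ 0 := by
  rw [Ne, vmax_eq_zero_iff]
  exact hx

theorem prod_sub_lt (v : Valuation L ℤᵐ⁰) {ι : Type*} (t : Finset ι) (A B : ι → L)
    (R : ι → ℤᵐ⁰) (hR : ∀ i ∈ t, R i ≠ 0) (hA : ∀ i ∈ t, v (A i) ≤ R i)
    (hB : ∀ i ∈ t, v (B i) ≤ R i) (hAB : ∀ i ∈ t, v (A i - B i) < R i) :
    v (∏ i ∈ t, A i - ∏ i ∈ t, B i) < ∏ i ∈ t, R i := by
  classical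
  induction t using Finset.induction_on with
  | empty => simp
  | insert i t hi ih =>
    have hR' : R i ≠ 0 := hR i (Finset.mem_insert_self _ _)
    have ih' := ih (fun j hj => hR j (Finset.mem_insert_of_mem hj))
      (fun j hj => hA j (Finset.mem_insert_of_mem hj))
      (fun j hj => hB j (Finset.mem_insert_of_mem hj))
      (fun j hj => hAB j (Finset.mem_insert_of_mem hj))
    rw [Finset.prod_insert hi, Finset.prod_insert hi, Finset.prod_insert hi]
    have h1 : A i * ∏ j ∈ t, A j - B i * ∏ j ∈ t, B j =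
        A i * (∏ j ∈ t, A j - ∏ j ∈ t, B j) + (A i - B i) * ∏ j ∈ t, B j := by ring
    rw [h1]
    have hRt : ∏ j ∈ t, R j ≠ 0 :=
      Finset.prod_ne_zero_iff.mpr fun j hj => hR j (Finset.mem_insert_of_mem hj)
    have hBt : v (∏ j ∈ t, B j) ≤ ∏ j ∈ t, R j := by
      rw [map_prod]
      exact Finset.prod_le_prod' fun j hj => hB j (Finset.mem_insert_of_mem hj)
    refine Valuation.map_add_lt v ?_ ?_
    · rw [map_mul]
      calc v (A i) * v (∏ j ∈ t, A j - ∏ j ∈ t, B j)
          ≤ R i * v (∏ j ∈ t, A j - ∏ j ∈ t, B j) := by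
            exact mul_le_mul' (hA i (Finset.mem_insert_self _ _)) le_rfl
        _ < R i * ∏ j ∈ t, R j := by
            exact mul_lt_mul_of_pos_left ih' (zero_lt_iff.mpr hR')
    · rw [map_mul]
      calc v (A i - B i) * v (∏ j ∈ t, B j) ≤ v (A i - B i) * ∏ j ∈ t, R j := by
            exact mul_le_mul' le_rfl hBt
        _ < R i * ∏ j ∈ t, R j := by
            exact mul_lt_mul_of_pos_right (hAB i (Finset.mem_insert_self _ _))
              (zero_lt_iff.mpr hRt)

theorem mon_sub_lt (v : Valuation L ℤᵐ⁰) {σ : Type*} [Fintype σ] {x z : σ → L} {R : ℤᵐ⁰}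
    (hR : R ≠ 0) (hx : ∀ i, v (x i) ≤ R) (hz : ∀ i, v (z i) ≤ R) (hxz : ∀ i, v (x i - z i) < R)
    (I : σ →₀ ℕ) : v (mon x I - mon z I) < R ^ I.degree := by
  classical
  unfold mon
  rw [Finsupp.degree_eq_sum, ← Finset.prod_pow_eq_pow_sum]
  refine prod_sub_lt v Finset.univ (fun i => x i ^ I i) (fun i => z i ^ I i) (fun i => R ^ I i)
    (fun i _ => pow_ne_zero _ hR) (fun i _ => ?_) (fun i _ => ?_) (fun i _ => ?_)
  · rw [map_pow]
    exact pow_le_pow_left' (hx i) _
  · rw [map_pow]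
    exact pow_le_pow_left' (hz i) _
  · have h1 := prod_sub_lt v (Finset.range (I i)) (fun _ => x i) (fun _ => z i) (fun _ => R)
      (fun _ _ => hR) (fun _ _ => hx i) (fun _ _ => hz i) (fun _ _ => hxz i)
    simpa using h1

theorem Fval_sub_lt (v : Valuation L ℤᵐ⁰) {σ : Type*} [Fintype σ] [DecidableEq σ] {x z : σ → L}
    {R : ℤᵐ⁰} (hR : R ≠ 0) (hx : ∀ i, v (x i) ≤ R) (hz : ∀ i, v (z i) ≤ R)
    (hxz : ∀ i, v (x i - z i) < R) (d : ℕ) (a : (σ →₀ ℕ) → L)
    (ha : ∀ I ∈ expo σ d, v (a I) ≤ 1) : v (Fval d a x - Fval d a z) < R ^ d := by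
  unfold Fval
  rw [← Finset.sum_sub_distrib]
  refine Valuation.map_sum_lt v (pow_ne_zero _ hR) fun I hI => ?_
  rw [← mul_sub, map_mul]
  have h1 := mon_sub_lt v hR hx hz hxz I
  rw [mem_expo.mp hI] at h1
  calc v (a I) * v (mon x I - mon z I) ≤ 1 * v (mon x I - mon z I) :=
        mul_le_mul' (ha I hI) le_rfl
    _ < R ^ d := by rwa [one_mul]

/-- the coordinates of a point of a line -/
theorem plu_line {s : ℕ} {x p' P : Fin s → L} (hP : ∃ α β : L, P = fun k => x k * α + p' k * β)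
    (i j k : Fin s) : plu x p' i j * P k = P j * plu x p' i k - P i * plu x p' j k := by
  obtain ⟨α, β, rfl⟩ := hP
  unfold plu
  ring

end Aux

section One

variable {κ L : Type*} [Field κ] [IsAlgClosed κ] [CharZero κ] [Field L] [Algebra κ L]

/-- the places at which two points meet -/
theorem ncard_plu_lt (h : IsFF κ L) {s : ℕ} {P Q : Fin s → L} {a b : Fin s}
    (hPQ : plu P Q a b ≠ 0) :
    {w : Place κ L | w.1 (plu P Q a b) < vmax w.1 P * vmax w.1 Q}.Finite ∧
      (({w : Place κ L | w.1 (plu P Q a b) < vmax w.1 P * vmax w.1 Q}.ncard : ℕ) : ℤ) ≤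
        height κ P + height κ Q := by
  have hP := plu_ne_left hPQ
  have hQ := plu_ne_right hPQ
  set f : Place κ L → ℤ := fun w => log (vmax w.1 P) + log (vmax w.1 Q) +
    -log (w.1 (plu P Q a b)) with hf
  have hs1 := h.vmax_support hP
  have hs2 := h.vmax_support hQ
  have hs3 := h.place_support hPQ
  have hs12 : (Function.support fun w : Place κ L =>
      log (vmax w.1 P) + log (vmax w.1 Q)).Finite :=
    (hs1.union hs2).subset (Function.support_add _ _)
  have hs3' : (Function.support fun w : Place κ L => -log (w.1 (plu P Q a b))).Finite := by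
    refine hs3.subset fun w hw h1 => hw ?_
    simp only at h1 ⊢
    rw [h1, neg_zero]
  have hfs : (Function.support f).Finite :=
    (hs12.union hs3').subset (Function.support_add _ _)
  have hsum : ∑ᶠ w, f w = height κ P + height κ Q := by
    rw [hf, finsum_add_distrib hs12 hs3', finsum_add_distrib hs1 hs2, finsum_neg_distrib,
      h.product_formula hPQ, neg_zero, add_zero]
    rfl
  have key : ∀ w : Place κ L, log (w.1 (plu P Q a b)) ≤ log (vmax w.1 P) + log (vmax w.1 Q) := by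
    intro w
    rw [← log_mul (vmax_ne _ hP) (vmax_ne _ hQ)]
    exact (log_le_log ((w.1.ne_zero_iff).mpr hPQ)
      (mul_ne_zero (vmax_ne _ hP) (vmax_ne _ hQ))).mpr (plu_le _ _ _ _ _)
  rw [← hsum]
  refine ncard_le_finsum hfs (fun w => ?_) (fun w hw => ?_)
  · have := key w
    simp only [hf]
    omega
  · have h1 : log (w.1 (plu P Q a b)) < log (vmax w.1 P) + log (vmax w.1 Q) := by
      rw [← log_mul (vmax_ne _ hP) (vmax_ne _ hQ)]
      exact (log_lt_log ((w.1.ne_zero_iff).mpr hPQ)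
        (mul_ne_zero (vmax_ne _ hP) (vmax_ne _ hQ))).mpr hw
    simp only [hf]
    omega

/-- the places at which a coordinate is not maximal -/
theorem ncard_coord_lt (h : IsFF κ L) {σ : Type*} [Fintype σ] {z : σ → L} {i : σ}
    (hz : z i ≠ 0) :
    {w : Place κ L | w.1 (z i) < vmax w.1 z}.Finite ∧
      (({w : Place κ L | w.1 (z i) < vmax w.1 z}.ncard : ℕ) : ℤ) ≤ height κ z := by
  have hz0 : z ≠ 0 := by
    rintro rfl
    exact hz rfl
  set f : Place κ L → ℤ := fun w => log (vmax w.1 z) + -log (w.1 (z i)) with hf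
  have hs1 := h.vmax_support hz0
  have hs3 := h.place_support hz
  have hs3' : (Function.support fun w : Place κ L => -log (w.1 (z i))).Finite := by
    refine hs3.subset fun w hw h1 => hw ?_
    simp only at h1 ⊢
    rw [h1, neg_zero]
  have hfs : (Function.support f).Finite :=
    (hs1.union hs3').subset (Function.support_add _ _)
  have hsum : ∑ᶠ w, f w = height κ z := by
    rw [hf, finsum_add_distrib hs1 hs3', finsum_neg_distrib,
      h.product_formula hz, neg_zero, add_zero]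
    rfl
  rw [← hsum]
  refine ncard_le_finsum hfs (fun w => ?_) (fun w hw => ?_)
  · have := (log_le_log ((w.1.ne_zero_iff).mpr hz) (vmax_ne w.1 hz0)).mpr (le_vmax w.1 z i)
    simp only [hf]
    omega
  · have := (log_lt_log ((w.1.ne_zero_iff).mpr hz) (vmax_ne w.1 hz0)).mpr hw
    simp only [hf]
    omega

/-- the cross ratio of the points `x, Q 0, Q 1, Q 2` of a line -/
theorem cross_ratio (h : IsFF κ L) {s : ℕ} {x p' : Fin s → L} {a b : Fin s}
    (hab : plu x p' a b ≠ 0) {Q : Fin 3 → Fin s → L}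
    (hQ : ∀ i, ∃ α β : L, Q i = fun k => x k * α + p' k * β)
    (hQQ : ∀ i j, i ≠ j → plu (Q i) (Q j) a b ≠ 0) (hxQ : ∀ i, plu x (Q i) a b ≠ 0) :
    ∃ y : L, y ≠ 0 ∧ y ≠ 1 ∧ height κ x ≤ height κ ![1, y] + ∑ i, height κ (Q i) ∧
      {w : Place κ L | w.1 y ≠ 1 ∨ w.1 (1 - y) ≠ 1} ⊆
        (⋃ i, {w : Place κ L | w.1 (plu x (Q i) a b) < vmax w.1 x * vmax w.1 (Q i)}) ∪
        (⋃ i : Fin 3,
          {w : Place κ L | w.1 (plu (Q i) (Q (i + 1)) a b) < vmax w.1 (Q i) * vmax w.1 (Q (i + 1))}) := by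
  have hQn : ∀ i, Q i ≠ 0 := fun i => plu_ne_right (hxQ i)
  have hxn : x ≠ 0 := plu_ne_left hab
  have h01 := hQQ 0 1 (by decide)
  have h12 := hQQ 1 2 (by decide)
  have h02 := hQQ 0 2 (by decide)
  have hx0 := hxQ 0
  have hx1 := hxQ 1
  have hx2 := hxQ 2
  set y : L := plu x (Q 0) a b * plu (Q 1) (Q 2) a b /
    (plu x (Q 1) a b * plu (Q 0) (Q 2) a b) with hy
  have h1y : 1 - y = plu x (Q 2) a b * plu (Q 0) (Q 1) a b /
      (plu x (Q 1) a b * plu (Q 0) (Q 2) a b) := by
    rw [hy, eq_div_iff (mul_ne_zero hx1 h02), sub_mul, one_mul,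
      div_mul_cancel₀ _ (mul_ne_zero hx1 h02)]
    unfold plu
    ring
  have hy0 : y ≠ 0 := div_ne_zero (mul_ne_zero hx0 h12) (mul_ne_zero hx1 h02)
  have hy1 : 1 - y ≠ 0 := by
    rw [h1y]
    exact div_ne_zero (mul_ne_zero hx2 h01) (mul_ne_zero hx1 h02)
  refine ⟨y, hy0, fun h1 => hy1 (by rw [h1, sub_self]), ?_, ?_⟩
  · -- the height
    set c : L := plu (Q 0) (Q 1) a b * plu (Q 1) (Q 2) a b / plu x (Q 1) a b with hc
    have hc0 : c ≠ 0 := div_ne_zero (mul_ne_zero h01 h12) hx1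
    have hid : ∀ k, plu (Q 0) (Q 1) a b * x k = plu x (Q 1) a b * Q 0 k - plu x (Q 0) a b * Q 1 k := by
      intro k
      obtain ⟨α, β, hα⟩ := hQ 0
      obtain ⟨α', β', hα'⟩ := hQ 1
      rw [hα, hα']
      unfold plu
      ring
    have hck : ∀ k, c * x k = plu (Q 1) (Q 2) a b * Q 0 k - y * (plu (Q 0) (Q 2) a b * Q 1 k) := by
      intro k
      have e1 : c * x k = plu (Q 1) (Q 2) a b * (plu (Q 0) (Q 1) a b * x k) / plu x (Q 1) a b := by
        rw [hc]
        ring
      rw [e1, hid k, hy]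
      field_simp
    have hyy : (![1, y] : Fin 2 → L) ≠ 0 := by
      intro h1
      have := congrFun h1 0
      simp at this
    rw [← h.height_smul hc0 (x := x)]
    have hcx : (fun i => c * x i) ≠ 0 := by
      intro h1
      apply hxn
      funext k
      have := congrFun h1 k
      simp only [Pi.zero_apply, mul_eq_zero] at this
      exact this.resolve_left hc0
    have hloc : ∀ w : Place κ L, vmax w.1 (fun i => c * x i) ≤
        vmax w.1 ![1, y] * (vmax w.1 (Q 0) * (vmax w.1 (Q 1) * vmax w.1 (Q 2))) := by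
      intro w
      refine vmax_le _ fun k => ?_
      rw [hck k, log_vmax_pair]
      refine (Valuation.map_sub w.1 _ _).trans (max_le ?_ ?_)
      · rw [map_mul]
        calc w.1 (plu (Q 1) (Q 2) a b) * w.1 (Q 0 k)
            ≤ (vmax w.1 (Q 1) * vmax w.1 (Q 2)) * vmax w.1 (Q 0) :=
              mul_le_mul' (plu_le _ _ _ _ _) (le_vmax _ _ _)
          _ = 1 * (vmax w.1 (Q 0) * (vmax w.1 (Q 1) * vmax w.1 (Q 2))) := by
              rw [one_mul, mul_comm]
          _ ≤ _ := mul_le_mul' (le_max_left _ _) le_rfl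
      · rw [map_mul, map_mul]
        calc w.1 y * (w.1 (plu (Q 0) (Q 2) a b) * w.1 (Q 1 k))
            ≤ w.1 y * ((vmax w.1 (Q 0) * vmax w.1 (Q 2)) * vmax w.1 (Q 1)) :=
              mul_le_mul' le_rfl (mul_le_mul' (plu_le _ _ _ _ _) (le_vmax _ _ _))
          _ = w.1 y * (vmax w.1 (Q 0) * (vmax w.1 (Q 1) * vmax w.1 (Q 2))) := by
              rw [mul_assoc, mul_comm (vmax w.1 (Q 2))]
          _ ≤ _ := mul_le_mul' (le_max_right _ _) le_rfl
    have hlog : ∀ w : Place κ L, log (vmax w.1 (fun i => c * x i)) ≤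
        log (vmax w.1 ![1, y]) + (log (vmax w.1 (Q 0)) +
          (log (vmax w.1 (Q 1)) + log (vmax w.1 (Q 2)))) := by
      intro w
      rw [← log_mul (vmax_ne _ (hQn 1)) (vmax_ne _ (hQn 2)),
        ← log_mul (vmax_ne _ (hQn 0)) (mul_ne_zero (vmax_ne _ (hQn 1)) (vmax_ne _ (hQn 2))),
        ← log_mul (vmax_ne _ hyy) (mul_ne_zero (vmax_ne _ (hQn 0))
          (mul_ne_zero (vmax_ne _ (hQn 1)) (vmax_ne _ (hQn 2))))]
      exact (log_le_log (vmax_ne _ hcx) (mul_ne_zero (vmax_ne _ hyy)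
        (mul_ne_zero (vmax_ne _ (hQn 0))
          (mul_ne_zero (vmax_ne _ (hQn 1)) (vmax_ne _ (hQn 2)))))).mpr (hloc w)
    have s1 := h.vmax_support hyy
    have s2 := h.vmax_support (hQn 0)
    have s3 := h.vmax_support (hQn 1)
    have s4 := h.vmax_support (hQn 2)
    have s34 : (Function.support fun w : Place κ L =>
        log (vmax w.1 (Q 1)) + log (vmax w.1 (Q 2))).Finite :=
      (s3.union s4).subset (Function.support_add _ _)
    have s234 : (Function.support fun w : Place κ L =>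
        log (vmax w.1 (Q 0)) + (log (vmax w.1 (Q 1)) + log (vmax w.1 (Q 2)))).Finite :=
      (s2.union s34).subset (Function.support_add _ _)
    have s1234 : (Function.support fun w : Place κ L => log (vmax w.1 ![1, y]) +
        (log (vmax w.1 (Q 0)) + (log (vmax w.1 (Q 1)) + log (vmax w.1 (Q 2))))).Finite :=
      (s1.union s234).subset (Function.support_add _ _)
    have hfin := finsum_mono (h.vmax_support hcx) s1234 hlog
    rw [finsum_add_distrib s1 s234, finsum_add_distrib s2 s34, finsum_add_distrib s3 s4] at hfin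
    rw [Fin.sum_univ_three]
    have e : height κ (fun i => c * x i) ≤ height κ ![1, y] + (height κ (Q 0) +
      (height κ (Q 1) + height κ (Q 2))) := hfin
    linarith
  · -- the places
    intro w hw
    by_contra hcon
    have g1 : ∀ i, w.1 (plu x (Q i) a b) = vmax w.1 x * vmax w.1 (Q i) := by
      intro i
      refine le_antisymm (plu_le _ _ _ _ _) (not_lt.mp fun hlt => hcon ?_)
      exact Or.inl (Set.mem_iUnion.mpr ⟨i, hlt⟩)
    have g2 : ∀ i : Fin 3, w.1 (plu (Q i) (Q (i + 1)) a b) =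
        vmax w.1 (Q i) * vmax w.1 (Q (i + 1)) := by
      intro i
      refine le_antisymm (plu_le _ _ _ _ _) (not_lt.mp fun hlt => hcon ?_)
      exact Or.inr (Set.mem_iUnion.mpr ⟨i, hlt⟩)
    have g01 : w.1 (plu (Q 0) (Q 1) a b) = vmax w.1 (Q 0) * vmax w.1 (Q 1) := g2 0
    have g12 : w.1 (plu (Q 1) (Q 2) a b) = vmax w.1 (Q 1) * vmax w.1 (Q 2) := g2 1
    have g20 : w.1 (plu (Q 2) (Q 0) a b) = vmax w.1 (Q 2) * vmax w.1 (Q 0) := g2 2
    have g02 : w.1 (plu (Q 0) (Q 2) a b) = vmax w.1 (Q 0) * vmax w.1 (Q 2) := by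
      have e : plu (Q 0) (Q 2) a b = -plu (Q 2) (Q 0) a b := by
        unfold plu
        ring
      rw [e, Valuation.map_neg, g20, mul_comm]
    have nx := vmax_ne w.1 hxn
    have n0 := vmax_ne w.1 (hQn 0)
    have n1 := vmax_ne w.1 (hQn 1)
    have n2 := vmax_ne w.1 (hQn 2)
    rcases hw with hw | hw
    · apply hw
      rw [hy, map_div₀, map_mul, map_mul, g1 0, g1 1, g12, g02]
      rw [div_eq_one_iff_eq (mul_ne_zero (mul_ne_zero nx n1) (mul_ne_zero n0 n2))]
      ac_rfl
    · apply hw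
      rw [h1y, map_div₀, map_mul, map_mul, g1 2, g1 1, g01, g02]
      rw [div_eq_one_iff_eq (mul_ne_zero (mul_ne_zero nx n1) (mul_ne_zero n0 n2))]
      ac_rfl

end One

/-- the places of `L`, not over `S`, at which the point meets one of the forms not vanishing at the
point -/
def meetSet {κ K L : Type*} [Field κ] [Field K] [Algebra κ K] [Field L] [Algebra κ L]
    [Algebra K L] [IsScalarTower κ K L] [Algebra.IsAlgebraic K L] {s q : ℕ} (d : Fin q → ℕ)
    (a : Fin q → (Fin s →₀ ℕ) → K) (S : Set (Place κ K)) (x : Fin s → L) : Set (Place κ L) :=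
  {w | below K w ∉ S ∧ ∃ j, Fval (d j) (fun I => algebraMap K L (a j I)) x ≠ 0 ∧
    w.1 (Fval (d j) (fun I => algebraMap K L (a j I)) x) < vmax w.1 x ^ d j}

section Two

variable {κ K : Type*} [Field κ] [IsAlgClosed κ] [CharZero κ] [Field K] [Algebra κ K]

theorem meetSet_finite (hK : IsFF κ K) {L : Type*} [Field L] [Algebra κ L]
    [Algebra K L] [IsScalarTower κ K L] [FiniteDimensional K L] {s q : ℕ} (d : Fin q → ℕ)
    (a : Fin q → (Fin s →₀ ℕ) → K) (S : Set (Place κ K)) {x : Fin s → L} (hx : x ≠ 0) :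
    (meetSet d a S x).Finite := by
  have hL : IsFF κ L := hK.of_finite
  have h1 : ∀ j : Fin q, {w : Place κ L | Fval (d j) (fun I => algebraMap K L (a j I)) x ≠ 0 ∧
      w.1 (Fval (d j) (fun I => algebraMap K L (a j I)) x) ≠ 1}.Finite := by
    intro j
    by_cases hj : Fval (d j) (fun I => algebraMap K L (a j I)) x = 0
    · refine Set.Finite.subset Set.finite_empty fun w hw => hw.1 hj
    · exact (hL.place_finite hj).subset fun w hw => hw.2
  refine ((Set.finite_iUnion h1).union (hL.vmax_finite hx)).subset fun w hw => ?_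
  obtain ⟨-, j, hj, hlt⟩ := hw
  by_cases hv : vmax w.1 x = 1
  · left
    refine Set.mem_iUnion.mpr ⟨j, hj, fun h2 => ?_⟩
    rw [h2, hv, one_pow] at hlt
    exact lt_irrefl _ hlt
  · right
    exact hv

/-- the places of `L` over a finite set of places -/
theorem over_card (hK : IsFF κ K) {T : Set (Place κ K)} (hT : T.Finite) {L : Type*} [Field L]
    [Algebra κ L] [Algebra K L] [IsScalarTower κ K L] [FiniteDimensional K L] :
    {w : Place κ L | below K w ∈ T}.Finite ∧
      (({w : Place κ L | below K w ∈ T}.ncard : ℕ) : ℤ) ≤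
        ((T.ncard : ℕ) : ℤ) * Module.finrank K L := by
  classical
  have hL : IsFF κ L := hK.of_finite
  induction T, hT using Set.Finite.induction_on with
  | empty => simp
  | @insert v T hv hT ih =>
    obtain ⟨U, -, hU, hsum⟩ := hL.exists_over (K := K) v
    have e : {w : Place κ L | below K w ∈ insert v T} =
        ↑U ∪ {w : Place κ L | below K w ∈ T} := by
      ext w
      simp only [Set.mem_ofPred_eq, Set.mem_insert_iff, Set.mem_union, Finset.mem_coe, hU]
    rw [e]
    refine ⟨U.finite_toSet.union ih.1, ?_⟩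
    have h1 : (U.card : ℤ) ≤ Module.finrank K L := by
      rw [← hsum]
      calc (U.card : ℤ) = ∑ w ∈ U, (1 : ℤ) := by simp
        _ ≤ ∑ w ∈ U, (ramIdx K w.1 : ℤ) := by
            refine Finset.sum_le_sum fun w _ => ?_
            have := one_le_ramIdx (K := K) w.1 w.2.1
            exact_mod_cast this
    have h2 := Set.ncard_union_le (↑U : Set (Place κ L)) {w : Place κ L | below K w ∈ T}
    rw [Set.ncard_coe_finset] at h2
    rw [Set.ncard_insert_of_notMem hv hT]
    have h3 : ((((↑U : Set (Place κ L)) ∪ {w : Place κ L | below K w ∈ T}).ncard : ℕ) : ℤ) ≤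
        (U.card : ℤ) + (({w : Place κ L | below K w ∈ T}.ncard : ℕ) : ℤ) := by
      exact_mod_cast h2
    have h4 := ih.2
    push_cast
    linarith

/-- If a form vanishes at a point of the line but not at the point `x` of the line, then the two
points meet only at places at which `x` meets the form, at places at which the line degenerates
and at places over a finite set. -/
theorem meet_point (hK : IsFF κ K) {s q : ℕ} (d : Fin q → ℕ) (a : Fin q → (Fin s →₀ ℕ) → K)
    {S : Set (Place κ K)} (hS : S.Finite) :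
    ∃ C : ℕ, ∀ (L : Type w) [Field L] [Algebra κ L] [Algebra K L] [IsScalarTower κ K L]
      [FiniteDimensional K L] (x p' Q : Fin s → L) (i₀ j₀ : Fin s), plu x p' i₀ j₀ ≠ 0 →
      (∃ α β : L, Q = fun k => x k * α + p' k * β) → ∀ f : Fin q,
      Fval (d f) (fun I => algebraMap K L (a f I)) Q = 0 →
      Fval (d f) (fun I => algebraMap K L (a f I)) x ≠ 0 →
      (({w : Place κ L | w.1 (plu x Q i₀ j₀) < vmax w.1 x * vmax w.1 Q}.ncard : ℕ) : ℤ) ≤
        ((meetSet (κ := κ) d a S x).ncard : ℤ) + height κ (pluV x p') +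
          (C : ℤ) * Module.finrank K L := by
  classical
  set B : Set (Place κ K) := ⋃ f : Fin q, ⋃ I ∈ (expo (Fin s) (d f) : Set (Fin s →₀ ℕ)),
    {v : Place κ K | 1 < v.1 (a f I)} with hB
  have hBfin : B.Finite := by
    refine Set.finite_iUnion fun f => Set.Finite.biUnion (Finset.finite_toSet _) fun I _ => ?_
    by_cases h0 : a f I = 0
    · refine Set.Finite.subset Set.finite_empty fun v hv => ?_
      have hv' : 1 < v.1 (a f I) := hv
      rw [h0, map_zero] at hv'
      exact absurd hv' (not_lt.mpr zero_le)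
    · exact (hK.place_finite h0).subset fun v hv => ne_of_gt hv
  have hT : (S ∪ B).Finite := hS.union hBfin
  refine ⟨(S ∪ B).ncard, ?_⟩
  intro L _ _ _ _ _ x p' Q i₀ j₀ hij hline f hFQ hFx
  have hL : IsFF κ L := hK.of_finite
  have hxn : x ≠ 0 := plu_ne_left hij
  obtain ⟨hofin, hocard⟩ := over_card hK hT (L := L)
  have hz : pluV x p' (i₀, j₀) ≠ 0 := hij
  obtain ⟨hcfin, hccard⟩ := ncard_coord_lt hL hz
  have hmfin := meetSet_finite hK d a S hxn
  have hsub : {w : Place κ L | w.1 (plu x Q i₀ j₀) < vmax w.1 x * vmax w.1 Q} ⊆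
      meetSet (κ := κ) d a S x ∪ ({w : Place κ L | w.1 (pluV x p' (i₀, j₀)) <
        vmax w.1 (pluV x p')} ∪ {w : Place κ L | below K w ∈ S ∪ B}) := by
    intro w hw
    by_contra hcon
    have hc1 : w ∉ meetSet (κ := κ) d a S x := fun h1 => hcon (Or.inl h1)
    have hc2 : ¬ (w.1 (pluV x p' (i₀, j₀)) < vmax w.1 (pluV x p')) :=
      fun h1 => hcon (Or.inr (Or.inl h1))
    have hc3 : below K w ∉ S ∪ B := fun h1 => hcon (Or.inr (Or.inr h1))
    have hw' : w.1 (plu x Q i₀ j₀) < vmax w.1 x * vmax w.1 Q := hw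
    have hxp : 0 < vmax w.1 x := zero_lt_iff.mpr (vmax_ne _ hxn)
    have hQn : Q ≠ 0 := by
      rintro rfl
      rw [(vmax_eq_zero_iff w.1).mpr rfl, mul_zero] at hw'
      exact absurd hw' (not_lt.mpr zero_le)
    have hpi : ∀ k l, w.1 (plu x p' k l) ≤ w.1 (plu x p' i₀ j₀) := fun k l =>
      (le_vmax w.1 (pluV x p') (k, l)).trans (not_lt.mp hc2)
    have hpn : w.1 (plu x p' i₀ j₀) ≠ 0 := (w.1.ne_zero_iff).mpr hij
    -- points of the line
    have hpt : ∀ P : Fin s → L, (∃ α β : L, P = fun k => x k * α + p' k * β) → ∀ k,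
        w.1 (P k) ≤ max (w.1 (P i₀)) (w.1 (P j₀)) := by
      intro P hP k
      have h1 := plu_line hP i₀ j₀ k
      have h2 : w.1 (plu x p' i₀ j₀) * w.1 (P k) ≤
          w.1 (plu x p' i₀ j₀) * max (w.1 (P i₀)) (w.1 (P j₀)) := by
        rw [← map_mul, h1]
        refine (Valuation.map_sub w.1 _ _).trans (max_le ?_ ?_)
        · rw [map_mul, mul_comm]
          exact mul_le_mul' (hpi _ _) (le_max_right _ _)
        · rw [map_mul, mul_comm]
          exact mul_le_mul' (hpi _ _) (le_max_left _ _)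
      exact (mul_le_mul_iff_right₀ (zero_lt_iff.mpr hpn)).mp h2
    obtain ⟨α, β, hαβ⟩ := hline
    -- the maximal coordinate of `Q`
    have hm : ∃ m, Q m ≠ 0 ∧ vmax w.1 Q = w.1 (Q m) ∧
        ∀ k, w.1 (Q m * x k - x m * Q k) ≤ w.1 (plu x Q i₀ j₀) := by
      have hline' : ∀ m, ∃ α' β' : L, (fun k => Q m * x k - x m * Q k) =
          fun k => x k * α' + p' k * β' := by
        intro m
        refine ⟨Q m - x m * α, - x m * β, ?_⟩
        funext k
        rw [hαβ]
        ring
      rcases le_total (w.1 (Q i₀)) (w.1 (Q j₀)) with hle | hle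
      · have e1 : vmax w.1 Q = w.1 (Q j₀) := by
          refine le_antisymm (vmax_le _ fun k => ?_) (le_vmax _ _ _)
          exact (hpt Q ⟨α, β, hαβ⟩ k).trans (max_le hle le_rfl)
        refine ⟨j₀, ?_, e1, ?_⟩
        · intro h0
          rw [h0, map_zero] at e1
          exact vmax_ne w.1 hQn e1
        · intro k
          refine (hpt _ (hline' j₀) k).trans (max_le ?_ ?_)
          · have e2 : Q j₀ * x i₀ - x j₀ * Q i₀ = plu x Q i₀ j₀ := by
              unfold plu
              ring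
            simp only [e2, le_refl]
          · have e2 : Q j₀ * x j₀ - x j₀ * Q j₀ = 0 := by ring
            simp only [e2, map_zero, zero_le]
      · have e1 : vmax w.1 Q = w.1 (Q i₀) := by
          refine le_antisymm (vmax_le _ fun k => ?_) (le_vmax _ _ _)
          exact (hpt Q ⟨α, β, hαβ⟩ k).trans (max_le le_rfl hle)
        refine ⟨i₀, ?_, e1, ?_⟩
        · intro h0
          rw [h0, map_zero] at e1
          exact vmax_ne w.1 hQn e1
        · intro k
          refine (hpt _ (hline' i₀) k).trans (max_le ?_ ?_)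
          · have e2 : Q i₀ * x i₀ - x i₀ * Q i₀ = 0 := by ring
            simp only [e2, map_zero, zero_le]
          · have e2 : Q i₀ * x j₀ - x i₀ * Q j₀ = - plu x Q i₀ j₀ := by
              unfold plu
              ring
            simp only [e2, Valuation.map_neg, le_refl]
    obtain ⟨m, hm0, hmax, hmk⟩ := hm
    have hmp : 0 < w.1 (Q m) := zero_lt_iff.mpr ((w.1.ne_zero_iff).mpr hm0)
    set lam : L := x m / Q m with hlam
    have hd1 : ∀ k, w.1 (x k - lam * Q k) < vmax w.1 x := by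
      intro k
      have e2 : Q m * (x k - lam * Q k) = Q m * x k - x m * Q k := by
        rw [hlam]
        field_simp
      have h1 : w.1 (Q m) * w.1 (x k - lam * Q k) < w.1 (Q m) * vmax w.1 x := by
        rw [← map_mul, e2]
        refine (hmk k).trans_lt ?_
        rw [mul_comm, ← hmax]
        exact hw'
      exact (mul_lt_mul_iff_right₀ hmp).mp h1
    have hd2 : ∀ k, w.1 (lam * Q k) ≤ vmax w.1 x := by
      intro k
      have e2 : Q m * (lam * Q k) = x m * Q k := by
        rw [hlam]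
        field_simp
      have h1 : w.1 (Q m) * w.1 (lam * Q k) ≤ w.1 (Q m) * vmax w.1 x := by
        rw [← map_mul, e2, map_mul, mul_comm (w.1 (Q m))]
        refine mul_le_mul' (le_vmax _ _ _) ?_
        rw [← hmax]
        exact le_vmax _ _ _
      exact (mul_le_mul_iff_right₀ hmp).mp h1
    have hcoef : ∀ I ∈ expo (Fin s) (d f), w.1 (algebraMap K L (a f I)) ≤ 1 := by
      intro I hI
      rw [below_pow]
      refine pow_le_one' (not_lt.mp fun h1 => hc3 (Or.inr ?_)) _
      exact Set.mem_iUnion.mpr ⟨f, Set.mem_iUnion₂.mpr ⟨I, hI, h1⟩⟩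
    have hlt := Fval_sub_lt w.1 (vmax_ne _ hxn) (fun k => le_vmax w.1 x k) hd2 hd1 (d f)
      (fun I => algebraMap K L (a f I)) hcoef
    rw [Fval_smul, hFQ, mul_zero, sub_zero] at hlt
    exact hc1 ⟨fun h1 => hc3 (Or.inl h1), f, hFx, hlt⟩
  have h1 := Set.ncard_le_ncard hsub (hmfin.union (hcfin.union hofin))
  have h2 := Set.ncard_union_le (meetSet (κ := κ) d a S x) ({w : Place κ L |
    w.1 (pluV x p' (i₀, j₀)) < vmax w.1 (pluV x p')} ∪ {w : Place κ L | below K w ∈ S ∪ B})
  have h3 := Set.ncard_union_le {w : Place κ L |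
    w.1 (pluV x p' (i₀, j₀)) < vmax w.1 (pluV x p')} {w : Place κ L | below K w ∈ S ∪ B}
  have h4 : (({w : Place κ L | w.1 (plu x Q i₀ j₀) < vmax w.1 x * vmax w.1 Q}.ncard : ℕ) : ℤ) ≤
      ((meetSet (κ := κ) d a S x).ncard : ℤ) + ((({w : Place κ L |
        w.1 (pluV x p' (i₀, j₀)) < vmax w.1 (pluV x p')}.ncard : ℕ) : ℤ) +
        (({w : Place κ L | below K w ∈ S ∪ B}.ncard : ℕ) : ℤ)) := by
    exact_mod_cast h1.trans (h2.trans (Nat.add_le_add_left h3 _))
  linarith

/-- the bound for a point of a line which contains three points of the divisor -/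
theorem cross_main (hK : IsFF κ K) {s q : ℕ} (d : Fin q → ℕ) (a : Fin q → (Fin s →₀ ℕ) → K)
    {S : Set (Place κ K)} (hS : S.Finite) :
    ∃ C : ℕ, ∀ (L : Type w) [Field L] [Algebra κ L] [Algebra K L] [IsScalarTower κ K L]
      [FiniteDimensional K L] (x p' : Fin s → L) (i₀ j₀ : Fin s), plu x p' i₀ j₀ ≠ 0 →
      ∀ (Q : Fin 3 → Fin s → L) (f : Fin 3 → Fin q),
      (∀ i, ∃ α β : L, Q i = fun k => x k * α + p' k * β) →
      (∀ i j, i ≠ j → plu (Q i) (Q j) i₀ j₀ ≠ 0) →
      (∀ i, Fval (d (f i)) (fun I => algebraMap K L (a (f i) I)) (Q i) = 0) →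
      (∀ i, Fval (d (f i)) (fun I => algebraMap K L (a (f i) I)) x ≠ 0) →
      height κ x ≤ 3 * ((meetSet (κ := κ) d a S x).ncard : ℤ) + 3 * ∑ i, height κ (Q i) +
        3 * height κ (pluV x p') + (ramDeg κ L K : ℤ) + (C : ℤ) * Module.finrank K L := by
  obtain ⟨C₁, hC₁⟩ := meet_point hK d a hS
  obtain ⟨C₂, hC₂⟩ := mason (κ := κ) (K := K) hK
  refine ⟨3 * C₁ + C₂, ?_⟩
  intro L _ _ _ _ _ x p' i₀ j₀ hij Q f hline hQQ hFQ hFx
  have hL : IsFF κ L := hK.of_finite
  have hxQ : ∀ i, plu x (Q i) i₀ j₀ ≠ 0 := by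
    intro i
    obtain ⟨α, β, hαβ⟩ := hline i
    have e : plu x (Q i) i₀ j₀ = β * plu x p' i₀ j₀ := by
      rw [hαβ]
      unfold plu
      ring
    rw [e]
    refine mul_ne_zero (fun h0 => ?_) hij
    have e1 : Q i = fun k => α * x k := by
      rw [hαβ, h0]
      funext k
      ring
    have h1 := hFQ i
    rw [e1, Fval_smul] at h1
    have h2 : α ^ d (f i) = 0 := (mul_eq_zero.mp h1).resolve_right (hFx i)
    have h3 : α = 0 := eq_zero_of_pow_eq_zero h2
    have h4 : Q i = 0 := by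
      rw [e1, h3]
      funext k
      simp
    have h5 : ∀ i : Fin 3, i + 1 ≠ i := by decide
    exact plu_ne_right (hQQ (i + 1) i (h5 i)) h4
  obtain ⟨y, hy0, hy1, hhx, hsub⟩ := cross_ratio hL hij hline hQQ hxQ
  have hm := hC₂ L y hy0 hy1
  have hfin1 : ∀ i, {w : Place κ L | w.1 (plu x (Q i) i₀ j₀) <
      vmax w.1 x * vmax w.1 (Q i)}.Finite := fun i => (ncard_plu_lt hL (hxQ i)).1
  have hne : ∀ i : Fin 3, i ≠ i + 1 := by decide
  have hfin2 : ∀ i : Fin 3, {w : Place κ L | w.1 (plu (Q i) (Q (i + 1)) i₀ j₀) <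
      vmax w.1 (Q i) * vmax w.1 (Q (i + 1))}.Finite := fun i =>
    (ncard_plu_lt hL (hQQ i (i + 1) (hne i))).1
  have hc1 : ∀ i, (({w : Place κ L | w.1 (plu x (Q i) i₀ j₀) <
      vmax w.1 x * vmax w.1 (Q i)}.ncard : ℕ) : ℤ) ≤
      ((meetSet (κ := κ) d a S x).ncard : ℤ) + height κ (pluV x p') +
          (C₁ : ℤ) * Module.finrank K L := fun i =>
    hC₁ L x p' (Q i) i₀ j₀ hij (hline i) (f i) (hFQ i) (hFx i)
  have hc2 : ∀ i : Fin 3, (({w : Place κ L | w.1 (plu (Q i) (Q (i + 1)) i₀ j₀) <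
      vmax w.1 (Q i) * vmax w.1 (Q (i + 1))}.ncard : ℕ) : ℤ) ≤
      height κ (Q i) + height κ (Q (i + 1)) := fun i =>
    (ncard_plu_lt hL (hQQ i (i + 1) (hne i))).2
  have hun : ∀ A : Fin 3 → Set (Place κ L), (⋃ i, A i).ncard ≤
      (A 0).ncard + (A 1).ncard + (A 2).ncard := by
    intro A
    have e : (⋃ i, A i) = A 0 ∪ A 1 ∪ A 2 := by
      ext w
      rw [Set.mem_iUnion]
      constructor
      · rintro ⟨i, hi⟩
        fin_cases i
        · exact Or.inl (Or.inl hi)
        · exact Or.inl (Or.inr hi)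
        · exact Or.inr hi
      · rintro ((hi | hi) | hi)
        · exact ⟨0, hi⟩
        · exact ⟨1, hi⟩
        · exact ⟨2, hi⟩
    rw [e]
    exact (Set.ncard_union_le _ _).trans (Nat.add_le_add_right (Set.ncard_union_le _ _) _)
  have hle := Set.ncard_le_ncard hsub ((Set.finite_iUnion hfin1).union (Set.finite_iUnion hfin2))
  have hle2 := hle.trans (Set.ncard_union_le _ _)
  have hle3 := hle2.trans (Nat.add_le_add (hun _) (hun _))
  have hle4 : (({w : Place κ L | w.1 y ≠ 1 ∨ w.1 (1 - y) ≠ 1}.ncard : ℕ) : ℤ) ≤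
      3 * (((meetSet (κ := κ) d a S x).ncard : ℤ) + height κ (pluV x p') +
          (C₁ : ℤ) * Module.finrank K L) + 2 * ∑ i, height κ (Q i) := by
    have h0 := hc1 0
    have h1 := hc1 1
    have h2 := hc1 2
    have k0 : _ ≤ height κ (Q 0) + height κ (Q 1) := hc2 0
    have k1 : _ ≤ height κ (Q 1) + height κ (Q 2) := hc2 1
    have k2 : _ ≤ height κ (Q 2) + height κ (Q 0) := hc2 2
    rw [Fin.sum_univ_three]
    have hle5 := (Int.ofNat_le.mpr hle3)
    push_cast at hle5
    linarith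
  push_cast
  linarith

end Two

end Pool.Agent.Lib.MP_44a246_ntL
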