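import Mathlib
import Pool.Agent.Lib.MP_44a246_ntL.LFF

/-!
The ramification of the field generated by several points.
-/

namespace Pool.Agent.Lib.MP_44a246_ntL

open Pool.Agent.Lib.MP_e52354_nt
open Pool.Agent.Lib.MP_44a246_nt
open WithZero

variable {κ L M : Type*} [Field κ] [IsAlgClosed κ] [CharZero κ]
  [Field L] [Algebra κ L] [Field M] [Algebra κ M]
  [Algebra L M] [IsScalarTower κ L M] [FiniteDimensional L M]

theorem vmax_segre {k s : ℕ} (v : Valuation M ℤᵐ⁰) (Q : Fin k → Fin s → M) (hQ : ∀ i, Q i ≠ 0) :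
    vmax v (fun j : Fin k → Fin s => ∏ i, Q i (j i)) = ∏ i, vmax v (Q i) := by
  apply le_antisymm
  · refine vmax_le _ fun j => ?_
    rw [map_prod]
    exact Finset.prod_le_prod' fun i _ => le_vmax v (Q i) (j i)
  · choose l hl0 hl hmax using fun i => exists_vmax v (hQ i)
    have h1 : ∏ i, vmax v (Q i) = v (∏ i, Q i (l i)) := by
      rw [map_prod]
      exact Finset.prod_congr rfl fun i _ => hl i
    rw [h1]
    exact le_vmax v (fun j : Fin k → Fin s => ∏ i, Q i (j i)) l

theorem log_prod_aux {ι : Type*} (t : Finset ι) (f : ι → ℤᵐ⁰) (hf : ∀ i ∈ t, f i ≠ 0) :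
    log (∏ i ∈ t, f i) = ∑ i ∈ t, log (f i) := by
  classical
  induction t using Finset.induction_on with
  | empty => simp
  | insert i t hi ih =>
    rw [Finset.prod_insert hi, Finset.sum_insert hi,
      log_mul (hf i (Finset.mem_insert_self i t))
        (Finset.prod_ne_zero_iff.2 fun j hj => hf j (Finset.mem_insert_of_mem hj)),
      ih fun j hj => hf j (Finset.mem_insert_of_mem hj)]

/-- the height of the Segre product of several points -/
theorem height_segre (hM : IsFF κ M) {k s : ℕ} (Q : Fin k → Fin s → M) (hQ : ∀ i, Q i ≠ 0) :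
    height κ (fun j : Fin k → Fin s => ∏ i, Q i (j i)) = ∑ i, height κ (Q i) := by
  unfold height
  have h1 : ∀ v : Place κ M, log (vmax v.1 (fun j : Fin k → Fin s => ∏ i, Q i (j i))) =
      ∑ i, log (vmax v.1 (Q i)) := by
    intro v
    rw [vmax_segre v.1 Q hQ, log_prod_aux]
    intro i _
    rw [Ne, vmax_eq_zero_iff]
    exact hQ i
  rw [finsum_congr h1, finsum_sum_comm]
  intro i _
  exact hM.vmax_support (hQ i)

theorem ram_points (hL : IsFF κ L) {k s : ℕ} (Q : Fin k → Fin s → M) (hQ : ∀ i, Q i ≠ 0)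
    (hgen : ⨆ i, pointField L (Q i) = ⊤) :
    (ramDeg κ M L : ℤ) ≤ 2 * ((Module.finrank L M : ℤ) - 1) * ∑ i, height κ (Q i) := by
  classical
  have hM : IsFF κ M := hL.of_finite
  have hex : ∀ i, ∃ l, Q i l ≠ 0 := by
    intro i
    by_contra hcon
    push Not at hcon
    exact hQ i (funext hcon)
  choose l hl using hex
  have hcard : 0 < Fintype.card (Fin k → Fin s) := Fintype.card_pos_iff.2 ⟨l⟩
  obtain ⟨N, hN⟩ : ∃ N, Fintype.card (Fin k → Fin s) = N + 1 := ⟨_, (Nat.succ_pred_eq_of_pos hcard).symm⟩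
  let e : (Fin k → Fin s) ≃ Fin (N + 1) := Fintype.equivFinOfCardEq hN
  set x : Fin (N + 1) → M := fun t => ∏ i, Q i (e.symm t i) with hx
  have hxe : ∀ j, x (e j) = ∏ i, Q i (j i) := fun j => by rw [hx]; simp
  have hx0 : x ≠ 0 := by
    intro h
    have h1 := congrFun h (e l)
    rw [hxe, Pi.zero_apply, Finset.prod_eq_zero_iff] at h1
    obtain ⟨i, -, hi⟩ := h1
    exact hl i hi
  have hheight : height κ x = ∑ i, height κ (Q i) := by
    rw [← height_segre hM Q hQ]
    unfold height
    refine finsum_congr fun v => ?_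
    congr 1
    apply le_antisymm
    · refine vmax_le _ fun t => ?_
      exact le_vmax v.1 (fun j : Fin k → Fin s => ∏ i, Q i (j i)) (e.symm t)
    · refine vmax_le _ fun j => ?_
      rw [← hxe j]
      exact le_vmax v.1 x (e j)
  have hpf : pointField L x = ⊤ := by
    rw [eq_top_iff, ← hgen]
    refine iSup_le fun i => ?_
    unfold pointField
    rw [IntermediateField.adjoin_le_iff]
    rintro z ⟨a, b, rfl⟩
    by_cases hb : Q i b = 0
    · rw [hb, div_zero]
      exact zero_mem _
    · refine IntermediateField.subset_adjoin _ _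
        ⟨e (Function.update l i a), e (Function.update l i b), ?_⟩
      rw [hxe, hxe]
      have h1 : ∀ c, ∏ t, Q t (Function.update l i c t) =
          Q i c * ∏ t ∈ Finset.univ.erase i, Q t (l t) := by
        intro c
        rw [← Finset.mul_prod_erase Finset.univ _ (Finset.mem_univ i), Function.update_self]
        congr 1
        refine Finset.prod_congr rfl fun t ht => ?_
        rw [Function.update_of_ne (Finset.ne_of_mem_erase ht)]
      have h2 : ∏ t ∈ Finset.univ.erase i, Q t (l t) ≠ 0 :=
        Finset.prod_ne_zero_iff.2 fun t _ => hl t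
      rw [h1, h1, mul_div_mul_right _ _ h2]
  have h := IsFF.ram_point hL x hx0 hpf
  rwa [hheight] at h

end Pool.Agent.Lib.MP_44a246_ntL
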