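import Mathlib
import Pool.Agent.Lib.MP_44a246_ntL.LFF

/-!
Towers of function fields: ramification and numbers of places.
-/

namespace Pool.Agent.Lib.MP_44a246_ntL

open Pool.Agent.Lib.MP_e52354_nt
open Pool.Agent.Lib.MP_44a246_nt
open WithZero

variable {κ K L M : Type*} [Field κ] [IsAlgClosed κ] [CharZero κ] [Field K] [Algebra κ K]
  [Field L] [Algebra κ L] [Algebra K L] [IsScalarTower κ K L] [FiniteDimensional K L]
  [Field M] [Algebra κ M] [Algebra K M] [IsScalarTower κ K M] [FiniteDimensional K M]
  [Algebra L M] [IsScalarTower κ L M] [IsScalarTower K L M] [FiniteDimensional L M]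

theorem below_below (w : Place κ M) : below K (below L w) = below K w := by
  refine below_eq fun x hx => ?_
  have h1 := below_pow (K := L) w (algebraMap K L x)
  have h2 := below_pow (K := K) w x
  rw [← IsScalarTower.algebraMap_apply K L M, h2] at h1
  have he := one_le_ramIdx (K := L) w.1 w.2.1
  by_contra hcon
  push Not at hcon
  have h3 : 1 < (below L w).1 (algebraMap K L x) ^ ramIdx L w.1 := one_lt_pow₀ hcon (by omega)
  rw [← h1] at h3
  exact absurd (pow_le_one₀ zero_le hx) (not_le.mpr h3)

theorem ramIdx_mul (w : Place κ M) :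
    ramIdx K w.1 = ramIdx L w.1 * ramIdx K (below L w).1 := by
  obtain ⟨x, hx⟩ := (below K w).2.1 (exp (-1 : ℤ))
  have h1 := below_pow (K := L) w (algebraMap K L x)
  have h2 := below_pow (K := K) w x
  have h3 := below_pow (K := K) (below L w) x
  rw [← IsScalarTower.algebraMap_apply K L M, h2, h3, below_below, hx, ← pow_mul,
    ← exp_nsmul, ← exp_nsmul, exp_inj] at h1
  simp only [nsmul_eq_mul, mul_neg, mul_one, neg_inj] at h1
  have h4 : ramIdx K w.1 = ramIdx K (below L w).1 * ramIdx L w.1 := by exact_mod_cast h1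
  rw [h4, mul_comm]

omit [Algebra K L] [IsScalarTower κ K L] [FiniteDimensional K L] [IsScalarTower K L M]
  [Algebra K M] [IsScalarTower κ K M] [FiniteDimensional K M] [Field K] [Algebra κ K] in
theorem ncard_above (hM : IsFF κ M) (T : Set (Place κ L)) (hT : T.Finite) :
    {w : Place κ M | below L w ∈ T}.Finite ∧
      {w : Place κ M | below L w ∈ T}.ncard ≤ Module.finrank L M * T.ncard := by
  classical
  choose S hS1 hS2 hS3 using fun v : Place κ L => hM.exists_over (K := L) v
  have hcard : ∀ v, (S v).card ≤ Module.finrank L M := by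
    intro v
    have h1 : (((S v).card : ℕ) : ℤ) ≤ ∑ w ∈ S v, (ramIdx L w.1 : ℤ) := by
      rw [Finset.card_eq_sum_ones, Nat.cast_sum]
      refine Finset.sum_le_sum fun w _ => ?_
      have := one_le_ramIdx (K := L) w.1 w.2.1
      exact_mod_cast this
    rw [hS3] at h1
    exact_mod_cast h1
  have hset : {w : Place κ M | below L w ∈ T} = ((hT.toFinset.biUnion S : Finset (Place κ M)) :
      Set (Place κ M)) := by
    ext w
    rw [Set.mem_ofPred_eq, Finset.mem_coe, Finset.mem_biUnion]
    constructor
    · intro h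
      exact ⟨below L w, hT.mem_toFinset.2 h, (hS2 _ w).2 rfl⟩
    · rintro ⟨v, hv, hw⟩
      rw [(hS2 v w).1 hw]
      exact hT.mem_toFinset.1 hv
  constructor
  · rw [hset]; exact Finset.finite_toSet _
  · rw [hset, Set.ncard_coe_finset, Set.ncard_eq_toFinset_card T hT, mul_comm]
    exact Finset.card_biUnion_le_card_mul _ _ _ fun v _ => hcard v

theorem ramDeg_trans (hK : IsFF κ K) :
    ramDeg κ M K ≤ ramDeg κ M L + Module.finrank L M * ramDeg κ L K := by
  classical
  have hL : IsFF κ L := hK.of_finite
  have hM : IsFF κ M := hK.of_finite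
  choose S hS1 hS2 hS3 using fun v : Place κ L => hM.exists_over (K := L) v
  have key : ∀ w : Place κ M, ramIdx K w.1 - 1 =
      (ramIdx L w.1 - 1) + ramIdx L w.1 * (ramIdx K (below L w).1 - 1) := by
    intro w
    have h1 := one_le_ramIdx (K := L) w.1 w.2.1
    have h2 := one_le_ramIdx (K := K) (below L w).1 (below L w).2.1
    rw [ramIdx_mul (K := K) (L := L) w]
    obtain ⟨a, ha⟩ := Nat.exists_eq_add_of_le h1
    obtain ⟨b, hb⟩ := Nat.exists_eq_add_of_le h2
    rw [ha, hb]
    simp only [Nat.add_sub_cancel_left]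
    have : (1 + a) * (1 + b) = 1 + (a + (1 + a) * b) := by ring
    rw [this, Nat.add_sub_cancel_left]
  have hfinL : {v : Place κ L | ramIdx K v.1 ≠ 1}.Finite := hL.ramIdx_finite
  have hfinM : {v : Place κ M | ramIdx L v.1 ≠ 1}.Finite := hM.ramIdx_finite
  have hsupp1 : (Function.support fun w : Place κ M => ramIdx L w.1 - 1).Finite := by
    refine hfinM.subset fun w hw h => hw ?_
    simp only [h, Nat.sub_self]
  have hg0 : ∀ w : Place κ M, below L w ∉ hfinL.toFinset →
      ramIdx L w.1 * (ramIdx K (below L w).1 - 1) = 0 := by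
    intro w hw
    have h1 : ramIdx K (below L w).1 = 1 := by
      by_contra h2
      exact hw (hfinL.mem_toFinset.2 h2)
    rw [h1, Nat.sub_self, mul_zero]
  have hsub : (Function.support fun w : Place κ M =>
      ramIdx L w.1 * (ramIdx K (below L w).1 - 1)) ⊆
      ((hfinL.toFinset.biUnion S : Finset (Place κ M)) : Set (Place κ M)) := by
    intro w hw
    rw [Finset.mem_coe, Finset.mem_biUnion]
    refine ⟨below L w, ?_, (hS2 _ w).2 rfl⟩
    by_contra h
    exact hw (hg0 w h)
  have hsupp2 : (Function.support fun w : Place κ M =>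
      ramIdx L w.1 * (ramIdx K (below L w).1 - 1)).Finite :=
    (Finset.finite_toSet _).subset hsub
  have e1 : ramDeg κ M K = ramDeg κ M L +
      ∑ᶠ w : Place κ M, ramIdx L w.1 * (ramIdx K (below L w).1 - 1) := by
    rw [ramDeg, ramDeg, ← finsum_add_distrib hsupp1 hsupp2]
    exact finsum_congr key
  have e2 : ∑ᶠ w : Place κ M, ramIdx L w.1 * (ramIdx K (below L w).1 - 1) =
      Module.finrank L M * ramDeg κ L K := by
    have hsub2 : (Function.support fun v : Place κ L => ramIdx K v.1 - 1) ⊆
        ((hfinL.toFinset : Finset (Place κ L)) : Set (Place κ L)) := by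
      intro v hv
      rw [Finset.mem_coe, hfinL.mem_toFinset]
      intro h
      exact hv (by simp only [h, Nat.sub_self])
    rw [finsum_eq_sum_of_support_subset _ hsub, ramDeg, finsum_eq_sum_of_support_subset _ hsub2,
      Finset.sum_biUnion, Finset.mul_sum]
    · refine Finset.sum_congr rfl fun v _ => ?_
      have h1 : ∀ w ∈ S v, ramIdx L w.1 * (ramIdx K (below L w).1 - 1) =
          ramIdx L w.1 * (ramIdx K v.1 - 1) := by
        intro w hw
        rw [(hS2 v w).1 hw]
      rw [Finset.sum_congr rfl h1, ← Finset.sum_mul]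
      congr 1
      have := hS3 v
      exact_mod_cast this
    · intro v _ v' _ hvv'
      rw [Function.onFun, Finset.disjoint_left]
      intro w hw hw'
      exact hvv' (((hS2 v w).1 hw).symm.trans ((hS2 v' w).1 hw'))
  rw [e1, e2]

end Pool.Agent.Lib.MP_44a246_ntL
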