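import Mathlib
import Pool.Agent.Lib.MP_44a246_ntL.LCross
import Pool.Agent.Lib.MP_44a246_ntL.LTrans
import Pool.Agent.Lib.MP_44a246_ntL.LRamExt

/-!
Points on lines of bounded height.
-/

namespace Pool.Agent.Lib.MP_44a246_ntL

open Pool.Agent.Lib.MP_e52354_nt
open Pool.Agent.Lib.MP_e52354_ntG
open Pool.Agent.Lib.MP_44a246_nt
open WithZero

universe w

open Classical in
/-- the product of the forms not vanishing at `x`, restricted to the points `p' + X x` -/
noncomputable def restP {L : Type*} [Field L] {s q : ℕ} (d : Fin q → ℕ)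
    (a : Fin q → (Fin s →₀ ℕ) → L) (x p' : Fin s → L) : Polynomial L :=
  ∏ j with Fval (d j) (a j) x ≠ 0, lineP (d j) (a j) p' x

/-- The line through `x` and `p'` is exceptional: the forms vanishing at `x` vanish on the line, and
the other forms have at most two zeros on the line, over an algebraic closure. -/
def ExcLine {L : Type*} [Field L] {s q : ℕ} (d : Fin q → ℕ) (a : Fin q → (Fin s →₀ ℕ) → L)
    (x p' : Fin s → L) : Prop :=
  (∀ j, Fval (d j) (a j) x = 0 → ∀ u v : L, Fval (d j) (a j) (fun k => x k * u + p' k * v) = 0) ∧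
    ((restP d a x p').rootSet (AlgebraicClosure L)).ncard ≤ 2

/-- the parameter of a point of a line is in the field generated by the point -/
theorem mem_pointField {L M : Type*} [Field L] [Field M] [Algebra L M] {s : ℕ} {x p' : Fin s → L}
    {i j : Fin s} (hij : plu x p' i j ≠ 0) (ρ : M) :
    ρ ∈ pointField L (fun k => algebraMap L M (p' k) + algebraMap L M (x k) * ρ) := by
  set Q : Fin s → M := fun k => algebraMap L M (p' k) + algebraMap L M (x k) * ρ with hQ
  have key : ∀ i j, plu x p' i j ≠ 0 → Q i ≠ 0 → ρ ∈ pointField L Q := by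
    intro i j hij hi
    set r := Q j / Q i with hr
    have hrmem : r ∈ pointField L Q := IntermediateField.subset_adjoin L _ ⟨j, i, rfl⟩
    have h1 : r * Q i = Q j := div_mul_cancel₀ _ hi
    simp only [hQ] at h1
    have h2 : r * algebraMap L M (x i) - algebraMap L M (x j) ≠ 0 := by
      intro hcon
      have h3 : r * algebraMap L M (p' i) = algebraMap L M (p' j) := by
        linear_combination h1 - ρ * hcon
      apply hij
      apply (algebraMap L M).injective
      rw [map_zero]
      unfold plu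
      rw [map_sub, map_mul, map_mul]
      linear_combination (-(algebraMap L M (x i))) * h3 + algebraMap L M (p' i) * hcon
    have h4 : ρ = (algebraMap L M (p' j) - r * algebraMap L M (p' i)) /
        (r * algebraMap L M (x i) - algebraMap L M (x j)) := by
      rw [eq_div_iff h2]
      linear_combination h1
    rw [h4]
    exact div_mem (sub_mem (algebraMap_mem _ _) (mul_mem hrmem (algebraMap_mem _ _)))
      (sub_mem (mul_mem hrmem (algebraMap_mem _ _)) (algebraMap_mem _ _))
  by_cases hi : Q i = 0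
  · by_cases hj : Q j = 0
    · exfalso
      simp only [hQ] at hi hj
      apply hij
      apply (algebraMap L M).injective
      rw [map_zero]
      unfold plu
      rw [map_sub, map_mul, map_mul]
      linear_combination algebraMap L M (x i) * hj - algebraMap L M (x j) * hi
    · refine key j i ?_ hj
      intro hcon
      apply hij
      unfold plu at hcon ⊢
      linear_combination -hcon
  · exact key i j hij hi

theorem Fval_map {L M : Type*} [Field L] [Field M] [Algebra L M] {s : ℕ} (d : ℕ)
    (a : (Fin s →₀ ℕ) → L) (x : Fin s → L) :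
    Fval d (fun I => algebraMap L M (a I)) (fun k => algebraMap L M (x k)) =
      algebraMap L M (Fval d a x) := by
  unfold Fval mon
  rw [map_sum]
  refine Finset.sum_congr rfl fun I _ => ?_
  rw [map_mul, map_prod]
  congr 1
  exact Finset.prod_congr rfl fun j _ => by rw [map_pow]

theorem arith_one {N A m h R c : ℤ} (hN : 1 ≤ N) (hA : 0 ≤ A) (hm : 0 ≤ m) (hh : 0 ≤ h)
    (hR : 0 ≤ R) (hc : 0 ≤ c) :
    3 * m + 9 * A + 3 * h + 6 * N * A + R + c ≤ N * (3 * m + 15 * A + 3 * h + R + c) := by
  have h1 : 0 ≤ (N - 1) * (3 * m + 9 * A + 3 * h + R + c) := by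
    apply mul_nonneg <;> linarith
  have h2 : N * (3 * m + 15 * A + 3 * h + R + c) =
      (N - 1) * (3 * m + 9 * A + 3 * h + R + c) +
        (3 * m + 9 * A + 3 * h + 6 * N * A + R + c) := by ring
  linarith

theorem arith_two {D E C m h R e : ℤ} (hD : 0 ≤ D) (hE : 0 ≤ E) (hC : 0 ≤ C) (hm : 0 ≤ m)
    (hh : 0 ≤ h) (hR : 0 ≤ R) (he : 0 ≤ e) :
    3 * m + 15 * ((D + 1) * h + E * e) + 3 * h + R + C * e ≤
      (15 * (D + 1) + 3 + 15 * E + C) * (h + m + R + e) := by
  have h1 : (15 * (D + 1) + 3 + 15 * E + C) * (h + m + R + e) =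
      (3 * m + 15 * ((D + 1) * h + E * e) + 3 * h + R + C * e) +
      (15 * (D + 1) * (m + R + e) + 3 * (R + e) + 15 * E * (h + m + R) + C * (h + m + R) - R) := by
    ring
  have h2 : 0 ≤ 15 * (D + 1) * (m + R + e) := by positivity
  have h3 : 0 ≤ 15 * E * (h + m + R) := by positivity
  have h4 : 0 ≤ C * (h + m + R) := by positivity
  linarith

theorem arith_three {D E C m h R e : ℤ} (hD : 0 ≤ D) (hE : 0 ≤ E) (hC : 0 ≤ C) (hm : 0 ≤ m)
    (hh : 0 ≤ h) (hR : 0 ≤ R) (he : 0 ≤ e) :
    (D + 1) * h + E * e ≤ (D + 1 + E + C) * (h + m + R + e) := by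
  have h1 : (D + 1 + E + C) * (h + m + R + e) = ((D + 1) * h + E * e) +
      ((D + 1) * (m + R + e) + E * (h + m + R) + C * (h + m + R + e)) := by
    ring
  have h2 : 0 ≤ (D + 1) * (m + R + e) + E * (h + m + R) + C * (h + m + R + e) := by positivity
  linarith

theorem inj_three {α : Type*} {r0 r1 r2 : α} (h01 : r0 ≠ r1) (h02 : r0 ≠ r2) (h12 : r1 ≠ r2) :
    ∀ i j : Fin 3, i ≠ j → ![r0, r1, r2] i ≠ ![r0, r1, r2] j := by
  intro i j hij
  fin_cases i <;> fin_cases j <;> simp_all [Ne.symm]

theorem line_bound_M {κ K : Type*} [Field κ] [IsAlgClosed κ] [CharZero κ] [Field K] [Algebra κ K]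
    (hK : IsFF κ K) {s q : ℕ} (d : Fin q → ℕ) (a : Fin q → (Fin s →₀ ℕ) → K)
    {S : Set (Place κ K)} (hS : S.Finite) :
    ∃ C : ℕ, ∀ (L M : Type w) [Field L] [Algebra κ L] [Algebra K L] [IsScalarTower κ K L]
      [FiniteDimensional K L] [Field M] [Algebra κ M] [Algebra K M] [Algebra L M]
      [IsScalarTower κ K M] [IsScalarTower κ L M] [IsScalarTower K L M]
      [FiniteDimensional K M] [FiniteDimensional L M] (x p' : Fin s → L) (i₀ j₀ : Fin s),
      plu x p' i₀ j₀ ≠ 0 →
      ∀ (ρ : Fin 3 → M) (f : Fin 3 → Fin q), (∀ i j, i ≠ j → ρ i ≠ ρ j) →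
      (⨆ i, IntermediateField.adjoin L {ρ i} = ⊤) →
      (∀ i, Fval (d (f i)) (fun I => algebraMap K M (a (f i) I))
        (fun k => algebraMap L M (p' k) + algebraMap L M (x k) * ρ i) = 0) →
      (∀ i, Fval (d (f i)) (fun I => algebraMap K L (a (f i) I)) x ≠ 0) →
      height κ x ≤ (C : ℤ) * Module.finrank L M * (height κ (pluV x p') +
        ((meetSet (κ := κ) d a S x).ncard : ℤ) + (ramDeg κ L K : ℤ) + Module.finrank K L) := by
  classical
  choose C₁ hC₁ using fun j => line_root_height.{w} hK (d j) (a j)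
  obtain ⟨C₂, hC₂⟩ := cross_main.{w} hK d a hS
  set D : ℕ := ∑ j, d j with hD
  set E : ℕ := ∑ j, C₁ j with hE
  refine ⟨15 * (D + 1) + 3 + 15 * E + C₂, ?_⟩
  intro L M _ _ _ _ _ _ _ _ _ _ _ _ _ _ x p' i₀ j₀ hplu ρ f hρ hgen hroot hne
  have hL : IsFF κ L := hK.of_finite
  have hM : IsFF κ M := hK.of_finite
  -- the data over `M`
  set X : Fin s → M := fun k => algebraMap L M (x k) with hX
  set P : Fin s → M := fun k => algebraMap L M (p' k) with hP
  set Q : Fin 3 → Fin s → M := fun i k => algebraMap L M (p' k) + algebraMap L M (x k) * ρ i with hQ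
  have hx0 : x ≠ 0 := by
    rintro rfl
    apply hplu
    simp [plu]
  have hpV : pluV x p' ≠ 0 := fun h => hplu (congrFun h (i₀, j₀))
  have hXP : ∀ i j, plu X P i j = algebraMap L M (plu x p' i j) := by
    intro i j
    simp only [plu, hX, hP, map_sub, map_mul]
  have hXPn : plu X P i₀ j₀ ≠ 0 := by
    rw [hXP]
    exact (_root_.map_ne_zero _).2 hplu
  have hQX : ∀ i k l, plu (Q i) X k l = -algebraMap L M (plu x p' k l) := by
    intro i k l
    simp only [plu, hX, hQ, map_sub, map_mul]
    ring
  have hQQ : ∀ i j, i ≠ j → plu (Q i) (Q j) i₀ j₀ ≠ 0 := by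
    intro i j hij hcon
    have h1 : plu (Q i) (Q j) i₀ j₀ = (ρ i - ρ j) * algebraMap L M (plu x p' i₀ j₀) := by
      simp only [plu, hQ, map_sub, map_mul]
      ring
    rw [h1] at hcon
    rcases mul_eq_zero.1 hcon with h2 | h2
    · exact hρ i j hij (sub_eq_zero.1 h2)
    · exact hplu ((_root_.map_eq_zero _).1 h2)
  have hQline : ∀ i, ∃ α β : M, Q i = fun k => X k * α + P k * β := by
    intro i
    refine ⟨ρ i, 1, ?_⟩
    funext k
    simp only [hQ, hX, hP]
    ring
  have hneX : ∀ i, Fval (d (f i)) (fun I => algebraMap K M (a (f i) I)) X ≠ 0 := by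
    intro i
    have h1 : (fun I => algebraMap K M (a (f i) I)) =
        fun I => algebraMap L M (algebraMap K L (a (f i) I)) := by
      funext I
      exact IsScalarTower.algebraMap_apply K L M _
    rw [h1, Fval_map]
    exact (_root_.map_ne_zero _).2 (hne i)
  -- heights of the three points
  set N : ℤ := (Module.finrank L M : ℤ) with hN
  have hN1 : 1 ≤ N := by
    have : 0 < Module.finrank L M := Module.finrank_pos
    omega
  set h := height κ (pluV x p') with hh
  have hh0 : 0 ≤ h := hL.height_nonneg hpV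
  set e : ℤ := (Module.finrank K L : ℤ) with he
  have he0 : 0 ≤ e := by positivity
  have hKM : (Module.finrank K M : ℤ) = e * N := by
    rw [he, hN, ← Nat.cast_mul, Module.finrank_mul_finrank]
  have hpluM : height κ (pluV X P) = N * h := by
    have h1 : pluV X P = fun ij => algebraMap L M (pluV x p' ij) := by
      funext ij
      exact hXP ij.1 ij.2
    rw [h1, hM.height_ext hpV]
  have hpluQ : ∀ i, height κ (pluV (Q i) X) = N * h := by
    intro i
    have h1 : pluV (Q i) X = fun ij => (-1 : M) * algebraMap L M (pluV x p' ij) := by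
      funext ij
      rw [neg_one_mul]
      exact hQX i ij.1 ij.2
    rw [h1, hM.height_smul (x := fun ij => algebraMap L M (pluV x p' ij)) (neg_ne_zero.2 one_ne_zero),
      hM.height_ext hpV]
  have hQne : ∀ i, Q i ≠ 0 := by
    intro i hcon
    have h1 := hQX i i₀ j₀
    rw [hcon] at h1
    apply hplu
    have h2 : plu (0 : Fin s → M) X i₀ j₀ = 0 := by simp [plu]
    rw [h2] at h1
    exact (_root_.map_eq_zero _).1 (neg_eq_zero.1 h1.symm)
  have hQheight : ∀ i, height κ (Q i) ≤ N * (((D : ℤ) + 1) * h + E * e) := by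
    intro i
    have h1 := hC₁ (f i) M (Q i) X ⟨i₀, j₀, by
      rw [hQX]
      exact neg_ne_zero.2 ((_root_.map_ne_zero _).2 hplu)⟩ (hroot i) ⟨0, 1, by
      have h2 : (fun k => Q i k * 0 + X k * 1) = X := by
        funext k
        ring
      rw [h2]
      exact hneX i⟩
    rw [hpluQ, hKM] at h1
    have h3 : (d (f i) : ℤ) ≤ D := by
      have : d (f i) ≤ D := Finset.single_le_sum (f := d) (fun _ _ => Nat.zero_le _) (Finset.mem_univ _)
      exact_mod_cast this
    have h4 : (C₁ (f i) : ℤ) ≤ E := by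
      have : C₁ (f i) ≤ E :=
        Finset.single_le_sum (f := C₁) (fun _ _ => Nat.zero_le _) (Finset.mem_univ _)
      exact_mod_cast this
    calc height κ (Q i) ≤ ((d (f i) : ℤ) + 1) * (N * h) + (C₁ (f i) : ℤ) * (e * N) := h1
      _ ≤ ((D : ℤ) + 1) * (N * h) + (E : ℤ) * (e * N) := by gcongr
      _ = _ := by ring
  have hsum : ∑ i, height κ (Q i) ≤ 3 * (N * (((D : ℤ) + 1) * h + E * e)) := by
    refine (Finset.sum_le_sum fun i _ => hQheight i).trans (le_of_eq ?_)
    simp
  have hsum0 : 0 ≤ ∑ i, height κ (Q i) := Finset.sum_nonneg fun i _ => hM.height_nonneg (hQne i)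
  -- ramification
  have hgen' : ⨆ i, pointField L (Q i) = ⊤ := by
    rw [eq_top_iff, ← hgen]
    refine iSup_mono fun i => ?_
    rw [IntermediateField.adjoin_simple_le_iff]
    exact mem_pointField hplu (ρ i)
  have hram := ram_points hL Q hQne hgen'
  have hram2 := ramDeg_trans (κ := κ) (K := K) (L := L) (M := M) hK
  -- the places
  have hmeet : ((meetSet (κ := κ) d a S X).ncard : ℤ) ≤ N * ((meetSet (κ := κ) d a S x).ncard : ℤ) := by
    obtain ⟨hfin, hcard⟩ := ncard_above (κ := κ) (L := L) (M := M) hM (meetSet (κ := κ) d a S x)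
      (meetSet_finite hK d a S hx0)
    have hsub : meetSet (κ := κ) d a S X ⊆ {w : Place κ M | below L w ∈ meetSet (κ := κ) d a S x} := by
      rintro w ⟨hw1, j, hj1, hj2⟩
      have h1 : (fun I => algebraMap K M (a j I)) =
          fun I => algebraMap L M (algebraMap K L (a j I)) := by
        funext I
        exact IsScalarTower.algebraMap_apply K L M _
      rw [h1, Fval_map] at hj1 hj2
      refine ⟨?_, j, fun h0 => hj1 (by rw [h0, map_zero]), ?_⟩
      · rw [below_below]
        exact hw1
      · rw [below_pow] at hj2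
        have he := one_le_ramIdx (K := L) w.1 w.2.1
        have h2 : vmax w.1 X = vmax (below L w).1 x ^ ramIdx L w.1 := by
          apply le_antisymm
          · refine vmax_le _ fun i => ?_
            rw [hX]
            simp only
            rw [below_pow]
            exact pow_le_pow_left₀ zero_le (le_vmax _ _ _) _
          · obtain ⟨l, -, hl, -⟩ := exists_vmax (below L w).1 hx0
            rw [hl, ← below_pow]
            exact le_vmax w.1 X l
        rw [h2, ← pow_mul, mul_comm, pow_mul] at hj2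
        exact lt_of_pow_lt_pow_left₀ _ zero_le hj2
    have h3 := Set.ncard_le_ncard hsub hfin
    have h4 := h3.trans hcard
    rw [hN]
    exact_mod_cast h4
  have hmain := hC₂ M X P i₀ j₀ hXPn Q f hQline hQQ hroot hneX
  rw [hpluM, hKM, hM.height_ext hx0] at hmain
  set m : ℤ := ((meetSet (κ := κ) d a S x).ncard : ℤ) with hm
  set R : ℤ := (ramDeg κ L K : ℤ) with hR
  have hm0 : 0 ≤ m := by positivity
  have hR0 : 0 ≤ R := by positivity
  have hram3 : (ramDeg κ M K : ℤ) ≤ (ramDeg κ M L : ℤ) + N * R := by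
    rw [hN, hR]
    exact_mod_cast hram2
  set A : ℤ := ((D : ℤ) + 1) * h + E * e with hA
  have hA0 : 0 ≤ A := by positivity
  have hram4 : (ramDeg κ M L : ℤ) ≤ 6 * N * (N * A) := by
    calc (ramDeg κ M L : ℤ) ≤ 2 * (N - 1) * ∑ i, height κ (Q i) := hram
      _ ≤ 2 * N * ∑ i, height κ (Q i) := by gcongr; omega
      _ ≤ 2 * N * (3 * (N * A)) := by gcongr
      _ = _ := by ring
  have hfinal : N * height κ x ≤ N * (3 * m + 9 * A + 3 * h + 6 * N * A + R + C₂ * e) := by
    have : N * height κ x ≤ 3 * (N * m) + 3 * (3 * (N * A)) + 3 * (N * h) +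
        (6 * N * (N * A) + N * R) + C₂ * (e * N) := by linarith
    refine this.trans (le_of_eq ?_)
    ring
  have hfinal2 := le_of_mul_le_mul_left hfinal (by omega)
  refine hfinal2.trans ?_
  have hC2e : 0 ≤ (C₂ : ℤ) * e := by positivity
  have g6 : 3 * m + 9 * A + 3 * h + 6 * N * A + R + C₂ * e ≤
      N * (3 * m + 15 * A + 3 * h + R + C₂ * e) := arith_one hN1 hA0 hm0 hh0 hR0 hC2e
  refine g6.trans ?_
  have g7 : 3 * m + 15 * A + 3 * h + R + C₂ * e ≤
      ((15 * (D + 1) + 3 + 15 * E + C₂ : ℕ) : ℤ) * (h + m + R + e) := by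
    rw [hA]
    push_cast
    have hD0 : (0:ℤ) ≤ D := by positivity
    have hE0 : (0:ℤ) ≤ E := by positivity
    have hC20 : (0:ℤ) ≤ C₂ := by positivity
    exact arith_two hD0 hE0 hC20 hm0 hh0 hR0 he0
  calc N * (3 * m + 15 * A + 3 * h + R + C₂ * e) ≤
      N * (((15 * (D + 1) + 3 + 15 * E + C₂ : ℕ) : ℤ) * (h + m + R + e)) := by
        apply mul_le_mul_of_nonneg_left g7 (by omega)
    _ = _ := by ring

theorem lineP_map {L M : Type*} [Field L] [Field M] [Algebra L M] {s : ℕ} (d : ℕ)
    (a : (Fin s →₀ ℕ) → L) (y z : Fin s → L) :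
    (lineP d a y z).map (algebraMap L M) = lineP d (fun I => algebraMap L M (a I))
      (fun k => algebraMap L M (y k)) (fun k => algebraMap L M (z k)) := by
  unfold lineP lmon
  simp only [Polynomial.map_sum, Polynomial.map_mul, Polynomial.map_prod, Polynomial.map_pow,
    Polynomial.map_add, Polynomial.map_C, Polynomial.map_X]

theorem natDegree_lineP_le {M : Type*} [Field M] {s : ℕ} (d : ℕ) (a : (Fin s →₀ ℕ) → M)
    (y z : Fin s → M) : (lineP d a y z).natDegree ≤ d := by
  unfold lineP
  refine Polynomial.natDegree_sum_le_of_forall_le _ _ fun I hI => ?_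
  refine (Polynomial.natDegree_C_mul_le _ _).trans ?_
  exact (natDegree_lmon y z I).trans (le_of_eq (mem_expo.mp hI))

theorem finrank_three {L Ω : Type*} [Field L] [Field Ω] [Algebra L Ω] {D : ℕ}
    (ρ : Fin 3 → Ω) (P : Fin 3 → Polynomial L) (hP0 : ∀ i, P i ≠ 0)
    (hP : ∀ i, (P i).natDegree ≤ D) (hr : ∀ i, Polynomial.aeval (ρ i) (P i) = 0) :
    FiniteDimensional L (⨆ i, IntermediateField.adjoin L {ρ i} : IntermediateField L Ω) ∧
      Module.finrank L (⨆ i, IntermediateField.adjoin L {ρ i} : IntermediateField L Ω) ≤ D ^ 3 := by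
  have hint : ∀ i, IsIntegral L (ρ i) := fun i => IsAlgebraic.isIntegral ⟨P i, hP0 i, hr i⟩
  have hfin : ∀ i, FiniteDimensional L (IntermediateField.adjoin L {ρ i}) := fun i =>
    IntermediateField.adjoin.finiteDimensional (hint i)
  refine ⟨IntermediateField.finiteDimensional_iSup_of_finite, ?_⟩
  have hdeg : ∀ i, Module.finrank L (IntermediateField.adjoin L {ρ i}) ≤ D := by
    intro i
    rw [IntermediateField.adjoin.finrank (hint i)]
    exact (Polynomial.natDegree_le_of_dvd (minpoly.dvd L (ρ i) (hr i)) (hP0 i)).trans (hP i)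
  have h1 : (⨆ i, IntermediateField.adjoin L {ρ i} : IntermediateField L Ω) =
      IntermediateField.adjoin L {ρ 0} ⊔ IntermediateField.adjoin L {ρ 1} ⊔
        IntermediateField.adjoin L {ρ 2} := by
    apply le_antisymm
    · refine iSup_le fun i => ?_
      fin_cases i
      · exact le_sup_of_le_left le_sup_left
      · exact le_sup_of_le_left le_sup_right
      · exact le_sup_right
    · refine sup_le (sup_le ?_ ?_) ?_
      · exact le_iSup (fun i => IntermediateField.adjoin L {ρ i}) 0
      · exact le_iSup (fun i => IntermediateField.adjoin L {ρ i}) 1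
      · exact le_iSup (fun i => IntermediateField.adjoin L {ρ i}) 2
  rw [h1]
  calc _ ≤ Module.finrank L (IntermediateField.adjoin L {ρ 0} ⊔ IntermediateField.adjoin L {ρ 1} :
          IntermediateField L Ω) * Module.finrank L (IntermediateField.adjoin L {ρ 2}) :=
        IntermediateField.finrank_sup_le _ _
    _ ≤ (Module.finrank L (IntermediateField.adjoin L {ρ 0}) *
          Module.finrank L (IntermediateField.adjoin L {ρ 1})) *
          Module.finrank L (IntermediateField.adjoin L {ρ 2}) := by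
        gcongr
        exact IntermediateField.finrank_sup_le _ _
    _ ≤ (D * D) * D := by
        gcongr
        · exact hdeg 0
        · exact hdeg 1
        · exact hdeg 2
    _ = D ^ 3 := by ring

theorem lift_gen {L Ω : Type*} [Field L] [Field Ω] [Algebra L Ω] {k : ℕ} (ρ : Fin k → Ω)
    (M : IntermediateField L Ω) (hM : M = ⨆ i, IntermediateField.adjoin L {ρ i})
    (σ : Fin k → M) (hσ : ∀ i, (σ i : Ω) = ρ i) :
    ⨆ i, IntermediateField.adjoin L {σ i} = ⊤ := by
  rw [eq_top_iff]
  intro m _
  have h1 : M ≤ (⨆ i, IntermediateField.adjoin L {σ i}).map M.val := by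
    conv_lhs => rw [hM]
    refine iSup_le fun i => ?_
    rw [IntermediateField.adjoin_simple_le_iff]
    refine ⟨σ i, ?_, hσ i⟩
    exact (le_iSup (fun i => IntermediateField.adjoin L {σ i}) i)
      (IntermediateField.mem_adjoin_simple_self L (σ i))
  obtain ⟨m', hm', he⟩ := h1 m.2
  have h2 : m' = m := Subtype.ext he
  rw [← h2]
  exact hm'

/-- the bound for a point of a line which is not exceptional -/
theorem line_bound {κ K : Type*} [Field κ] [IsAlgClosed κ] [CharZero κ] [Field K] [Algebra κ K]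
    (hK : IsFF κ K) {s q : ℕ} (d : Fin q → ℕ) (a : Fin q → (Fin s →₀ ℕ) → K)
    {S : Set (Place κ K)} (hS : S.Finite) :
    ∃ C : ℕ, ∀ (L : Type w) [Field L] [Algebra κ L] [Algebra K L] [IsScalarTower κ K L]
      [FiniteDimensional K L] (x p' : Fin s → L), (∃ i j, plu x p' i j ≠ 0) →
      ¬ ExcLine d (fun j I => algebraMap K L (a j I)) x p' →
      height κ x ≤ (C : ℤ) * (height κ (pluV x p') + ((meetSet (κ := κ) d a S x).ncard : ℤ) +
        (ramDeg κ L K : ℤ) + Module.finrank K L) := by
  classical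
  choose C₁ hC₁ using fun j => line_root_height.{w} hK (d j) (a j)
  obtain ⟨C₂, hC₂⟩ := line_bound_M.{w} hK d a hS
  set D : ℕ := ∑ j, d j with hD
  set E : ℕ := ∑ j, C₁ j with hE
  refine ⟨(D + 1) + E + C₂ * D ^ 3, ?_⟩
  intro L _ _ _ _ _ x p' hex hexc
  obtain ⟨i₀, j₀, hplu⟩ := hex
  have hL : IsFF κ L := hK.of_finite
  have hpV : pluV x p' ≠ 0 := fun h => hplu (congrFun h (i₀, j₀))
  set h := height κ (pluV x p') with hh
  have hh0 : 0 ≤ h := hL.height_nonneg hpV
  set e : ℤ := (Module.finrank K L : ℤ) with he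
  have he0 : 0 ≤ e := by positivity
  set m : ℤ := ((meetSet (κ := κ) d a S x).ncard : ℤ) with hm
  set R : ℤ := (ramDeg κ L K : ℤ) with hR
  have hm0 : 0 ≤ m := by positivity
  have hR0 : 0 ≤ R := by positivity
  have hD0 : (0:ℤ) ≤ D := by positivity
  have hE0 : (0:ℤ) ≤ E := by positivity
  have hC20 : (0:ℤ) ≤ C₂ := by positivity
  have hCD : (0:ℤ) ≤ (C₂ : ℤ) * (D : ℤ) ^ 3 := by positivity
  unfold ExcLine at hexc
  rw [not_and_or] at hexc
  rcases hexc with h1 | h1
  · push Not at h1
    obtain ⟨j, hj0, u, v, huv⟩ := h1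
    have h2 := hC₁ j L x p' ⟨i₀, j₀, hplu⟩ hj0 ⟨u, v, huv⟩
    have h3 : (d j : ℤ) ≤ D := by
      have : d j ≤ D := Finset.single_le_sum (f := d) (fun _ _ => Nat.zero_le _) (Finset.mem_univ _)
      exact_mod_cast this
    have h4 : (C₁ j : ℤ) ≤ E := by
      have : C₁ j ≤ E :=
        Finset.single_le_sum (f := C₁) (fun _ _ => Nat.zero_le _) (Finset.mem_univ _)
      exact_mod_cast this
    have h5 : height κ x ≤ ((D : ℤ) + 1) * h + (E : ℤ) * e := by
      refine h2.trans ?_
      gcongr
    refine h5.trans ?_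
    push_cast
    exact arith_three hD0 hE0 hCD hm0 hh0 hR0 he0
  · rw [not_le, Set.two_lt_ncard_iff (Polynomial.rootSet_finite _ _)] at h1
    obtain ⟨r0, r1, r2, hr0, hr1, hr2, h01, h02, h12⟩ := h1
    have hroot : ∀ r ∈ (restP d (fun j I => algebraMap K L (a j I)) x p').rootSet (AlgebraicClosure L),
        ∃ j, Fval (d j) (fun I => algebraMap K L (a j I)) x ≠ 0 ∧
          lineP (d j) (fun I => algebraMap K L (a j I)) p' x ≠ 0 ∧
          Polynomial.aeval r (lineP (d j) (fun I => algebraMap K L (a j I)) p' x) = 0 := by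
      intro r hr
      rw [Polynomial.mem_rootSet] at hr
      obtain ⟨hr1, hr2⟩ := hr
      unfold restP at hr1 hr2
      rw [map_prod, Finset.prod_eq_zero_iff] at hr2
      obtain ⟨j, hj, hj2⟩ := hr2
      rw [Finset.prod_ne_zero_iff] at hr1
      exact ⟨j, (Finset.mem_filter.1 hj).2, hr1 j hj, hj2⟩
    set ρ : Fin 3 → AlgebraicClosure L := ![r0, r1, r2] with hρ
    have hρroot : ∀ i, ∃ j, Fval (d j) (fun I => algebraMap K L (a j I)) x ≠ 0 ∧
          lineP (d j) (fun I => algebraMap K L (a j I)) p' x ≠ 0 ∧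
          Polynomial.aeval (ρ i) (lineP (d j) (fun I => algebraMap K L (a j I)) p' x) = 0 := by
      intro i
      fin_cases i
      · exact hroot r0 hr0
      · exact hroot r1 hr1
      · exact hroot r2 hr2
    have hρinj : ∀ i j, i ≠ j → ρ i ≠ ρ j := inj_three h01 h02 h12
    choose f hf1 hf2 hf3 using hρroot
    set M : IntermediateField L (AlgebraicClosure L) := ⨆ i, IntermediateField.adjoin L {ρ i} with hM
    have hfD : ∀ i, d (f i) ≤ D := fun i =>
      Finset.single_le_sum (f := d) (fun _ _ => Nat.zero_le _) (Finset.mem_univ _)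
    obtain ⟨hfd, hfr⟩ := finrank_three (D := D) ρ
      (fun i => lineP (d (f i)) (fun I => algebraMap K L (a (f i) I)) p' x) hf2
      (fun i => (natDegree_lineP_le _ _ _ _).trans (hfD i)) hf3
    rw [← hM] at hfd hfr
    have hKMfin : FiniteDimensional K M := FiniteDimensional.trans K L M
    have hsc : IsScalarTower κ K M := IsScalarTower.of_algebraMap_eq fun c => by
      rw [IsScalarTower.algebraMap_apply κ L M, IsScalarTower.algebraMap_apply K L M,
        ← IsScalarTower.algebraMap_apply κ K L]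
    have hmem : ∀ i, ρ i ∈ M := fun i =>
      (le_iSup (fun i => IntermediateField.adjoin L {ρ i}) i)
        (IntermediateField.mem_adjoin_simple_self L (ρ i))
    set σ : Fin 3 → M := fun i => ⟨ρ i, hmem i⟩ with hσ
    have hres := hC₂ L M x p' i₀ j₀ hplu σ f
      (fun i j hij hcon => hρinj i j hij (congrArg Subtype.val hcon))
      (lift_gen ρ M hM σ fun i => rfl)
      (by
        intro i
        have h3 : Polynomial.aeval (σ i) (lineP (d (f i)) (fun I => algebraMap K L (a (f i) I)) p' x) = 0 := by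
          have h4 := hf3 i
          have h5 : ρ i = algebraMap M (AlgebraicClosure L) (σ i) := rfl
          rw [h5, Polynomial.aeval_algebraMap_eq_zero_iff] at h4
          exact h4
        rw [Polynomial.aeval_def, ← Polynomial.eval_map, lineP_map, eval_lineP] at h3
        have h6 : (fun I => algebraMap K M (a (f i) I)) =
            fun I => algebraMap L M (algebraMap K L (a (f i) I)) := by
          funext I
          exact IsScalarTower.algebraMap_apply K L M _
        rw [h6]
        exact h3)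
      hf1
    refine hres.trans ?_
    have hfr' : (Module.finrank L M : ℤ) ≤ (D : ℤ) ^ 3 := by exact_mod_cast hfr
    have h7 : (C₂ : ℤ) * Module.finrank L M * (h + m + R + e) ≤
        (C₂ : ℤ) * (D : ℤ) ^ 3 * (h + m + R + e) := by
      gcongr
    refine h7.trans ?_
    push_cast
    have h8 : 0 ≤ ((D : ℤ) + 1 + E) * (h + m + R + e) := by positivity
    linarith

end Pool.Agent.Lib.MP_44a246_ntL
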