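import Mathlib
import Pool.Agent.Lib.MP_44a246_ntL.LHeight
import Pool.Agent.Lib.MP_44a246_ntL.LDer

/-!
Existence of the derivations on the function field and on its extensions.
-/

namespace Pool.Agent.Lib.MP_44a246_ntL

open Pool.Agent.Lib.MP_e52354_nt
open Pool.Agent.Lib.MP_e52354_ntG
open Pool.Agent.Lib.MP_44a246_nt
open WithZero

section Base

variable {k₀ κ K : Type*} [Field k₀] [CharZero k₀] [Field κ] [IsAlgClosed κ] [CharZero κ] [Field K]
  [Algebra k₀ κ] [Algebra κ K] [Algebra k₀ K] [IsScalarTower k₀ κ K]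

theorem exists_setup {t : K} (ht : Transcendental κ t)
    (hfin : FiniteDimensional (IntermediateField.adjoin κ {t}) K) {Θ : Type*} [Fintype Θ]
    [DecidableEq Θ] {aK : Θ → K} (hc : AlgebraicIndependent k₀ aK) :
    ∃ (DK : Θ → Derivation ℤ K K) (B A : Place κ K → ℕ), (Function.support B).Finite ∧
      (Function.support A).Finite ∧ (∀ I, PoleBound κ (DK I) B) ∧
      (∀ I v, v.1 (aK I) ≤ exp (A v : ℤ)) ∧
      (∀ I J, DK I (aK J) = if I = J then 1 else 0) ∧
      (∀ I J y, DK I (DK J y) = DK J (DK I y)) := by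
  classical
  have hK : IsFF κ K := ⟨t, ht, hfin⟩
  have halg : Algebra.IsAlgebraic (IntermediateField.adjoin κ {t}) K :=
    Algebra.IsAlgebraic.of_finite _ _
  obtain ⟨N, iN, E, f, D, hE1, hE2, hD1, hD2, hD3⟩ := exists_ders_comm ht halg hc
  have h1 : ∀ j, ∃ B : Place κ K → ℕ, (Function.support B).Finite ∧ PoleBound κ (E j) B :=
    fun j => exists_poleBound ht hfin (E j) (hE1 j) (hE2 j)
  have h2 : ∀ θ, ∃ B : Place κ K → ℕ, (Function.support B).Finite ∧ PoleBound κ (D θ) B := by
    intro θ
    rw [hD1 θ]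
    exact poleBound_sum hK E (f θ) h1
  obtain ⟨B, hB1, hB2⟩ := poleBound_family D h2
  refine ⟨D, B, fun v => ∑ I, (log (v.1 (aK I))).toNat, hB1, ?_, hB2, ?_, hD2, hD3⟩
  · have h3 : (Function.support fun v : Place κ K => ∑ I, (log (v.1 (aK I))).toNat) ⊆
        ⋃ I, Function.support fun v : Place κ K => log (v.1 (aK I)) := by
      intro v hv
      rw [Set.mem_iUnion]
      by_contra hcon
      push Not at hcon
      apply hv
      refine Finset.sum_eq_zero fun I _ => ?_
      have := hcon I
      rw [Function.mem_support, not_not] at this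
      rw [this]
      rfl
    refine (Set.finite_iUnion fun I => ?_).subset h3
    by_cases h0 : aK I = 0
    · rw [h0]
      simp
    · exact hK.place_support h0
  · intro I v
    by_cases h0 : aK I = 0
    · rw [h0, map_zero]; exact zero_le
    · rw [← log_le_iff_le_exp ((v.1.ne_zero_iff).mpr h0)]
      have h4 : (log (v.1 (aK I))).toNat ≤ ∑ I, (log (v.1 (aK I))).toNat :=
        Finset.single_le_sum (f := fun I => (log (v.1 (aK I))).toNat)
          (fun _ _ => Nat.zero_le _) (Finset.mem_univ I)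
      have h5 := Int.self_le_toNat (log (v.1 (aK I)))
      have h6 : (((log (v.1 (aK I))).toNat : ℕ) : ℤ) ≤
        ((∑ I, (log (v.1 (aK I))).toNat : ℕ) : ℤ) := by exact_mod_cast h4
      exact h5.trans h6

end Base

section Ext

variable {K L : Type*} [Field K] [CharZero K] [Field L] [Algebra K L] [Algebra.IsAlgebraic K L]

/-- extensions of commuting derivations commute -/
theorem ext_comm {D₁ D₂ : Derivation ℤ K K} (h : ∀ y, D₁ (D₂ y) = D₂ (D₁ y))
    {D₁' D₂' : Derivation ℤ L L} (h₁ : ∀ y, D₁' (algebraMap K L y) = algebraMap K L (D₁ y))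
    (h₂ : ∀ y, D₂' (algebraMap K L y) = algebraMap K L (D₂ y)) (y : L) :
    D₁' (D₂' y) = D₂' (D₁' y) := by
  let E : Derivation ℤ L L := ⁅D₁', D₂'⁆
  have hE : ∀ c : K, E (algebraMap K L c) = 0 := by
    intro c
    show ⁅D₁', D₂'⁆ (algebraMap K L c) = 0
    rw [Derivation.commutator_apply, h₁, h₂, h₁, h₂, h, sub_self]
  have h3 := der_eq_zero (toLinearDer E hE) ∅ (by simp) (x := y) (by
    have : IsAlgebraic K y := Algebra.IsAlgebraic.isAlgebraic y
    exact this.tower_top _)
  have h4 : ⁅D₁', D₂'⁆ y = 0 := h3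
  rw [Derivation.commutator_apply, sub_eq_zero] at h4
  exact h4

theorem exists_ddata {κ : Type*} [Field κ] [Algebra κ K] {s q : ℕ} {d : Fin q → ℕ}
    {aK : MIdx s q d → K}
    {DK : MIdx s q d → Derivation ℤ K K} {B A : Place κ K → ℕ}
    (hB : ∀ I, PoleBound κ (DK I) B) (hA : ∀ I v, v.1 (aK I) ≤ exp (A v : ℤ))
    (hD : ∀ I J, DK I (aK J) = if I = J then 1 else 0)
    (hcomm : ∀ I J y, DK I (DK J y) = DK J (DK I y)) :
    ∃ X : DData (MIdx s q d) Empty L, HSetup X aK DK B A := by
  classical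
  choose DL hDL using fun I => exists_extension (K := K) (L := L) (DK I)
  refine ⟨{ a := fun I => algebraMap K L (aK I)
            b := fun g => g.elim
            D := DL
            hD := fun I J => ?_
            hb := fun _ g => g.elim
            hcomm := fun I J y => ext_comm (hcomm I J) (hDL I) (hDL J) y },
    ⟨fun _ => rfl, hDL, hB, hA⟩⟩
  rw [hDL, hD]
  split_ifs <;> simp

end Ext

end Pool.Agent.Lib.MP_44a246_ntL
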