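import Mathlib
import Pool.Agent.Lib.MP_44a246_ntL.LAll
import Pool.Agent.Lib.MP_44a246_ntL.LSetup
import Pool.Agent.Lib.MP_44a246_ntL.LThree

/-!
The main theorem for forms given by their coefficients.
-/

namespace Pool.Agent.Lib.MP_44a246_ntL

open Pool.Agent.Lib.MP_e52354_nt

private theorem lmain_base {T n R N N' D : ℤ} (h1 : T * n ≤ D * n) (hm : N' ≤ N) (hD : 0 ≤ D)
    (hN : 0 ≤ N) (hR : 0 ≤ R) (hn : 0 ≤ n) : T * n + R + N' ≤ (D + 1) * (N + R + n) := by
  nlinarith [mul_nonneg hD hN, mul_nonneg hD hR]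

private theorem lmain_two {C c D M : ℤ} (hC : 0 ≤ C) (hcD : 0 ≤ c * D) (hM : 0 ≤ M) :
    c * (D * M) ≤ (C + 1) * (c * D + 1) * M := by
  nlinarith [mul_nonneg (mul_nonneg hC hcD) hM, mul_nonneg hC hM]

private theorem lmain_three {C c D N R n : ℤ} (hcD : 0 ≤ c * D) (hM : 0 ≤ N + R + n) :
    C * (c * (D * (N + R + n)) + N + R + n) ≤ (C + 1) * (c * D + 1) * (N + R + n) := by
  nlinarith [mul_nonneg hcD hM]

open Pool.Agent.Lib.MP_e52354_ntG
open Pool.Agent.Lib.MP_44a246_nt
open WithZero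

universe w

section Scale

theorem vmax_smul {L : Type*} [Field L] (v : Valuation L ℤᵐ⁰) {σ : Type*} [Fintype σ] (c : L)
    (x : σ → L) : (vmax v fun i => c * x i) = v c * vmax v x := by
  by_cases hx : x = 0
  · subst hx
    have h1 : (fun i => c * (0 : σ → L) i) = 0 := by
      funext i; simp
    rw [h1]
    have h2 : vmax v (0 : σ → L) = 0 := (vmax_eq_zero_iff v).mpr rfl
    rw [h2, mul_zero]
  · apply le_antisymm
    · refine vmax_le _ fun i => ?_
      rw [map_mul]
      exact mul_le_mul' le_rfl (le_vmax _ _ _)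
    · obtain ⟨l, -, hl, -⟩ := exists_vmax v hx
      rw [hl, ← map_mul]
      exact le_vmax v (fun i => c * x i) l

variable {L : Type*} [Field L] {s q : ℕ} {d : Fin q → ℕ}

theorem Fval_congr {d : ℕ} {a a' : (Fin s →₀ ℕ) → L} (h : ∀ I ∈ expo (Fin s) d, a I = a' I)
    (x : Fin s → L) : Fval d a x = Fval d a' x := by
  unfold Fval
  exact Finset.sum_congr rfl fun I hI => by rw [h I hI]

theorem lineP_congr {d : ℕ} {a a' : (Fin s →₀ ℕ) → L} (h : ∀ I ∈ expo (Fin s) d, a I = a' I)
    (x y : Fin s → L) : lineP d a x y = lineP d a' x y := by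
  unfold lineP
  exact Finset.sum_congr rfl fun I hI => by rw [h I hI]

theorem excLine_congr {a a' : Fin q → (Fin s →₀ ℕ) → L}
    (h : ∀ j, ∀ I ∈ expo (Fin s) (d j), a j I = a' j I) {x y : Fin s → L}
    (hE : ExcLine d a x y) : ExcLine d a' x y := by
  classical
  obtain ⟨h1, h2⟩ := hE
  refine ⟨fun j hj u v => ?_, ?_⟩
  · rw [← Fval_congr (h j)]
    refine h1 j ?_ u v
    rw [Fval_congr (h j)]
    exact hj
  · have h3 : restP d a' x y = restP d a x y := by
      unfold restP
      have h4 : (Finset.univ.filter fun j => Fval (d j) (a' j) x ≠ 0) =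
          Finset.univ.filter fun j => Fval (d j) (a j) x ≠ 0 := by
        ext j
        rw [Finset.mem_filter, Finset.mem_filter, Fval_congr (h j)]
      rw [h4]
      exact Finset.prod_congr rfl fun j _ => (lineP_congr (h j) _ _).symm
    rw [h3]
    exact h2

theorem excLine_smul [CharZero L] {a : Fin q → (Fin s →₀ ℕ) → L} {x y : Fin s → L} {c : L}
    (hc : c ≠ 0) (hE : ExcLine d a (fun i => c * x i) y) :
    ExcLine d a x (fun i => c⁻¹ * y i) := by
  classical
  obtain ⟨h1, h2⟩ := hE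
  have hF : ∀ j, Fval (d j) (a j) (fun i => c * x i) = c ^ d j * Fval (d j) (a j) x :=
    fun j => Fval_smul _ _ _ _
  refine ⟨fun j hj u v => ?_, ?_⟩
  · have h3 := h1 j (by rw [hF, hj, mul_zero]) (u / c) (v / c)
    rw [← h3]
    congr 1
    funext k
    field_simp
  · have h3 : restP d a x (fun i => c⁻¹ * y i) =
        Polynomial.C (∏ j with Fval (d j) (a j) x ≠ 0, c⁻¹ ^ d j) *
          restP d a (fun i => c * x i) y := by
      unfold restP
      have h4 : (Finset.univ.filter fun j => Fval (d j) (a j) (fun i => c * x i) ≠ 0) =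
          Finset.univ.filter fun j => Fval (d j) (a j) x ≠ 0 := by
        ext j
        rw [Finset.mem_filter, Finset.mem_filter, hF, mul_ne_zero_iff]
        simp [hc]
      rw [h4, map_prod, ← Finset.prod_mul_distrib]
      refine Finset.prod_congr rfl fun j _ => ?_
      apply Polynomial.funext
      intro t
      rw [Polynomial.eval_mul, Polynomial.eval_C, eval_lineP, eval_lineP, ← Fval_smul]
      congr 1
      funext k
      field_simp
    rw [h3]
    refine le_trans (Set.ncard_le_ncard ?_ (Polynomial.rootSet_finite _ _)) h2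
    intro z hz
    rw [Polynomial.mem_rootSet] at hz ⊢
    obtain ⟨h5, h6⟩ := hz
    rw [mul_ne_zero_iff] at h5
    refine ⟨h5.2, ?_⟩
    rw [map_mul, Polynomial.aeval_C, mul_eq_zero] at h6
    refine h6.resolve_left ?_
    rw [_root_.map_eq_zero]
    intro h7
    exact h5.1 (by rw [h7, Polynomial.C_0])

end Scale

section Main

variable {k₀ κ K : Type*} [Field k₀] [CharZero k₀] [Field κ] [IsAlgClosed κ] [CharZero κ] [Field K]
  [Algebra k₀ κ] [Algebra κ K] [Algebra k₀ K] [IsScalarTower k₀ κ K]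

open Classical in
theorem log_main {t : K} (ht : Transcendental κ t)
    (hfin : FiniteDimensional (IntermediateField.adjoin κ {t}) K) {s q : ℕ} (d : Fin q → ℕ)
    (hd1 : ∀ j, 1 ≤ d j) (a : Fin q → (Fin s →₀ ℕ) → K)
    (hc : AlgebraicIndependent k₀ (fun θ : MIdx s q d => a θ.1 θ.2.1))
    {S : Set (Place κ K)} (hS : S.Finite) :
    ∃ C : ℕ, ∀ (L : Type w) [Field L] [Algebra κ L] [Algebra K L] [IsScalarTower κ K L]
      [FiniteDimensional K L] (x : Fin s → L), x ≠ 0 →
      (s : ℤ) - 1 - (Fintype.card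
        {j : Fin q // Fval (d j) (fun I => algebraMap K L (a j I)) x = 0} : ℤ) <
        2 * ((∑ j, (d j : ℤ)) - s) →
      height κ x ≤ (C : ℤ) * (((meetSet (κ := κ) d a S x).ncard : ℤ) + (ramDeg κ L K : ℤ) +
          (Module.finrank K L : ℤ)) ∨
        (∑ j, d j + Fintype.card
          {j : Fin q // Fval (d j) (fun I => algebraMap K L (a j I)) x = 0} + 1 ≤ 2 * s ∧
        ∃ y : Fin s → L, (∃ i j, plu x y i j ≠ 0) ∧
          ExcLine d (fun j I => algebraMap K L (a j I)) x y) := by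
  have hcK : CharZero K := charZero_of_injective_algebraMap (algebraMap κ K).injective
  have hK : IsFF κ K := ⟨t, ht, hfin⟩
  obtain ⟨DK, B, A, hB, hA, hPB, hPA, hD, hcomm⟩ := exists_setup ht hfin hc
  obtain ⟨C₁, hC₁⟩ := line_bound.{w} hK d a hS
  set c := 2 * (s + q) + (2 * s * (∑ j, d j) + s) with hcdef
  set D₀ := (∑ᶠ v, (totB B A S v : ℤ)).toNat with hD₀
  have hD₀' : (∑ᶠ v, (totB B A S v : ℤ)) ≤ (D₀ : ℤ) := Int.self_le_toNat _
  refine ⟨(C₁ + 1) * (c * (D₀ + 1) + 1), ?_⟩
  intro L _ _ _ _ _ x hx hk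
  have hcL : CharZero L := charZero_of_injective_algebraMap (algebraMap K L).injective
  have hL : IsFF κ L := hK.of_finite
  obtain ⟨X, hX⟩ := exists_ddata (L := L) hPB hPA hD hcomm
  obtain ⟨l, hl⟩ : ∃ l, x l ≠ 0 := by
    by_contra hcon
    push Not at hcon
    exact hx (funext hcon)
  -- normalise
  set x' : Fin s → L := fun i => (x l)⁻¹ * x i with hx'
  have hx'l : x' l = 1 := inv_mul_cancel₀ hl
  have hx'0 : x' ≠ 0 := by
    intro h0
    have := congrFun h0 l
    rw [hx'l] at this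
    exact one_ne_zero this
  have hmA : ∀ j, ∀ I ∈ expo (Fin s) (d j), mA X j I = algebraMap K L (a j I) := by
    intro j I hI
    simp only [mA, dif_pos hI]
    rw [hX.ha]
  have hzv : ∀ j, zv X x' j =
      (x l)⁻¹ ^ d j * Fval (d j) (fun I => algebraMap K L (a j I)) x := by
    intro j
    unfold zv
    rw [Fval_congr (hmA j), hx', Fval_smul]
  have hzv0 : ∀ j, zv X x' j = 0 ↔ Fval (d j) (fun I => algebraMap K L (a j I)) x = 0 := by
    intro j
    rw [hzv, mul_eq_zero]
    constructor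
    · intro h
      exact h.resolve_left (pow_ne_zero _ (inv_ne_zero hl))
    · exact Or.inr
  have hcard : Fintype.card {j : Fin q // zv X x' j = 0} =
      Fintype.card {j : Fin q // Fval (d j) (fun I => algebraMap K L (a j I)) x = 0} :=
    Fintype.card_congr (Equiv.subtypeEquivRight hzv0)
  have hh : height κ x' = height κ x := hL.height_smul (inv_ne_zero hl)
  -- the counting function
  have hmeet : ((meetT (κ := κ) X (Subtype.val : {j : Fin q // zv X x' j ≠ 0} → Fin q) S
      x').ncard : ℤ) ≤ ((meetSet (κ := κ) d a S x).ncard : ℤ) := by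
    have h1 : meetT (κ := κ) X (Subtype.val : {j : Fin q // zv X x' j ≠ 0} → Fin q) S x' ⊆
        meetSet (κ := κ) d a S x := by
      rintro w ⟨h1, ⟨b, hb⟩, h2⟩
      refine ⟨h1, b, fun h3 => hb ((hzv0 _).mpr h3), ?_⟩
      have h3 : w.1 (zv X x' b) < vmax w.1 x' ^ d b := h2
      have h4 : vmax w.1 x' = w.1 (x l)⁻¹ * vmax w.1 x := vmax_smul w.1 (x l)⁻¹ x
      rw [hzv, map_mul, h4, mul_pow, map_pow] at h3
      exact lt_of_mul_lt_mul_left' h3
    exact_mod_cast Set.ncard_le_ncard h1 (meetSet_finite hK d a S hx)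
  set N : ℤ := ((meetSet (κ := κ) d a S x).ncard : ℤ) with hN
  have hN0 : 0 ≤ N := Int.natCast_nonneg _
  set R : ℤ := (ramDeg κ L K : ℤ) with hR
  have hR0 : 0 ≤ R := Int.natCast_nonneg _
  set n : ℤ := (Module.finrank K L : ℤ) with hn
  have hn0 : 0 ≤ n := Int.natCast_nonneg _
  have hbase : (∑ᶠ v, (totB B A S v : ℤ)) * n + R +
      ((meetT (κ := κ) X (Subtype.val : {j : Fin q // zv X x' j ≠ 0} → Fin q) S x').ncard : ℤ) ≤
      (D₀ + 1 : ℤ) * (N + R + n) := by
    have h1 : (∑ᶠ v, (totB B A S v : ℤ)) * n ≤ (D₀ : ℤ) * n := mul_le_mul_of_nonneg_right hD₀' hn0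
    have h2 : (0 : ℤ) ≤ D₀ := Int.natCast_nonneg _
    exact lmain_base h1 hmeet h2 hN0 hR0 hn0
  have hNRn : 0 ≤ N + R + n := by linarith
  have hc0 : (0 : ℤ) ≤ c := Int.natCast_nonneg _
  have hk' : (s : ℤ) - 1 - (Fintype.card {j : Fin q // zv X x' j = 0} : ℤ) <
      2 * ((∑ j, (d j : ℤ)) - s) := by
    rw [hcard]
    exact hk
  have hz : ∀ b : {j : Fin q // zv X x' j ≠ 0}, zv X x' b.1 ≠ 0 := fun b => b.2
  -- from exceptional lines for `x'` to exceptional lines for `x`
  have hexc : ∀ y : Fin s → L, (∃ i j, plu x' y i j ≠ 0) →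
      ExcLine d (fun j I => algebraMap K L (a j I)) x' y →
      ∃ y : Fin s → L, (∃ i j, plu x y i j ≠ 0) ∧
        ExcLine d (fun j I => algebraMap K L (a j I)) x y := by
    rintro y ⟨i, j, hij⟩ hE
    refine ⟨fun i => ((x l)⁻¹)⁻¹ * y i, ⟨i, j, ?_⟩, excLine_smul (inv_ne_zero hl) hE⟩
    intro h0
    apply hij
    simp only [plu, hx', inv_inv] at h0 ⊢
    have h1 : (x l)⁻¹ * x i * y j - (x l)⁻¹ * x j * y i =
        (x l)⁻¹ * (x l)⁻¹ * (x i * (x l * y j) - x j * (x l * y i)) := by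
      field_simp
    rw [h1, h0, mul_zero]
  rcases llocal_all (X := X) (p := x') hx'l hd1 hk' with
    ⟨J, hJ0, hJ⟩ | ⟨hsmall, hBL | ⟨y, hy, hE⟩⟩
  · left
    have h1 := height_of_J hL hX hB hA hx'0 _ hz hS hJ0 hJ
    rw [hh] at h1
    calc height κ x ≤ (c : ℤ) * ((D₀ + 1 : ℤ) * (N + R + n)) :=
          h1.trans (mul_le_mul_of_nonneg_left hbase hc0)
      _ ≤ (((C₁ + 1) * (c * (D₀ + 1) + 1) : ℕ) : ℤ) * (N + R + n) := by
          push_cast
          have h2 : (0 : ℤ) ≤ C₁ := Int.natCast_nonneg _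
          have h3 : (0 : ℤ) ≤ D₀ := Int.natCast_nonneg _
          have h4 : (0 : ℤ) ≤ (c : ℤ) * (D₀ + 1) := by positivity
          exact lmain_two h2 h4 hNRn
  · obtain ⟨p', hp', hheight⟩ := height_of_BLine hL hX hB hA hx'0 _ hz hS hBL
    by_cases hE : ExcLine d (fun j I => algebraMap K L (a j I)) x' p'
    · right
      rw [hcard] at hsmall
      exact ⟨hsmall, hexc p' hp' hE⟩
    · left
      have h1 := hC₁ L x' p' hp' hE
      rw [hh] at h1
      have h2 : height κ (pluV x' p') ≤ (c : ℤ) * ((D₀ + 1 : ℤ) * (N + R + n)) :=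
        hheight.trans (mul_le_mul_of_nonneg_left hbase hc0)
      have h3 : ((meetSet (κ := κ) d a S x').ncard : ℤ) ≤ N := by
        have h4 : meetSet (κ := κ) d a S x' ⊆ meetSet (κ := κ) d a S x := by
          rintro w ⟨h1, j, h2, h3⟩
          refine ⟨h1, j, ?_, ?_⟩
          · intro h4
            apply h2
            rw [hx', Fval_smul, h4, mul_zero]
          · have h4 : vmax w.1 x' = w.1 (x l)⁻¹ * vmax w.1 x := vmax_smul w.1 (x l)⁻¹ x
            rw [h4, hx', Fval_smul, map_mul, mul_pow, map_pow] at h3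
            exact lt_of_mul_lt_mul_left' h3
        rw [hN]
        exact_mod_cast Set.ncard_le_ncard h4 (meetSet_finite hK d a S hx)
      have h4 : (0 : ℤ) ≤ C₁ := Int.natCast_nonneg _
      have h5 : (0 : ℤ) ≤ D₀ := Int.natCast_nonneg _
      have h6 : (0 : ℤ) ≤ (c : ℤ) * (D₀ + 1) := by positivity
      calc height κ x ≤ (C₁ : ℤ) * (height κ (pluV x' p') +
            ((meetSet (κ := κ) d a S x').ncard : ℤ) + R + n) := h1
        _ ≤ (C₁ : ℤ) * ((c : ℤ) * ((D₀ + 1 : ℤ) * (N + R + n)) + N + R + n) := by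
            refine mul_le_mul_of_nonneg_left ?_ h4
            linarith
        _ ≤ (((C₁ + 1) * (c * (D₀ + 1) + 1) : ℕ) : ℤ) * (N + R + n) := by
            push_cast
            exact lmain_three h6 hNRn
  · right
    rw [hcard] at hsmall
    refine ⟨hsmall, hexc y hy (excLine_congr (fun j I hI => ?_) hE)⟩
    exact hmA j I hI

end Main

end Pool.Agent.Lib.MP_44a246_ntL
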