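import Mathlib
import Pool.Agent.Lib.MP_44a246_ntL.LMain
import Pool.Agent.Lib.MP_44a246_nt.PolyMain

/-!
The main theorem for forms given as polynomials.
-/

namespace Pool.Agent.Lib.MP_44a246_ntL

open Pool.Agent.Lib.MP_e52354_nt
open Pool.Agent.Lib.MP_e52354_ntG
open Pool.Agent.Lib.MP_44a246_nt
open WithZero

universe w

theorem below_equiv {κ K L : Type*} [Field κ] [Field K] [Algebra κ K] [Field L] [Algebra κ L]
    [Algebra K L] [IsScalarTower κ K L] [Algebra.IsAlgebraic K L] (w : Place κ L) (v : Place κ K) :
    (w.1.comap (algebraMap K L)).IsEquiv v.1 ↔ below K w = v := by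
  constructor
  · intro h
    refine below_eq fun x hx => ?_
    exact h.le_one_iff_le_one.mpr hx
  · rintro rfl
    intro x y
    show w.1 (algebraMap K L x) ≤ w.1 (algebraMap K L y) ↔ _
    rw [below_pow, below_pow]
    have he := one_le_ramIdx (K := K) w.1 w.2.1
    exact pow_le_pow_iff_left₀ zero_le zero_le (by omega)

theorem linInd_of_plu {L : Type*} [Field L] {s : ℕ} {x y : Fin s → L}
    (h : ∃ i j, plu x y i j ≠ 0) : LinearIndependent L ![x, y] := by
  obtain ⟨i, j, hij⟩ := h
  rw [LinearIndependent.pair_iff]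
  intro u v huv
  have h1 := congrFun huv i
  have h2 := congrFun huv j
  simp only [Pi.add_apply, Pi.smul_apply, smul_eq_mul, Pi.zero_apply] at h1 h2
  have hu : u * plu x y i j = 0 := by
    unfold plu
    linear_combination (y j) * h1 - (y i) * h2
  have hv : v * plu x y i j = 0 := by
    unfold plu
    linear_combination (x i) * h2 - (x j) * h1
  exact ⟨(mul_eq_zero.mp hu).resolve_right hij, (mul_eq_zero.mp hv).resolve_right hij⟩

theorem poly_log_main {κ K : Type*} [Field κ] [IsAlgClosed κ] [CharZero κ] [Field K] [CharZero K]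
    [Algebra κ K] {t : K} (ht : Transcendental κ t)
    [FiniteDimensional (IntermediateField.adjoin κ {t}) K] {n q : ℕ} (d : Fin q → ℕ)
    (hd : ∀ i, 1 ≤ d i) (F : Fin q → MvPolynomial (Fin (n + 1)) K)
    (hF : ∀ i, (F i).IsHomogeneous (d i))
    (hgen : AlgebraicIndependent ℚ
      (fun θ : Σ i, {I : Fin (n + 1) →₀ ℕ // I.degree = d i} => (F θ.1).coeff θ.2.1))
    (S : Set (Place κ K)) (hS : S.Finite) :
    ∃ C : ℕ, ∀ (L : Type w) [Field L] [Algebra K L] [FiniteDimensional K L] [Algebra κ L]
      [IsScalarTower κ K L] (x : Fin (n + 1) → L), x ≠ 0 →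
      (n : ℤ) - Nat.card {i // MvPolynomial.aeval x (F i) = 0} <
        2 * (∑ i, (d i : ℤ) - (n + 1)) →
      height κ x ≤ C * ((truncCount κ F d S x : ℤ) + ramDeg κ L K + Module.finrank K L) ∨
      (∑ i, d i + Nat.card {i // MvPolynomial.aeval x (F i) = 0} ≤ 2 * n + 1 ∧
        ∃ y : Fin (n + 1) → L, LinearIndependent L ![x, y] ∧
          (∀ i, MvPolynomial.aeval x (F i) = 0 →
            ∀ u v : L, MvPolynomial.aeval (fun j => u * x j + v * y j) (F i) = 0) ∧
          {z : AlgebraicClosure L | ∃ i, MvPolynomial.aeval x (F i) ≠ 0 ∧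
            MvPolynomial.aeval (fun j => z * algebraMap L (AlgebraicClosure L) (x j) +
              algebraMap L (AlgebraicClosure L) (y j)) (F i) = 0}.encard ≤ 2) := by
  classical
  have hQ : IsScalarTower ℚ κ K := inferInstance
  let a : Fin q → (Fin (n + 1) →₀ ℕ) → K := fun i I => (F i).coeff I
  have hc : AlgebraicIndependent ℚ (fun θ : MIdx (n + 1) q d => a θ.1 θ.2.1) := by
    have h1 : (fun θ : MIdx (n + 1) q d => a θ.1 θ.2.1) =
        (fun θ : Σ i, {I : Fin (n + 1) →₀ ℕ // I.degree = d i} => (F θ.1).coeff θ.2.1) ∘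
        (fun θ : MIdx (n + 1) q d => ⟨θ.1, ⟨θ.2.1, mem_expo.mp θ.2.2⟩⟩) := rfl
    rw [h1]
    apply hgen.comp
    rintro ⟨i, I, h⟩ ⟨i', I', h'⟩ heq
    simp only [Sigma.mk.injEq] at heq
    obtain ⟨h1, h2⟩ := heq
    subst h1
    simp only [heq_eq_eq, Subtype.mk.injEq] at h2
    subst h2
    rfl
  obtain ⟨C, hC⟩ := log_main.{w} (k₀ := ℚ) ht inferInstance d hd a hc hS
  refine ⟨C, ?_⟩
  intro L _ _ _ _ _ x hx hk
  have hev : ∀ i, MvPolynomial.aeval x (F i) =
      Fval (d i) (fun I => algebraMap K L (a i I)) x := fun i => aeval_eq_Fval (F i) (hF i) x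
  have hcard : Fintype.card {j : Fin q // Fval (d j) (fun I => algebraMap K L (a j I)) x = 0} =
      Nat.card {i // MvPolynomial.aeval x (F i) = 0} := by
    rw [Nat.card_eq_fintype_card]
    exact Fintype.card_congr (Equiv.subtypeEquivRight fun i => by rw [hev])
  have hmeet : meetSet (κ := κ) d a S x = {w : Place κ L |
      (∀ v ∈ S, ¬ (w.1.comap (algebraMap K L)).IsEquiv v.1) ∧
      ∃ i, MvPolynomial.aeval x (F i) ≠ 0 ∧
      w.1 (MvPolynomial.aeval x (F i)) < vmax w.1 x ^ d i} := by
    ext w
    simp only [meetSet, Set.mem_ofPred_eq, hev]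
    refine and_congr ?_ Iff.rfl
    constructor
    · intro h v hv hvw
      rw [below_equiv] at hvw
      rw [hvw] at h
      exact h hv
    · intro h hb
      exact h _ hb ((below_equiv w _).mpr rfl)
  have hk' : ((n + 1 : ℕ) : ℤ) - 1 - (Fintype.card
      {j : Fin q // Fval (d j) (fun I => algebraMap K L (a j I)) x = 0} : ℤ) <
      2 * ((∑ j, (d j : ℤ)) - ((n + 1 : ℕ) : ℤ)) := by
    rw [hcard]
    push_cast
    linarith
  rcases hC L x hx hk' with h | ⟨hsmall, y, hy, h1, h2⟩
  · left
    rw [hmeet] at h
    exact h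
  · right
    rw [hcard] at hsmall
    refine ⟨by omega, y, linInd_of_plu hy, fun i hi u v => ?_, ?_⟩
    · rw [hev] at hi
      have h3 := h1 i hi u v
      rw [aeval_eq_Fval (F i) (hF i), ← h3]
      congr 1
      funext j
      ring
    · have hP0 : restP d (fun j I => algebraMap K L (a j I)) x y ≠ 0 := by
        unfold restP
        rw [Finset.prod_ne_zero_iff]
        intro j hj h0
        rw [Finset.mem_filter] at hj
        apply hj.2
        have hinf : Infinite L := by
          have : CharZero L := charZero_of_injective_algebraMap (algebraMap K L).injective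
          infer_instance
        have h3 := Fval_comb (d j) (fun I => algebraMap K L (a j I)) h0 hinf 0 1
        rw [← h3]
        congr 1
        funext k
        ring
      have hsub : {z : AlgebraicClosure L | ∃ i, MvPolynomial.aeval x (F i) ≠ 0 ∧
            MvPolynomial.aeval (fun j => z * algebraMap L (AlgebraicClosure L) (x j) +
              algebraMap L (AlgebraicClosure L) (y j)) (F i) = 0} ⊆
          (restP d (fun j I => algebraMap K L (a j I)) x y).rootSet (AlgebraicClosure L) := by
        rintro z ⟨i, hi1, hi2⟩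
        rw [Polynomial.mem_rootSet]
        refine ⟨hP0, ?_⟩
        unfold restP
        rw [map_prod, Finset.prod_eq_zero_iff]
        refine ⟨i, ?_, ?_⟩
        · rw [Finset.mem_filter]
          refine ⟨Finset.mem_univ _, ?_⟩
          rw [← hev]
          exact hi1
        · rw [Polynomial.aeval_def, ← Polynomial.eval_map, lineP_map, eval_lineP]
          rw [aeval_eq_Fval (F i) (hF i)] at hi2
          rw [← hi2]
          have h4 : (fun I => algebraMap L (AlgebraicClosure L) (algebraMap K L (a i I))) =
              fun I => algebraMap K (AlgebraicClosure L) ((F i).coeff I) := by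
            funext I
            exact (IsScalarTower.algebraMap_apply K L (AlgebraicClosure L) _).symm
          rw [h4]
          congr 1
          funext j
          ring
      have hfin := Polynomial.rootSet_finite
        (restP d (fun j I => algebraMap K L (a j I)) x y) (AlgebraicClosure L)
      refine (Set.encard_le_encard hsub).trans ?_
      rw [← hfin.cast_ncard_eq]
      exact_mod_cast h2

end Pool.Agent.Lib.MP_44a246_ntL
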